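import Pool.Agent.H126.DJ.St

set_option autoImplicit false

namespace Pool.Agent.H126.DJ

open Set Filter Topology

theorem efun_symm {d : ℕ} {U : Type} {p : U → EuclideanSpace ℝ (Fin d)} {x y : U}
    (h : EFun p x y) : EFun p y x := by
  obtain ⟨l, b, h1, h2, h3⟩ := h
  exact ⟨l, b, h2, h1, fun z hz1 hz2 => h3 z hz2 hz1⟩

theorem joinW_congr {V V' W : Type} {G : SimpleGraph V} {G' : SimpleGraph V'} (f : G ≃g G') :
    Nonempty (joinW G W ≃g joinW G' W) := by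
  refine ⟨⟨Equiv.sumCongr f.toEquiv (Equiv.refl W), ?_⟩⟩
  intro x y
  constructor
  · rintro ⟨hne, h⟩
    refine ⟨fun hxy => hne (by rw [hxy]), ?_⟩
    rintro u v rfl rfl
    exact f.map_adj_iff.1 (h (f u) (f v) rfl rfl)
  · rintro ⟨hne, h⟩
    refine ⟨fun hxy => hne ((Equiv.sumCongr f.toEquiv (Equiv.refl W)).injective hxy), ?_⟩
    intro u v hu hv
    rcases x with a | a
    · rcases y with b | b
      · have h1 : f a = u := Sum.inl_injective hu
        have h2 : f b = v := Sum.inl_injective hv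
        rw [← h1, ← h2]
        exact f.map_adj_iff.2 (h a b rfl rfl)
      · exact absurd hv (by simp)
    · exact absurd hu (by simp)

/-- From a cyclic order without crossings to a `3`-polytope. -/
theorem outer (hA : S_CHARA) (h1 : S_O1) (h2 : S_O2) (h3 : S_O3) (hiso : S_ISO)
    (U : Type) (H : SimpleGraph U) (h : OuterHam H) : IsPolytopal 3 (joinW H (Fin 1)) := by
  obtain ⟨m, e, hm, hc, hw, hx⟩ := h
  let H' : SimpleGraph (Fin m) := H.comap e
  have hO : OHF m H' := ⟨hm, fun a b hab => hc a b hab, fun a b ha hb => hw a b ha hb,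
    fun a b c d hab hbc hcd => hx a b c d hab hbc hcd⟩
  obtain ⟨hs, hv, he⟩ := h1 m H' hO
  have hpoly : IsPolytopal 3 (joinW H' (Fin 1)) := by
    have : Nonempty (Fin m ⊕ Fin 1) := ⟨Sum.inr 0⟩
    refine hA 3 _ (joinW H' (Fin 1)) (pO m H') hs hv ?_
    rintro (a | a) (c | c) hne
    · have hac : a ≠ c := fun h => hne (by rw [h])
      constructor
      · rintro ⟨-, h⟩
        exact h2 m H' hO a c (h a c rfl rfl)
      · intro hE
        refine ⟨hne, fun u v hu hv' => ?_⟩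
        obtain rfl := Sum.inl_injective hu
        obtain rfl := Sum.inl_injective hv'
        by_contra hadj
        rcases lt_or_gt_of_ne hac with hlt | hlt
        · exact h3 m H' hO a c hlt hadj hE
        · exact h3 m H' hO c a hlt (fun h => hadj h.symm) (efun_symm hE)
    · obtain rfl : c = 0 := Subsingleton.elim _ _
      exact ⟨fun _ => he a, fun _ => ⟨hne, fun u v _ hv' => by cases hv'⟩⟩
    · obtain rfl : a = 0 := Subsingleton.elim _ _
      exact ⟨fun _ => efun_symm (he c), fun _ => ⟨hne, fun u v hu _ => by cases hu⟩⟩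
    · exact absurd (by rw [Subsingleton.elim a c]) hne
  exact hiso 3 _ _ _ _ (joinW_congr (SimpleGraph.Iso.comap e H)) hpoly

theorem up5 (hA : S_CHARA) (hiso : S_ISO) (has : S_ASSOC) (qv : S_QV) (qvv : S_QVV)
    (qvw0 : S_QVW0) (qvw1 : S_QVW1) (qww : S_QWW) (qn : S_QN) (pl : S_PLACE) (pa : S_PARA)
    (V : Type) [Fintype V] (G : SimpleGraph V) : ∃ n ≥ 1, IsPolytopal 5 (joinComplete G n) := by
  classical
  obtain ⟨a, hinj, hcol, hspan⟩ := pa V
  let A := V ⊕ Fin 6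
  let GA : SimpleGraph A := joinW G (Fin 6)
  let r : A ≃ Fin (Fintype.card A) := Fintype.equivFin A
  let E := {q : A × A // r q.1 < r q.2 ∧ ¬ GA.Adj q.1 q.2}
  let i : E → A := fun e => e.1.1
  let j : E → A := fun e => e.1.2
  have hij : ∀ e : E, i e ≠ j e := fun e h => by
    have := e.2.1
    rw [show e.1.1 = e.1.2 from h] at this
    exact lt_irrefl _ this
  have hpair : ∀ e e' : E, ((i e = i e' ∧ j e = j e') ∨ (i e = j e' ∧ j e = i e')) → e = e' := by
    rintro e e' (⟨h1, h2⟩ | ⟨h1, h2⟩)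
    · exact Subtype.ext (Prod.ext h1 h2)
    · exfalso
      have h3 := e.2.1
      have h4 := e'.2.1
      rw [show e.1.1 = e'.1.2 from h1, show e.1.2 = e'.1.1 from h2] at h3
      exact lt_asymm h3 h4
  obtain ⟨s, hs0, hs1, hsinj, hsgp⟩ := pl A E a i j hinj hcol hij hpair
  let C : QConf A E := ⟨a, i, j, s⟩
  have hC : C.Good := ⟨hij, hpair, hs0, hs1, hsinj, hsgp, hspan⟩
  have hadjE : ∀ x y : A, x ≠ y → ¬ GA.Adj x y →
      ∃ e : E, (i e = x ∧ j e = y) ∨ (i e = y ∧ j e = x) := by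
    intro x y hxy hn
    rcases lt_or_gt_of_ne (fun h => hxy (r.injective h) : r x ≠ r y) with h | h
    · exact ⟨⟨(x, y), h, hn⟩, Or.inl ⟨rfl, rfl⟩⟩
    · exact ⟨⟨(y, x), h, fun h' => hn h'.symm⟩, Or.inr ⟨rfl, rfl⟩⟩
  have hno : ∀ x y : A, GA.Adj x y → ¬ ∃ e : E, (i e = x ∧ j e = y) ∨ (i e = y ∧ j e = x) := by
    rintro x y hadj ⟨e, ⟨h1, h2⟩ | ⟨h1, h2⟩⟩
    · exact e.2.2 (by rw [show e.1.1 = x from h1, show e.1.2 = y from h2]; exact hadj)
    · exact e.2.2 (by rw [show e.1.1 = y from h1, show e.1.2 = x from h2]; exact hadj.symm)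
  -- all conditions for one small ε
  have ev1 : ∀ᶠ ε in 𝓝[>] (0 : ℝ), ∀ u, VFun (C.pt ε) u :=
    eventually_all.2 fun u => qv A E C hC u
  have ev2 : ∀ᶠ ε in 𝓝[>] (0 : ℝ), ∀ q : A × A, q.1 ≠ q.2 → GA.Adj q.1 q.2 →
      EFun (C.pt ε) (Sum.inl q.1) (Sum.inl q.2) := by
    refine eventually_all.2 fun q => ?_
    by_cases h : q.1 ≠ q.2 ∧ GA.Adj q.1 q.2
    · filter_upwards [qvv A E C hC q.1 q.2 h.1 (hno _ _ h.2)] with ε hε _ _ using hε
    · exact Eventually.of_forall fun ε h1 h2 => absurd ⟨h1, h2⟩ h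
  have ev3 : ∀ᶠ ε in 𝓝[>] (0 : ℝ), ∀ q : A × (E × Bool),
      EFun (C.pt ε) (Sum.inl q.1) (Sum.inr q.2) := by
    refine eventually_all.2 fun q => ?_
    by_cases h : q.1 = C.i q.2.1 ∨ q.1 = C.j q.2.1
    · exact qvw1 A E C hC q.1 q.2 h
    · exact qvw0 A E C hC q.1 q.2 (fun h' => h (Or.inl h')) (fun h' => h (Or.inr h'))
  have ev4 : ∀ᶠ ε in 𝓝[>] (0 : ℝ), ∀ q : (E × Bool) × (E × Bool), q.1 ≠ q.2 →
      EFun (C.pt ε) (Sum.inr q.1) (Sum.inr q.2) := by
    refine eventually_all.2 fun q => ?_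
    by_cases h : q.1 = q.2
    · exact Eventually.of_forall fun ε h1 => absurd h h1
    · filter_upwards [qww A E C hC q.1 q.2 h] with ε hε _ using hε
  have ev5 : ∀ᶠ ε in 𝓝[>] (0 : ℝ), ∀ e : E,
      ¬ EFun (C.pt ε) (Sum.inl (C.i e)) (Sum.inl (C.j e)) :=
    eventually_all.2 fun e => qn A E C hC e
  obtain ⟨ε, h1, h2, h3, h4, h5⟩ := (ev1.and (ev2.and (ev3.and (ev4.and ev5)))).exists
  have hpoly : IsPolytopal 5 (joinW GA (E × Bool)) := by
    have : Nonempty (A ⊕ (E × Bool)) := ⟨Sum.inl (Sum.inr 0)⟩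
    refine hA 5 _ _ (C.pt ε) (fun l b h => hspan l b fun x => h (Sum.inl x)) h1 ?_
    rintro (x | w) (y | w') hne
    · have hxy : x ≠ y := fun h => hne (by rw [h])
      constructor
      · rintro ⟨-, h⟩
        exact h2 (x, y) hxy (h x y rfl rfl)
      · intro hE
        refine ⟨hne, fun u v hu hv => ?_⟩
        obtain rfl := Sum.inl_injective hu
        obtain rfl := Sum.inl_injective hv
        by_contra hn
        obtain ⟨e, ⟨he1, he2⟩ | ⟨he1, he2⟩⟩ := hadjE x y hxy hn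
        · exact h5 e (by
            rw [show C.i e = x from he1, show C.j e = y from he2]; exact hE)
        · exact h5 e (by
            rw [show C.i e = y from he1, show C.j e = x from he2]; exact efun_symm hE)
    · exact ⟨fun _ => h3 (x, w'), fun _ => ⟨hne, fun u v _ hv => by cases hv⟩⟩
    · exact ⟨fun _ => efun_symm (h3 (y, w)), fun _ => ⟨hne, fun u v hu _ => by cases hu⟩⟩
    · exact ⟨fun _ => h4 (w, w') (fun h => hne (by
        rw [show w = w' from h])), fun _ => ⟨hne, fun u v hu _ => by cases hu⟩⟩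
  have hpoly2 : IsPolytopal 5 (joinW G (Fin 6 ⊕ (E × Bool))) :=
    hiso 5 _ _ _ _ (has.2 V (Fin 6) (E × Bool) G) hpoly
  refine ⟨Fintype.card (Fin 6 ⊕ (E × Bool)), ?_, ?_⟩
  · rw [Fintype.card_sum, Fintype.card_fin]; omega
  · exact hiso 5 _ _ _ _ (has.1 V _ _ G ⟨Fintype.equivFin _⟩) hpoly2

theorem up4 (hA : S_CHARA) (hiso : S_ISO) (has : S_ASSOC) (fv : S_FV) (fvv : S_FVV)
    (fvw : S_FVW) (fww : S_FWW) (fn : S_FN) (fs : S_FS)
    (V : Type) [Fintype V] (G : SimpleGraph V) (hcard : 2 ≤ Fintype.card V) (hG : CoPseudo G) :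
    ∃ n ≥ 1, IsPolytopal 4 (joinComplete G n) := by
  classical
  obtain ⟨σ, hσ, hadj⟩ := hG
  let r : Option V ≃ Fin (Fintype.card (Option V)) := Fintype.equivFin _
  let t : Option V → ℝ := fun g => ((r g).val : ℝ)
  have ht : ∀ g h, g ≠ h → 1 ≤ |t g - t h| := by
    intro g h hgh
    have h1 : (r g).val ≠ (r h).val := fun h' => hgh (r.injective (Fin.ext h'))
    have h2 : ((r g).val : ℤ) - ((r h).val : ℤ) ≠ 0 := by omega
    have h3 : (1 : ℤ) ≤ |((r g).val : ℤ) - ((r h).val : ℤ)| := Int.one_le_abs h2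
    have h4 : (1 : ℝ) ≤ ((|((r g).val : ℤ) - ((r h).val : ℤ)| : ℤ) : ℝ) := by exact_mod_cast h3
    simpa [t] using h4
  have ev1 : ∀ᶠ δ in 𝓝[>] (0 : ℝ), ∀ u, VFun (ptF σ t δ) u :=
    eventually_all.2 fun u => fv V σ t hσ ht u
  have ev2 : ∀ᶠ δ in 𝓝[>] (0 : ℝ), ∀ q : V × V, q.1 ≠ q.2 → G.Adj q.1 q.2 →
      EFun (ptF σ t δ) (Sum.inl q.1) (Sum.inl q.2) := by
    refine eventually_all.2 fun q => ?_
    by_cases h : q.1 ≠ q.2 ∧ G.Adj q.1 q.2
    · have h' : ¬ (σ q.1 = some q.2 ∨ σ q.2 = some q.1) := fun h' => (hadj q.1 q.2 h.1).2 h' h.2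
      filter_upwards [fvv V σ t hσ ht q.1 q.2 h.1 (fun h2 => h' (Or.inl h2))
        (fun h2 => h' (Or.inr h2))] with δ hδ _ _ using hδ
    · exact Eventually.of_forall fun δ h1 h2 => absurd ⟨h1, h2⟩ h
  have ev3 : ∀ᶠ δ in 𝓝[>] (0 : ℝ), ∀ q : V × (Option V × Bool),
      EFun (ptF σ t δ) (Sum.inl q.1) (Sum.inr q.2) :=
    eventually_all.2 fun q => fvw V σ t hσ ht q.1 q.2
  have ev4 : ∀ᶠ δ in 𝓝[>] (0 : ℝ), ∀ q : (Option V × Bool) × (Option V × Bool), q.1 ≠ q.2 →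
      EFun (ptF σ t δ) (Sum.inr q.1) (Sum.inr q.2) := by
    refine eventually_all.2 fun q => ?_
    by_cases h : q.1 = q.2
    · exact Eventually.of_forall fun δ h1 => absurd h h1
    · filter_upwards [fww V σ t hσ ht q.1 q.2 h] with δ hδ _ using hδ
  have ev5 : ∀ᶠ δ in 𝓝[>] (0 : ℝ), ∀ q : V × V, q.1 ≠ q.2 → σ q.1 = some q.2 →
      ¬ EFun (ptF σ t δ) (Sum.inl q.1) (Sum.inl q.2) := by
    refine eventually_all.2 fun q => ?_
    by_cases h : q.1 ≠ q.2 ∧ σ q.1 = some q.2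
    · filter_upwards [fn V σ t hσ ht q.1 q.2 h.1 h.2] with δ hδ _ _ using hδ
    · exact Eventually.of_forall fun δ h1 h2 => absurd ⟨h1, h2⟩ h
  obtain ⟨δ, h1, h2, h3, h4, h5⟩ := (ev1.and (ev2.and (ev3.and (ev4.and ev5)))).exists
  have hpoly : IsPolytopal 4 (joinW G (Option V × Bool)) := by
    have : Nonempty (V ⊕ (Option V × Bool)) := ⟨Sum.inr (none, true)⟩
    refine hA 4 _ _ (ptF σ t δ) (fs V σ t hcard ht δ) h1 ?_
    rintro (x | w) (y | w') hne
    · have hxy : x ≠ y := fun h => hne (by rw [h])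
      constructor
      · rintro ⟨-, h⟩
        exact h2 (x, y) hxy (h x y rfl rfl)
      · intro hE
        refine ⟨hne, fun u v hu hv => ?_⟩
        obtain rfl := Sum.inl_injective hu
        obtain rfl := Sum.inl_injective hv
        by_contra hn
        rcases (hadj x y hxy).1 hn with h | h
        · exact h5 (x, y) hxy h hE
        · exact h5 (y, x) (Ne.symm hxy) h (efun_symm hE)
    · exact ⟨fun _ => h3 (x, w'), fun _ => ⟨hne, fun u v _ hv => by cases hv⟩⟩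
    · exact ⟨fun _ => efun_symm (h3 (y, w)), fun _ => ⟨hne, fun u v hu _ => by cases hu⟩⟩
    · exact ⟨fun _ => h4 (w, w') (fun h => hne (by
        rw [show w = w' from h])), fun _ => ⟨hne, fun u v hu _ => by cases hu⟩⟩
  refine ⟨Fintype.card (Option V × Bool), ?_, ?_⟩
  · exact Fintype.card_pos_iff.2 ⟨(none, true)⟩
  · exact hiso 4 _ _ _ _ (has.1 V _ _ G ⟨Fintype.equivFin _⟩) hpoly

/-- `joinComplete G (k+1)` as a join with one more universal vertex. -/
theorem step_iso (has : S_ASSOC) (V : Type) (G : SimpleGraph V) (k : ℕ) :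
    Nonempty (joinW (joinComplete G k) (Fin 1) ≃g joinComplete G (k + 1)) := by
  obtain ⟨f⟩ := has.2 V (Fin k) (Fin 1) G
  obtain ⟨g⟩ := has.1 V (Fin k ⊕ Fin 1) (Fin (k + 1)) G ⟨finSumFinEquiv⟩
  exact ⟨f.trans g⟩

theorem main (hA : S_CHARA) (hB : S_CHARB) (hiso : S_ISO) (has : S_ASSOC)
    (ho : S_ORDER) (hco : S_CONSEC) (hnc : S_NOCROSS)
    (un : S_CHARB → S_ORDER → S_CONSEC → S_NOCROSS → S_UNIV) (lo : S_CHARB → S_LOWD)
    (h1 : S_O1) (h2 : S_O2) (h3 : S_O3) (cm : S_COMB)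
    (qv : S_QV) (qvv : S_QVV) (qvw0 : S_QVW0) (qvw1 : S_QVW1) (qww : S_QWW) (qn : S_QN)
    (pl : S_PLACE) (pa : S_PARA)
    (fv : S_FV) (fvv : S_FVV) (fvw : S_FVW) (fww : S_FWW) (fn : S_FN) (fs : S_FS)
    (V : Type) [Fintype V] (G : SimpleGraph V) :
    (∃ n ≥ 1, IsPolytopal 5 (joinComplete G n)) ∧ dJoin G ≤ 5 ∧
    (CoPseudo G → dJoin G ≤ 4) ∧
    (Fintype.card V ≤ 2 → dJoin G ≤ 3) ∧
    (3 ≤ Fintype.card V → 3 ≤ dJoin G ∧ (dJoin G = 3 ↔ PathLike G ∨ OuterHam G)) := by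
  classical
  have univ := un hB ho hco hnc
  have lowd := lo hB
  obtain ⟨c0, c1, c2, c3, c4⟩ := cm
  have h5 := up5 hA hiso has qv qvv qvw0 qvw1 qww qn pl pa V G
  have hle5 : dJoin G ≤ 5 := Nat.sInf_le h5
  have h3of : ∀ k, OuterHam (joinComplete G k) → dJoin G ≤ 3 := by
    intro k hk
    refine Nat.sInf_le ⟨k + 1, by omega, ?_⟩
    exact hiso 3 _ _ _ _ (step_iso has V G k) (outer hA h1 h2 h3 hiso _ _ hk)
  have hmem : ∃ n ≥ 1, IsPolytopal (dJoin G) (joinComplete G n) :=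
    Nat.sInf_mem (s := {d | ∃ n ≥ 1, IsPolytopal d (joinComplete G n)}) ⟨5, h5⟩
  have hsmall : Fintype.card V ≤ 2 → dJoin G ≤ 3 := by
    intro hc
    obtain ⟨k, hk⟩ := c4 V G hc
    exact h3of k hk
  refine ⟨h5, hle5, ?_, hsmall, ?_⟩
  · intro hG
    by_cases hc : 2 ≤ Fintype.card V
    · exact Nat.sInf_le (up4 hA hiso has fv fvv fvw fww fn fs V G hc hG)
    · exact (hsmall (by omega)).trans (by norm_num)
  · intro hc
    obtain ⟨n, hn, hp⟩ := hmem
    obtain ⟨k, rfl⟩ : ∃ k, n = k + 1 := ⟨n - 1, by omega⟩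
    have hp' : IsPolytopal (dJoin G) (joinW (joinComplete G k) (Fin 1)) := by
      obtain ⟨f⟩ := step_iso has V G k
      exact hiso _ _ _ _ _ ⟨f.symm⟩ hp
    have hge : 3 ≤ dJoin G := by
      by_contra hlt
      have := lowd (dJoin G) _ (joinComplete G k) (by omega) hp'
      rw [Fintype.card_sum] at this
      omega
    refine ⟨hge, ?_, ?_⟩
    · intro heq
      rw [heq] at hp'
      have hO := univ _ (joinComplete G k) (by rw [Fintype.card_sum]; omega) hp'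
      rcases Nat.lt_or_ge k 2 with hk | hk
      · interval_cases k
        · exact Or.inr ((c0 V G).1 hO)
        · exact Or.inl (c1 V G hO)
      · have := c2 V G k hk hO
        omega
    · rintro (h | h)
      · exact le_antisymm (h3of 1 (c3 V G (by omega) h)) hge
      · exact le_antisymm (h3of 0 ((c0 V G).2 h)) hge

end Pool.Agent.H126.DJ
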