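import Pool.Agent.H126.DJ.St

/-!
# Project DJ: from separating functionals to the graph of a polytope (CHARA), helper161

After `Pool/Graph/R_seed8/Results/MP_2da123_co/DimSix.lean`.
-/

set_option autoImplicit false

namespace Pool.Agent.H126.DJ

open Set Filter Topology

namespace CHA

variable {d : ℕ} {U : Type} {E : Type} [NormedAddCommGroup E] [InnerProductSpace ℝ E]

theorem exposed_segment (p : U → E) (u v : U) (l : E →L[ℝ] ℝ) (b : ℝ)
    (hu : l (p u) + b = 0) (hv : l (p v) + b = 0)
    (hw : ∀ w, w ≠ u → w ≠ v → 0 < l (p w) + b) :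
    IsExposed ℝ (convexHull ℝ (range p)) (segment ℝ (p u) (p v)) := by
  have hseg : ∀ x ∈ segment ℝ (p u) (p v), l x + b = 0 := by
    rintro x ⟨s, t, hs, ht, hst, rfl⟩
    have h1 : l (p u) = -b := by linarith
    have h2 : l (p v) = -b := by linarith
    simp only [map_add, map_smul, smul_eq_mul, h1, h2]
    have : s = 1 - t := by linarith
    rw [this]; ring
  have hC : Convex ℝ {x : E | 0 ≤ l x + b ∧ (l x + b = 0 → x ∈ segment ℝ (p u) (p v))} := by
    intro x hx y hy s t hs ht hst
    have hval : l (s • x + t • y) + b = s * (l x + b) + t * (l y + b) := by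
      simp only [map_add, map_smul, smul_eq_mul]
      have : b = (s + t) * b := by rw [hst, one_mul]
      linear_combination this
    have hx0 := hx.1
    have hy0 := hy.1
    refine ⟨?_, ?_⟩
    · rw [hval]
      positivity
    · intro h0
      rw [hval] at h0
      have h1 : s * (l x + b) = 0 := by nlinarith [mul_nonneg hs hx0, mul_nonneg ht hy0]
      have h2 : t * (l y + b) = 0 := by nlinarith [mul_nonneg hs hx0, mul_nonneg ht hy0]
      rcases eq_or_lt_of_le hs with hs0 | hs0
      · have : t = 1 := by linarith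
        subst this
        rw [← hs0]
        simp only [zero_smul, one_smul, zero_add]
        exact hy.2 (by simpa using h2)
      · rcases eq_or_lt_of_le ht with ht0 | ht0
        · have : s = 1 := by linarith
          subst this
          rw [← ht0]
          simp only [zero_smul, one_smul, add_zero]
          exact hx.2 (by simpa using h1)
        · have hx' := hx.2 ((mul_eq_zero.1 h1).resolve_left hs0.ne')
          have hy' := hy.2 ((mul_eq_zero.1 h2).resolve_left ht0.ne')
          exact (convex_segment _ _) hx' hy' hs ht hst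
  have hsub : convexHull ℝ (range p) ⊆
      {x : E | 0 ≤ l x + b ∧ (l x + b = 0 → x ∈ segment ℝ (p u) (p v))} := by
    apply convexHull_min _ hC
    rintro _ ⟨w, rfl⟩
    by_cases hwu : w = u
    · subst hwu
      exact ⟨hu.ge, fun _ => left_mem_segment ℝ _ _⟩
    by_cases hwv : w = v
    · subst hwv
      exact ⟨hv.ge, fun _ => right_mem_segment ℝ _ _⟩
    · exact ⟨(hw w hwu hwv).le, fun h => absurd h (hw w hwu hwv).ne'⟩
  have hsegsub : segment ℝ (p u) (p v) ⊆ convexHull ℝ (range p) :=
    segment_subset_convexHull (mem_range_self u) (mem_range_self v)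
  intro _
  refine ⟨-l, ?_⟩
  ext x
  constructor
  · intro hx
    refine ⟨hsegsub hx, fun y hy => ?_⟩
    have h1 := hseg x hx
    have h2 := (hsub hy).1
    simp only [_root_.neg_apply]
    linarith
  · rintro ⟨hx, hmax⟩
    apply (hsub hx).2
    have h1 := hmax (p u) (subset_convexHull ℝ _ (mem_range_self u))
    simp only [_root_.neg_apply] at h1
    have h2 := (hsub hx).1
    linarith

theorem extremePoints_eq (p : U → E)
    (h : ∀ u, ∃ (l : E →L[ℝ] ℝ) (b : ℝ), l (p u) + b = 0 ∧ ∀ w, w ≠ u → 0 < l (p w) + b) :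
    range p = (convexHull ℝ (range p)).extremePoints ℝ := by
  apply Subset.antisymm _ extremePoints_convexHull_subset
  rintro _ ⟨u, rfl⟩
  obtain ⟨l, b, hu, hw⟩ := h u
  have := exposed_segment p u u l b hu hu (fun w hw1 _ => hw w hw1)
  rw [segment_same] at this
  exact isExtreme_singleton.1 this.isExtreme

/-- exact zeros -/
theorem vfun_exact {p : U → EuclideanSpace ℝ (Fin d)} {x : U} (h : VFun p x) :
    ∃ (l : EuclideanSpace ℝ (Fin d) →L[ℝ] ℝ) (b : ℝ), l (p x) + b = 0 ∧
      ∀ z, z ≠ x → 0 < l (p z) + b := by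
  obtain ⟨l, b, h1, h2⟩ := h
  refine ⟨l, -(l (p x)), by ring, fun z hz => ?_⟩
  have := h2 z hz
  linarith

theorem injective {p : U → EuclideanSpace ℝ (Fin d)} (h : ∀ x, VFun p x) :
    Function.Injective p := by
  intro u w huw
  by_contra hne
  obtain ⟨l, b, h0, hpos⟩ := h u
  have h2 := hpos w (Ne.symm hne)
  rw [← huw] at h2
  linarith

theorem interior_ne [Finite U] [Nonempty U] {p : U → EuclideanSpace ℝ (Fin d)} (h : Spans p) :
    (interior (convexHull ℝ (range p))).Nonempty := by
  rw [interior_convexHull_nonempty_iff_affineSpan_eq_top]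
  obtain ⟨u0⟩ := (inferInstance : Nonempty U)
  have hnonempty : (affineSpan ℝ (range p) : Set _).Nonempty :=
    ⟨p u0, subset_affineSpan ℝ _ (mem_range_self u0)⟩
  by_contra hcon
  have hdir : (affineSpan ℝ (range p)).direction < ⊤ := by
    rw [lt_top_iff_ne_top]
    intro hd
    exact hcon ((AffineSubspace.direction_eq_top_iff_of_nonempty hnonempty).1 hd)
  obtain ⟨g, hg0, hg⟩ := Submodule.exists_le_ker_of_lt_top _ hdir
  have hconst : ∀ u, g (p u) = g (p u0) := by
    intro u
    have : p u -ᵥ p u0 ∈ (affineSpan ℝ (range p)).direction :=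
      AffineSubspace.vsub_mem_direction (subset_affineSpan ℝ _ (mem_range_self u))
        (subset_affineSpan ℝ _ (mem_range_self u0))
    have h2 := hg this
    rw [LinearMap.mem_ker, vsub_eq_sub, map_sub] at h2
    linarith
  have h1 := h (LinearMap.toContinuousLinearMap g) (-(g (p u0))) (by
    intro x
    rw [LinearMap.coe_toContinuousLinearMap', hconst x]
    ring)
  apply hg0
  apply LinearMap.ext
  intro x
  have h2 := DFunLike.congr_fun h1 x
  rw [LinearMap.coe_toContinuousLinearMap'] at h2
  exact h2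

/-- separated pairs are edges -/
theorem exposed_of_efun {p : U → EuclideanSpace ℝ (Fin d)} (h : ∀ x, VFun p x) {u v : U}
    (huv : u ≠ v) (he : EFun p u v) :
    IsExposed ℝ (convexHull ℝ (range p)) (segment ℝ (p u) (p v)) := by
  obtain ⟨l0, b0, hu0, hv0, hw0⟩ := he
  obtain ⟨lu, bu, hlu, hluw⟩ := vfun_exact (h u)
  obtain ⟨lv, bv, hlv, hlvw⟩ := vfun_exact (h v)
  have hFuv := hluw v huv.symm
  have hFvu := hlvw u huv
  set α : ℝ := -(l0 (p u) + b0) / (lv (p u) + bv) with hα'
  set β : ℝ := -(l0 (p v) + b0) / (lu (p v) + bu) with hβ'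
  have hα : 0 ≤ α := div_nonneg (by linarith) hFvu.le
  have hβ : 0 ≤ β := div_nonneg (by linarith) hFuv.le
  have hα1 : α * (lv (p u) + bv) = -(l0 (p u) + b0) := div_mul_cancel₀ _ hFvu.ne'
  have hβ1 : β * (lu (p v) + bu) = -(l0 (p v) + b0) := div_mul_cancel₀ _ hFuv.ne'
  have hval : ∀ x, (l0 + α • lv + β • lu) (p x) + (b0 + α * bv + β * bu) =
      (l0 (p x) + b0) + α * (lv (p x) + bv) + β * (lu (p x) + bu) := by
    intro x
    simp only [_root_.add_apply, _root_.smul_apply, smul_eq_mul]
    ring
  refine exposed_segment p u v (l0 + α • lv + β • lu) (b0 + α * bv + β * bu) ?_ ?_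
    fun w hwu hwv => ?_
  · rw [hval, hlu, hα1]; ring
  · rw [hval, hlv, hβ1]; ring
  · rw [hval]
    have h1 := hw0 w hwu hwv
    have h2 := hluw w hwu
    have h3 := hlvw w hwv
    positivity

/-- edges are separated -/
theorem efun_of_exposed {p : U → EuclideanSpace ℝ (Fin d)} (hp : Function.Injective p)
    (hext : range p = (convexHull ℝ (range p)).extremePoints ℝ) {u v : U}
    (hexp : IsExposed ℝ (convexHull ℝ (range p)) (segment ℝ (p u) (p v))) : EFun p u v := by
  have hext2 : ∀ x, p x ∈ segment ℝ (p u) (p v) → x = u ∨ x = v := by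
    intro x hx
    have h1 : p x ∈ (convexHull ℝ (range p)).extremePoints ℝ := by
      rw [← hext]; exact mem_range_self x
    have hu : p u ∈ convexHull ℝ (range p) := subset_convexHull ℝ _ (mem_range_self u)
    have hv : p v ∈ convexHull ℝ (range p) := subset_convexHull ℝ _ (mem_range_self v)
    rcases (mem_extremePoints_iff_forall_segment.1 h1).2 _ hu _ hv hx with h | h
    · exact Or.inl (hp h.symm)
    · exact Or.inr (hp h.symm)
  obtain ⟨l, hl⟩ := hexp ⟨p u, left_mem_segment ℝ _ _⟩
  have hu := left_mem_segment ℝ (p u) (p v)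
  have hv := right_mem_segment ℝ (p u) (p v)
  rw [hl] at hu hv
  have huv : l (p u) = l (p v) := le_antisymm (hv.2 _ hu.1) (hu.2 _ hv.1)
  have hle : ∀ x, l (p x) ≤ l (p u) := fun x =>
    hu.2 _ (subset_convexHull ℝ _ (mem_range_self x))
  refine ⟨-l, l (p u), ?_, ?_, fun z hzu hzv => ?_⟩
  · simp
  · simp [huv]
  · have h1 : l (p z) ≠ l (p u) := by
      intro hz
      have hmem : p z ∈ segment ℝ (p u) (p v) := by
        rw [hl]
        refine ⟨subset_convexHull ℝ _ (mem_range_self z), fun y hy => ?_⟩
        rw [hz]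
        exact hu.2 y hy
      rcases hext2 z hmem with h | h
      · exact hzu h
      · exact hzv h
    have h2 := lt_of_le_of_ne (hle z) h1
    simp only [_root_.neg_apply]
    linarith

end CHA

theorem chara : S_CHARA := by
  intro d U _ _ H p hS hV hE
  have hinj := CHA.injective hV
  have hext := CHA.extremePoints_eq p fun u => CHA.vfun_exact (hV u)
  refine ⟨convexHull ℝ (range p), p, ⟨(finite_range p).toFinset, by simp⟩, CHA.interior_ne hS,
    hinj, hext, fun u v => ?_⟩
  constructor
  · intro huv
    exact ⟨huv.ne, CHA.exposed_of_efun hV huv.ne ((hE u v huv.ne).1 huv)⟩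
  · rintro ⟨hne, hexp⟩
    exact (hE u v hne).2 (CHA.efun_of_exposed hinj hext hexp)

end Pool.Agent.H126.DJ
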