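import Pool.Agent.H126.DJ.St

/-!
# Project DJ: from the graph of a polytope to separating functionals (CHARB), helper161
-/

set_option autoImplicit false

namespace Pool.Agent.H126.DJ

open Set Filter Topology

namespace CHB

variable {d : ℕ} {U : Type} {E : Type} [NormedAddCommGroup E] [InnerProductSpace ℝ E]

theorem exposed_segment (p : U → E) (u v : U) (l : E →L[ℝ] ℝ) (b : ℝ)
    (hu : l (p u) + b = 0) (hv : l (p v) + b = 0)
    (hw : ∀ w, w ≠ u → w ≠ v → 0 < l (p w) + b) :
    IsExposed ℝ (convexHull ℝ (range p)) (segment ℝ (p u) (p v)) := by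
  have hseg : ∀ x ∈ segment ℝ (p u) (p v), l x + b = 0 := by
    rintro x ⟨s, t, hs, ht, hst, rfl⟩
    have h1 : l (p u) = -b := by linarith
    have h2 : l (p v) = -b := by linarith
    simp only [map_add, map_smul, smul_eq_mul, h1, h2]
    have : s = 1 - t := by linarith
    rw [this]; ring
  have hC : Convex ℝ {x : E | 0 ≤ l x + b ∧ (l x + b = 0 → x ∈ segment ℝ (p u) (p v))} := by
    intro x hx y hy s t hs ht hst
    have hval : l (s • x + t • y) + b = s * (l x + b) + t * (l y + b) := by
      simp only [map_add, map_smul, smul_eq_mul]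
      have : b = (s + t) * b := by rw [hst, one_mul]
      linear_combination this
    have hx0 := hx.1
    have hy0 := hy.1
    refine ⟨?_, ?_⟩
    · rw [hval]
      positivity
    · intro h0
      rw [hval] at h0
      have h1 : s * (l x + b) = 0 := by nlinarith [mul_nonneg hs hx0, mul_nonneg ht hy0]
      have h2 : t * (l y + b) = 0 := by nlinarith [mul_nonneg hs hx0, mul_nonneg ht hy0]
      rcases eq_or_lt_of_le hs with hs0 | hs0
      · have : t = 1 := by linarith
        subst this
        rw [← hs0]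
        simp only [zero_smul, one_smul, zero_add]
        exact hy.2 (by simpa using h2)
      · rcases eq_or_lt_of_le ht with ht0 | ht0
        · have : s = 1 := by linarith
          subst this
          rw [← ht0]
          simp only [zero_smul, one_smul, add_zero]
          exact hx.2 (by simpa using h1)
        · have hx' := hx.2 ((mul_eq_zero.1 h1).resolve_left hs0.ne')
          have hy' := hy.2 ((mul_eq_zero.1 h2).resolve_left ht0.ne')
          exact (convex_segment _ _) hx' hy' hs ht hst
  have hsub : convexHull ℝ (range p) ⊆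
      {x : E | 0 ≤ l x + b ∧ (l x + b = 0 → x ∈ segment ℝ (p u) (p v))} := by
    apply convexHull_min _ hC
    rintro _ ⟨w, rfl⟩
    by_cases hwu : w = u
    · subst hwu
      exact ⟨hu.ge, fun _ => left_mem_segment ℝ _ _⟩
    by_cases hwv : w = v
    · subst hwv
      exact ⟨hv.ge, fun _ => right_mem_segment ℝ _ _⟩
    · exact ⟨(hw w hwu hwv).le, fun h => absurd h (hw w hwu hwv).ne'⟩
  have hsegsub : segment ℝ (p u) (p v) ⊆ convexHull ℝ (range p) :=
    segment_subset_convexHull (mem_range_self u) (mem_range_self v)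
  intro _
  refine ⟨-l, ?_⟩
  ext x
  constructor
  · intro hx
    refine ⟨hsegsub hx, fun y hy => ?_⟩
    have h1 := hseg x hx
    have h2 := (hsub hy).1
    simp only [_root_.neg_apply]
    linarith
  · rintro ⟨hx, hmax⟩
    apply (hsub hx).2
    have h1 := hmax (p u) (subset_convexHull ℝ _ (mem_range_self u))
    simp only [_root_.neg_apply] at h1
    have h2 := (hsub hx).1
    linarith

/-- exact zeros -/
theorem vfun_exact {p : U → EuclideanSpace ℝ (Fin d)} {x : U} (h : VFun p x) :
    ∃ (l : EuclideanSpace ℝ (Fin d) →L[ℝ] ℝ) (b : ℝ), l (p x) + b = 0 ∧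
      ∀ z, z ≠ x → 0 < l (p z) + b := by
  obtain ⟨l, b, h1, h2⟩ := h
  refine ⟨l, -(l (p x)), by ring, fun z hz => ?_⟩
  have := h2 z hz
  linarith

/-- separated pairs are edges -/
theorem exposed_of_efun {p : U → EuclideanSpace ℝ (Fin d)} (h : ∀ x, VFun p x) {u v : U}
    (huv : u ≠ v) (he : EFun p u v) :
    IsExposed ℝ (convexHull ℝ (range p)) (segment ℝ (p u) (p v)) := by
  obtain ⟨l0, b0, hu0, hv0, hw0⟩ := he
  obtain ⟨lu, bu, hlu, hluw⟩ := vfun_exact (h u)
  obtain ⟨lv, bv, hlv, hlvw⟩ := vfun_exact (h v)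
  have hFuv := hluw v huv.symm
  have hFvu := hlvw u huv
  set α : ℝ := -(l0 (p u) + b0) / (lv (p u) + bv) with hα'
  set β : ℝ := -(l0 (p v) + b0) / (lu (p v) + bu) with hβ'
  have hα : 0 ≤ α := div_nonneg (by linarith) hFvu.le
  have hβ : 0 ≤ β := div_nonneg (by linarith) hFuv.le
  have hα1 : α * (lv (p u) + bv) = -(l0 (p u) + b0) := div_mul_cancel₀ _ hFvu.ne'
  have hβ1 : β * (lu (p v) + bu) = -(l0 (p v) + b0) := div_mul_cancel₀ _ hFuv.ne'
  have hval : ∀ x, (l0 + α • lv + β • lu) (p x) + (b0 + α * bv + β * bu) =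
      (l0 (p x) + b0) + α * (lv (p x) + bv) + β * (lu (p x) + bu) := by
    intro x
    simp only [_root_.add_apply, _root_.smul_apply, smul_eq_mul]
    ring
  refine exposed_segment p u v (l0 + α • lv + β • lu) (b0 + α * bv + β * bu) ?_ ?_
    fun w hwu hwv => ?_
  · rw [hval, hlu, hα1]; ring
  · rw [hval, hlv, hβ1]; ring
  · rw [hval]
    have h1 := hw0 w hwu hwv
    have h2 := hluw w hwu
    have h3 := hlvw w hwv
    positivity

/-- edges are separated -/
theorem efun_of_exposed {p : U → EuclideanSpace ℝ (Fin d)} (hp : Function.Injective p)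
    (hext : range p = (convexHull ℝ (range p)).extremePoints ℝ) {u v : U}
    (hexp : IsExposed ℝ (convexHull ℝ (range p)) (segment ℝ (p u) (p v))) : EFun p u v := by
  have hext2 : ∀ x, p x ∈ segment ℝ (p u) (p v) → x = u ∨ x = v := by
    intro x hx
    have h1 : p x ∈ (convexHull ℝ (range p)).extremePoints ℝ := by
      rw [← hext]; exact mem_range_self x
    have hu : p u ∈ convexHull ℝ (range p) := subset_convexHull ℝ _ (mem_range_self u)
    have hv : p v ∈ convexHull ℝ (range p) := subset_convexHull ℝ _ (mem_range_self v)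
    rcases (mem_extremePoints_iff_forall_segment.1 h1).2 _ hu _ hv hx with h | h
    · exact Or.inl (hp h.symm)
    · exact Or.inr (hp h.symm)
  obtain ⟨l, hl⟩ := hexp ⟨p u, left_mem_segment ℝ _ _⟩
  have hu := left_mem_segment ℝ (p u) (p v)
  have hv := right_mem_segment ℝ (p u) (p v)
  rw [hl] at hu hv
  have huv : l (p u) = l (p v) := le_antisymm (hv.2 _ hu.1) (hu.2 _ hv.1)
  have hle : ∀ x, l (p x) ≤ l (p u) := fun x =>
    hu.2 _ (subset_convexHull ℝ _ (mem_range_self x))
  refine ⟨-l, l (p u), ?_, ?_, fun z hzu hzv => ?_⟩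
  · simp
  · simp [huv]
  · have h1 : l (p z) ≠ l (p u) := by
      intro hz
      have hmem : p z ∈ segment ℝ (p u) (p v) := by
        rw [hl]
        refine ⟨subset_convexHull ℝ _ (mem_range_self z), fun y hy => ?_⟩
        rw [hz]
        exact hu.2 y hy
      rcases hext2 z hmem with h | h
      · exact hzu h
      · exact hzv h
    have h2 := lt_of_le_of_ne (hle z) h1
    simp only [_root_.neg_apply]
    linarith

/-- a polytope is the convex hull of its vertices -/
theorem hull_eq [Finite U] (S : Finset (EuclideanSpace ℝ (Fin d))) (p : U → EuclideanSpace ℝ (Fin d))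
    (h : range p = (convexHull ℝ (S : Set (EuclideanSpace ℝ (Fin d)))).extremePoints ℝ) :
    convexHull ℝ (S : Set (EuclideanSpace ℝ (Fin d))) = convexHull ℝ (range p) := by
  have h1 := closure_convexHull_extremePoints (S.finite_toSet.isCompact_convexHull (𝕜 := ℝ))
    (convex_convexHull ℝ (S : Set (EuclideanSpace ℝ (Fin d))))
  rw [← h] at h1
  rw [← h1]
  exact ((finite_range p).isCompact_convexHull (𝕜 := ℝ)).isClosed.closure_eq

theorem spans {p : U → EuclideanSpace ℝ (Fin d)}
    (h : (interior (convexHull ℝ (range p))).Nonempty) : Spans p := by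
  intro l b hl
  obtain ⟨x0, hx0⟩ := h
  have hall : ∀ x ∈ convexHull ℝ (range p), l x + b = 0 := by
    have hC : Convex ℝ {x : EuclideanSpace ℝ (Fin d) | l x + b = 0} := by
      intro x hx y hy s t hs ht hst
      have hval : l (s • x + t • y) + b = s * (l x + b) + t * (l y + b) := by
        simp only [map_add, map_smul, smul_eq_mul]
        have : b = (s + t) * b := by rw [hst, one_mul]
        linear_combination this
      show l (s • x + t • y) + b = 0
      rw [hval, show l x + b = 0 from hx, show l y + b = 0 from hy]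
      ring
    have hsub : convexHull ℝ (range p) ⊆ {x : EuclideanSpace ℝ (Fin d) | l x + b = 0} := by
      apply convexHull_min _ hC
      rintro _ ⟨x, rfl⟩
      exact hl x
    exact hsub
  rw [mem_interior_iff_mem_nhds] at hx0
  ext v
  have hc : Tendsto (fun t : ℝ => x0 + t • v) (𝓝 0) (𝓝 x0) := by
    have : Continuous (fun t : ℝ => x0 + t • v) := by fun_prop
    have h2 := this.tendsto 0
    simpa using h2
  have h3 : ∀ᶠ t : ℝ in 𝓝[≠] 0, x0 + t • v ∈ convexHull ℝ (range p) :=
    (hc.eventually hx0).filter_mono nhdsWithin_le_nhds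
  obtain ⟨t, ht, ht0⟩ := (h3.and eventually_mem_nhdsWithin).exists
  have h4 := hall _ ht
  have h5 := hall x0 (mem_of_mem_nhds hx0)
  rw [map_add, map_smul, smul_eq_mul] at h4
  have h6 : t * l v = 0 := by linarith
  rcases mul_eq_zero.1 h6 with h7 | h7
  · exact absurd h7 ht0
  · rw [h7]; rfl

theorem vfun [Finite U] {p : U → EuclideanSpace ℝ (Fin d)} (hp : Function.Injective p)
    (hext : range p = (convexHull ℝ (range p)).extremePoints ℝ) (x : U) : VFun p x := by
  have hQ : p x ∉ convexHull ℝ (p '' {z | z ≠ x}) := by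
    intro hx
    have h1 : p x ∈ (convexHull ℝ (range p)).extremePoints ℝ := by
      rw [← hext]; exact mem_range_self x
    have h2 := inter_extremePoints_subset_extremePoints_of_subset
      (convexHull_mono (image_subset_range p {z | z ≠ x})) ⟨hx, h1⟩
    obtain ⟨z, hz, hzx⟩ := extremePoints_convexHull_subset h2
    exact hz (hp hzx)
  obtain ⟨f, u, hfx, hfb⟩ := geometric_hahn_banach_point_closed
    (convex_convexHull ℝ (p '' {z | z ≠ x}))
    (((toFinite (p '' {z | z ≠ x})).isCompact_convexHull (𝕜 := ℝ)).isClosed) hQ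
  refine ⟨f, -u, by linarith, fun z hz => ?_⟩
  have := hfb (p z) (subset_convexHull ℝ _ ⟨z, hz, rfl⟩)
  linarith

end CHB

theorem charb : S_CHARB := by
  rintro d U _ _ H ⟨P, p, ⟨S, rfl⟩, hint, hinj, hext, hadj⟩
  have hP := CHB.hull_eq S p hext
  rw [hP] at hint hext hadj
  have hV := CHB.vfun hinj hext
  refine ⟨p, CHB.spans hint, hV, fun x y hxy => ?_⟩
  rw [hadj]
  constructor
  · rintro ⟨_, hexp⟩
    exact CHB.efun_of_exposed hinj hext hexp
  · intro he
    exact ⟨hxy, CHB.exposed_of_efun hV hxy he⟩

end Pool.Agent.H126.DJ
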