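import Pool.Agent.H126.DJ.St

set_option autoImplicit false

namespace Pool.Agent.H126.DJ

namespace CMA

/-- rotation of the positions by `r` -/
def rot (m r : ℕ) (hr : r < m) : Fin m ≃ Fin m where
  toFun a := if h : a.val + r < m then ⟨a.val + r, h⟩ else ⟨a.val + r - m, by omega⟩
  invFun a := if h : r ≤ a.val then ⟨a.val - r, by omega⟩ else ⟨a.val + m - r, by omega⟩
  left_inv a := by
    have := a.2
    by_cases h : a.val + r < m
    · have h1 : r ≤ a.val + r := by omega
      simp only [h, dite_true, h1]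
      ext
      simp
    · have h1 : ¬ r ≤ a.val + r - m := by omega
      simp only [h, dite_false, h1]
      ext
      simp only
      omega
  right_inv a := by
    have := a.2
    by_cases h : r ≤ a.val
    · have h1 : a.val - r + r < m := by omega
      simp only [h, dite_true, h1]
      ext
      simp only
      omega
    · have h1 : ¬ a.val + m - r + r < m := by omega
      simp only [h, dite_false, h1]
      ext
      simp only
      omega

lemma rot_val (m r : ℕ) (hr : r < m) (a : Fin m) :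
    (a.val + r < m ∧ (rot m r hr a).val = a.val + r) ∨ (m ≤ a.val + r ∧ (rot m r hr a).val = a.val + r - m) := by
  by_cases h : a.val + r < m
  · left
    refine ⟨h, ?_⟩
    simp [rot, h]
  · right
    refine ⟨by omega, ?_⟩
    simp [rot, h]

/-- a vertex can be rotated to the first position -/
lemma rotate {V : Type} {G : SimpleGraph V} (hG : OuterHam G) (u : V) :
    ∃ (m : ℕ) (e : Fin m ≃ V), 3 ≤ m ∧ (∀ a b : Fin m, a.val + 1 = b.val → G.Adj (e a) (e b)) ∧
    (∀ a b : Fin m, a.val = 0 → b.val + 1 = m → G.Adj (e a) (e b)) ∧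
    (∀ a b c d : Fin m, a < b → b < c → c < d → ¬ (G.Adj (e a) (e c) ∧ G.Adj (e b) (e d))) ∧
    ∀ a : Fin m, a.val = 0 → e a = u := by
  obtain ⟨m, e, hm, h1, h2, h3⟩ := hG
  obtain ⟨r, hr⟩ : ∃ r : Fin m, r = e.symm u := ⟨_, rfl⟩
  have hru : e r = u := by rw [hr]; exact e.apply_symm_apply u
  have hrm := r.2
  refine ⟨m, (rot m r.val r.2).trans e, hm, ?_, ?_, ?_, ?_⟩
  · intro a b hab
    simp only [Equiv.trans_apply]
    have hb := b.2
    rcases rot_val m r.val r.2 a with ⟨ha1, ha2⟩ | ⟨ha1, ha2⟩ <;>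
      rcases rot_val m r.val r.2 b with ⟨hb1, hb2⟩ | ⟨hb1, hb2⟩
    · exact h1 _ _ (by omega)
    · exact (h2 _ _ (by omega) (by omega)).symm
    · omega
    · exact h1 _ _ (by omega)
  · intro a b ha hb
    simp only [Equiv.trans_apply]
    rcases rot_val m r.val r.2 a with ⟨ha1, ha2⟩ | ⟨ha1, ha2⟩ <;>
      rcases rot_val m r.val r.2 b with ⟨hb1, hb2⟩ | ⟨hb1, hb2⟩
    · exact h2 _ _ (by omega) (by omega)
    · exact (h1 _ _ (by omega)).symm
    · omega
    · omega
  · intro a b c d hab hbc hcd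
    rw [Fin.lt_def] at hab hbc hcd
    simp only [Equiv.trans_apply]
    rintro ⟨hac, hbd⟩
    have hd := d.2
    rcases rot_val m r.val r.2 a with ⟨ha1, ha2⟩ | ⟨ha1, ha2⟩ <;>
      rcases rot_val m r.val r.2 b with ⟨hb1, hb2⟩ | ⟨hb1, hb2⟩ <;>
      rcases rot_val m r.val r.2 c with ⟨hc1, hc2⟩ | ⟨hc1, hc2⟩ <;>
      rcases rot_val m r.val r.2 d with ⟨hd1, hd2⟩ | ⟨hd1, hd2⟩ <;> try omega
    · exact h3 _ _ _ _ (by rw [Fin.lt_def]; omega) (by rw [Fin.lt_def]; omega) (by rw [Fin.lt_def]; omega) ⟨hac, hbd⟩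
    · exact h3 _ _ _ _ (by rw [Fin.lt_def]; omega) (by rw [Fin.lt_def]; omega) (by rw [Fin.lt_def]; omega)
        ⟨hbd.symm, hac⟩
    · exact h3 _ _ _ _ (by rw [Fin.lt_def]; omega) (by rw [Fin.lt_def]; omega) (by rw [Fin.lt_def]; omega)
        ⟨hac.symm, hbd.symm⟩
    · exact h3 _ _ _ _ (by rw [Fin.lt_def]; omega) (by rw [Fin.lt_def]; omega) (by rw [Fin.lt_def]; omega)
        ⟨hbd, hac.symm⟩
    · exact h3 _ _ _ _ (by rw [Fin.lt_def]; omega) (by rw [Fin.lt_def]; omega) (by rw [Fin.lt_def]; omega) ⟨hac, hbd⟩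
  · intro a ha
    simp only [Equiv.trans_apply]
    rcases rot_val m r.val r.2 a with ⟨ha1, ha2⟩ | ⟨ha1, ha2⟩
    · have : rot m r.val r.2 a = r := by
        apply Fin.ext
        omega
      rw [this, hru]
    · omega

/-- if the first vertex is universal then vertices at distance at least two are not adjacent -/
lemma far {V : Type} {G : SimpleGraph V} {m : ℕ} (e : Fin m ≃ V)
    (h3 : ∀ a b c d : Fin m, a < b → b < c → c < d → ¬ (G.Adj (e a) (e c) ∧ G.Adj (e b) (e d)))
    (hu : ∀ a b : Fin m, a.val = 0 → b.val ≠ 0 → G.Adj (e a) (e b)) (a b : Fin m) (ha : 1 ≤ a.val)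
    (hab : a.val + 2 ≤ b.val) : ¬ G.Adj (e a) (e b) := by
  intro h
  have hb := b.2
  exact h3 ⟨0, by omega⟩ a ⟨a.val + 1, by omega⟩ b (by rw [Fin.lt_def]; exact ha)
    (by rw [Fin.lt_def]; exact Nat.lt_succ_self _) (by rw [Fin.lt_def]; exact hab) ⟨hu _ _ rfl (Nat.succ_ne_zero _), h⟩

/-- `OuterHam` is invariant under isomorphism -/
lemma iso {V W : Type} {G : SimpleGraph V} {H : SimpleGraph W} (f : V ≃ W) (hf : ∀ x y, H.Adj (f x) (f y) ↔ G.Adj x y)
    (hG : OuterHam G) : OuterHam H := by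
  obtain ⟨m, e, hm, h1, h2, h3⟩ := hG
  refine ⟨m, e.trans f, hm, fun a b hab => (hf _ _).mpr (h1 a b hab), fun a b ha hb => (hf _ _).mpr (h2 a b ha hb),
    fun a b c d hab hbc hcd h => h3 a b c d hab hbc hcd ⟨(hf _ _).mp h.1, (hf _ _).mp h.2⟩⟩

lemma adj_inl {V W : Type} (G : SimpleGraph V) (u v : V) : (joinW G W).Adj (Sum.inl u) (Sum.inl v) ↔ G.Adj u v := by
  constructor
  · intro h
    exact h.2 u v rfl rfl
  · intro h
    refine ⟨fun h' => h.ne (Sum.inl.inj h'), ?_⟩
    intro u' v' hu hv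
    rw [← Sum.inl.inj hu, ← Sum.inl.inj hv]
    exact h

lemma adj_inr {V W : Type} (G : SimpleGraph V) (w : W) (x : V ⊕ W) (h : Sum.inr w ≠ x) :
    (joinW G W).Adj (Sum.inr w) x :=
  ⟨h, fun _ _ hu _ => absurd hu (by simp)⟩

end CMA

open CMA

theorem comb0 : ∀ (V : Type) (G : SimpleGraph V), OuterHam (joinComplete G 0) ↔ OuterHam G := by
  intro V G
  constructor
  · intro h
    refine iso (Equiv.sumEmpty V (Fin 0)) ?_ h
    intro x y
    rcases x with x | x
    · rcases y with y | y
      · exact (adj_inl (W := Fin 0) G x y).symm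
      · exact y.elim0
    · exact x.elim0
  · intro h
    refine iso (Equiv.sumEmpty V (Fin 0)).symm ?_ h
    intro x y
    exact adj_inl (W := Fin 0) G x y

theorem comb1 : ∀ (V : Type) (G : SimpleGraph V), OuterHam (joinComplete G 1) → PathLike G := by
  intro V G h
  obtain ⟨m, e, hm, h1, h2, h3, h4⟩ := rotate h (Sum.inr 0)
  have hu : ∀ a b : Fin m, a.val = 0 → b.val ≠ 0 → (joinComplete G 1).Adj (e a) (e b) := by
    intro a b ha hb
    have hab : e a ≠ e b := by
      intro h'
      apply hb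
      rw [← e.injective h']
      exact ha
    rw [h4 a ha] at hab ⊢
    exact adj_inr (W := Fin 1) G 0 _ hab
  have hfar := far e h3 hu
  have hf : ∀ k : Fin (m - 1), ∃ v : V, e ⟨k.val + 1, by omega⟩ = Sum.inl v := by
    intro k
    rcases hk : e ⟨k.val + 1, by omega⟩ with v | w
    · exact ⟨v, rfl⟩
    · exfalso
      have hw : w = 0 := Subsingleton.elim _ _
      rw [hw, ← h4 ⟨0, by omega⟩ rfl] at hk
      have := e.injective hk
      rw [Fin.mk.injEq] at this
      omega
  choose f hf using hf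
  have hinj : Function.Injective f := by
    intro a b hab
    have h5 : e ⟨a.val + 1, by omega⟩ = e ⟨b.val + 1, by omega⟩ := by rw [hf, hf, hab]
    have := e.injective h5
    rw [Fin.mk.injEq] at this
    apply Fin.ext
    omega
  have hsurj : Function.Surjective f := by
    intro v
    obtain ⟨a, ha⟩ := e.surjective (Sum.inl v)
    have ha0 : a.val ≠ 0 := by
      intro h0
      rw [h4 a h0] at ha
      exact absurd ha (by simp)
    have ham := a.2
    refine ⟨⟨a.val - 1, by omega⟩, ?_⟩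
    have h5 := hf ⟨a.val - 1, by omega⟩
    have h6 : (⟨a.val - 1 + 1, by omega⟩ : Fin m) = a := by
      apply Fin.ext
      show a.val - 1 + 1 = a.val
      omega
    simp only at h5
    rw [h6, ha] at h5
    exact (Sum.inl.inj h5).symm
  have hadj : ∀ a b : Fin (m - 1), G.Adj (f a) (f b) ↔
      (joinComplete G 1).Adj (e ⟨a.val + 1, by omega⟩) (e ⟨b.val + 1, by omega⟩) := by
    intro a b
    rw [hf, hf]
    exact (adj_inl (W := Fin 1) G _ _).symm
  refine ⟨m - 1, Equiv.ofBijective f ⟨hinj, hsurj⟩, ?_⟩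
  intro a b
  show G.Adj (f a) (f b) ↔ _
  constructor
  · intro h5
    by_contra hcon
    push Not at hcon
    obtain ⟨hc1, hc2⟩ := hcon
    have hne : a.val ≠ b.val := by
      intro h6
      have h7 : a = b := Fin.ext h6
      rw [h7] at h5
      exact h5.ne rfl
    rcases lt_or_gt_of_ne hne with hlt | hlt
    · exact hfar ⟨a.val + 1, by omega⟩ ⟨b.val + 1, by omega⟩ (Nat.succ_pos _) (by simp only; omega) ((hadj a b).mp h5)
    · exact hfar ⟨b.val + 1, by omega⟩ ⟨a.val + 1, by omega⟩ (Nat.succ_pos _) (by simp only; omega)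
        ((hadj b a).mp h5.symm)
  · rintro (h5 | h5)
    · rw [hadj]
      exact h1 _ _ (by simp only; omega)
    · rw [hadj]
      exact (h1 _ _ (by simp only; omega)).symm

theorem comb2 : ∀ (V : Type) [Fintype V] (G : SimpleGraph V) (k : ℕ), 2 ≤ k → OuterHam (joinComplete G k) →
    Fintype.card V ≤ 2 := by
  intro V _ G k hk h
  obtain ⟨m, e, hm, h1, h2, h3, h4⟩ := rotate h (Sum.inr ⟨0, by omega⟩)
  have hu : ∀ a b : Fin m, a.val = 0 → b.val ≠ 0 → (joinComplete G k).Adj (e a) (e b) := by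
    intro a b ha hb
    have hab : e a ≠ e b := by
      intro h'
      apply hb
      rw [← e.injective h']
      exact ha
    rw [h4 a ha] at hab ⊢
    exact adj_inr (W := Fin k) G _ _ hab
  have hfar := far e h3 hu
  have hcard : m = Fintype.card V + k := by
    have h5 := Fintype.card_congr e
    rw [Fintype.card_fin, Fintype.card_sum, Fintype.card_fin] at h5
    exact h5
  obtain ⟨j, hj⟩ := e.surjective (Sum.inr ⟨1, by omega⟩)
  have hj0 : j.val ≠ 0 := by
    intro h0
    rw [h4 j h0] at hj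
    have h5 := Sum.inr.inj hj
    rw [Fin.mk.injEq] at h5
    omega
  have huj : ∀ b : Fin m, b ≠ j → (joinComplete G k).Adj (e j) (e b) := by
    intro b hb
    have hab : e j ≠ e b := fun h' => hb (e.injective h').symm
    rw [hj] at hab ⊢
    exact adj_inr (W := Fin k) G _ _ hab
  have hm4 : m ≤ 4 := by
    by_contra hcon
    rcases Nat.lt_or_ge j.val 3 with h5 | h5
    · exact hfar j ⟨4, by omega⟩ (by omega) (by simp only; omega) (huj _ (by
        intro h6
        rw [← h6] at h5
        simp at h5))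
    · exact hfar ⟨1, by omega⟩ j le_rfl (by simp only; omega) (huj _ (by
        intro h6
        rw [← h6] at h5
        simp at h5)).symm
  omega

end Pool.Agent.H126.DJ
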