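import Pool.Agent.H126.DJ.St

/-!
Combinatorics of joins, the last two parts.
-/

set_option autoImplicit false

namespace Pool.Agent.H126.DJ

namespace CMB

theorem adj_inr_left {V : Type} (G : SimpleGraph V) (k : ℕ) (i : Fin k) {y : V ⊕ Fin k}
    (h : Sum.inr i ≠ y) : (joinComplete G k).Adj (Sum.inr i) y :=
  ⟨h, fun _ _ hx _ => by cases hx⟩

theorem adj_inr_right {V : Type} (G : SimpleGraph V) (k : ℕ) (i : Fin k) {y : V ⊕ Fin k}
    (h : y ≠ Sum.inr i) : (joinComplete G k).Adj y (Sum.inr i) :=
  ⟨h, fun _ _ _ hy => by cases hy⟩

theorem adj_inl {V : Type} (G : SimpleGraph V) (k : ℕ) (u v : V) :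
    (joinComplete G k).Adj (Sum.inl u) (Sum.inl v) ↔ G.Adj u v := by
  constructor
  · rintro ⟨-, h⟩
    exact h u v rfl rfl
  · intro h
    refine ⟨fun h1 => h.ne (Sum.inl_injective h1), fun u' v' hu hv => ?_⟩
    rw [← Sum.inl_injective hu, ← Sum.inl_injective hv]
    exact h

/-- the order: the new vertex first, then the path -/
def ord {V : Type} {m : ℕ} (e : Fin m ≃ V) (i : Fin (m + 1)) : V ⊕ Fin 1 :=
  Fin.cases (motive := fun _ => V ⊕ Fin 1) (Sum.inr 0) (fun j => Sum.inl (e j)) i

theorem ord_zero {V : Type} {m : ℕ} (e : Fin m ≃ V) : ord e 0 = Sum.inr 0 := rfl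

theorem ord_succ {V : Type} {m : ℕ} (e : Fin m ≃ V) (j : Fin m) :
    ord e j.succ = Sum.inl (e j) := rfl

theorem ord_bij {V : Type} {m : ℕ} (e : Fin m ≃ V) : Function.Bijective (ord e) := by
  constructor
  · intro i j hij
    induction i using Fin.cases with
    | zero =>
      induction j using Fin.cases with
      | zero => rfl
      | succ j => rw [ord_zero, ord_succ] at hij; cases hij
    | succ i =>
      induction j using Fin.cases with
      | zero => rw [ord_zero, ord_succ] at hij; cases hij
      | succ j =>
        rw [ord_succ, ord_succ] at hij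
        rw [e.injective (Sum.inl_injective hij)]
  · rintro (v | i)
    · exact ⟨(e.symm v).succ, by rw [ord_succ, e.apply_symm_apply]⟩
    · exact ⟨0, by rw [ord_zero, Subsingleton.elim i 0]⟩

theorem tri {U : Type} [Fintype U] (H : SimpleGraph U) (hc : Fintype.card U = 3)
    (h : ∀ x y, x ≠ y → H.Adj x y) : OuterHam H := by
  have e : Fin 3 ≃ U := (Fintype.equivFinOfCardEq hc).symm
  refine ⟨3, e, le_rfl, fun a b hab => h _ _ ?_, fun a b ha hb => h _ _ ?_, ?_⟩
  · intro h1
    have h2 := e.injective h1
    subst h2
    omega
  · intro h1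
    have h2 := e.injective h1
    subst h2
    omega
  · intro a b c d hab hbc hcd
    have h1 : a.val < b.val := hab
    have h2 : b.val < c.val := hbc
    have h3 : c.val < d.val := hcd
    have h4 := d.isLt
    omega

end CMB

open CMB

theorem comb3 : ∀ (V : Type) [Fintype V] (G : SimpleGraph V), 2 ≤ Fintype.card V → PathLike G →
    OuterHam (joinComplete G 1) := by
  intro V _ G hc ⟨m, e, he⟩
  have hm : Fintype.card V = m := by
    rw [← Fintype.card_congr e, Fintype.card_fin]
  rw [hm] at hc
  have hne : ∀ a b : Fin (m + 1), a ≠ b → ord e a ≠ ord e b := fun a b h h1 =>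
    h ((ord_bij e).1 h1)
  refine ⟨m + 1, Equiv.ofBijective _ (ord_bij e), by omega, ?_, ?_, ?_⟩
  · intro a b hab
    show (joinComplete G 1).Adj (ord e a) (ord e b)
    have hne' : ord e a ≠ ord e b := hne a b (fun h => by subst h; omega)
    induction a using Fin.cases with
    | zero => exact adj_inr_left G 1 0 hne'
    | succ i =>
      induction b using Fin.cases with
      | zero => exact adj_inr_right G 1 0 hne'
      | succ j =>
        rw [ord_succ, ord_succ, adj_inl, he]
        left
        rw [Fin.val_succ, Fin.val_succ] at hab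
        omega
  · intro a b ha hb
    show (joinComplete G 1).Adj (ord e a) (ord e b)
    have h0 : a = 0 := Fin.ext ha
    subst h0
    refine adj_inr_left G 1 0 (hne 0 b fun h => ?_)
    subst h
    simp only [Fin.val_zero] at hb
    omega
  · rintro a b c d hab hbc hcd ⟨-, h⟩
    have h' : (joinComplete G 1).Adj (ord e b) (ord e d) := h
    have h1 : a.val < b.val := hab
    have h2 : b.val < c.val := hbc
    have h3 : c.val < d.val := hcd
    induction b using Fin.cases with
    | zero => simp only [Fin.val_zero] at h1; omega
    | succ i =>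
      induction d using Fin.cases with
      | zero => simp only [Fin.val_zero] at h3; omega
      | succ j =>
        rw [ord_succ, ord_succ, adj_inl, he] at h'
        rw [Fin.val_succ] at h2 h3
        omega

theorem comb4 : ∀ (V : Type) [Fintype V] (G : SimpleGraph V), Fintype.card V ≤ 2 →
    ∃ k, OuterHam (joinComplete G k) := by
  intro V _ G hc
  have hcard : ∀ k, Fintype.card (V ⊕ Fin k) = Fintype.card V + k := fun k => by
    rw [Fintype.card_sum, Fintype.card_fin]
  by_cases hall : ∀ u v : V, u ≠ v → G.Adj u v
  · refine ⟨3 - Fintype.card V, tri _ (by rw [hcard]; omega) ?_⟩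
    rintro (u | i) (v | j) hxy
    · exact (adj_inl G _ u v).2 (hall u v fun h => hxy (by rw [h]))
    · exact adj_inr_right G _ j hxy
    · exact adj_inr_left G _ i hxy
    · exact adj_inr_left G _ i hxy
  · push Not at hall
    obtain ⟨a, b, hab, hG⟩ := hall
    have h2 : Fintype.card V = 2 := by
      have h1 : 1 < Fintype.card V := Fintype.one_lt_card_iff.2 ⟨a, b, hab⟩
      omega
    set f : Fin 4 → V ⊕ Fin 2 := ![Sum.inl a, Sum.inr 0, Sum.inl b, Sum.inr 1] with hf
    have hfi : Function.Injective f := by
      intro i j hij
      fin_cases i <;> fin_cases j <;> simp [hf, hab, hab.symm] at hij ⊢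
    have hfb : Function.Bijective f := by
      rw [Fintype.bijective_iff_injective_and_card]
      refine ⟨hfi, ?_⟩
      rw [hcard, h2, Fintype.card_fin]
    have hne : ∀ i j : Fin 4, i ≠ j → f i ≠ f j := fun i j h h1 => h (hfi h1)
    refine ⟨2, 4, Equiv.ofBijective f hfb, by norm_num, ?_, ?_, ?_⟩
    · intro i j hij
      show (joinComplete G 2).Adj (f i) (f j)
      have hne' : f i ≠ f j := hne i j fun h => by subst h; omega
      fin_cases i
      · have h3 : j = 1 := Fin.ext (by simpa using hij.symm)
        subst h3
        exact adj_inr_right G 2 0 hne'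
      · exact adj_inr_left G 2 0 hne'
      · have h3 : j = 3 := Fin.ext (by simpa using hij.symm)
        subst h3
        exact adj_inr_right G 2 1 hne'
      · exact adj_inr_left G 2 1 hne'
    · intro i j hi hj
      show (joinComplete G 2).Adj (f i) (f j)
      have h3 : j = 3 := Fin.ext (by
        show j.val = 3
        omega)
      have h0 : i = 0 := Fin.ext hi
      subst h3 h0
      exact adj_inr_right G 2 1 (hne 0 3 (by decide))
    · rintro i j k l hij hjk hkl ⟨h, -⟩
      have h' : (joinComplete G 2).Adj (f i) (f k) := h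
      have h1 : i.val < j.val := hij
      have h3 : j.val < k.val := hjk
      have h4 : k.val < l.val := hkl
      have h5 := l.isLt
      have hi : i = 0 := Fin.ext (by
        show i.val = 0
        omega)
      have hk : k = 2 := Fin.ext (by
        show k.val = 2
        omega)
      subst hi hk
      exact hG ((adj_inl G 2 a b).1 h')

end Pool.Agent.H126.DJ
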