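import Pool.Agent.H126.DJ.St

set_option autoImplicit false

namespace Pool.Agent.H126.DJ

open Set Filter Topology

namespace CON

/-- `z ↦ det3 u v z` as a continuous linear functional. -/
noncomputable def dL (u v : EuclideanSpace ℝ (Fin 3)) : EuclideanSpace ℝ (Fin 3) →L[ℝ] ℝ :=
  (u 1 * v 2 - u 2 * v 1) • EuclideanSpace.proj (𝕜 := ℝ) (0 : Fin 3) +
  (u 2 * v 0 - u 0 * v 2) • EuclideanSpace.proj (𝕜 := ℝ) (1 : Fin 3) +
  (u 0 * v 1 - u 1 * v 0) • EuclideanSpace.proj (𝕜 := ℝ) (2 : Fin 3)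

lemma dL_apply (u v z : EuclideanSpace ℝ (Fin 3)) : dL u v z = det3 u v z := by
  simp [dL, det3]
  ring

lemma det3_rot (u v w : EuclideanSpace ℝ (Fin 3)) : det3 u v w = det3 v w u := by
  simp only [det3]; ring

lemma det3_self_left (u w : EuclideanSpace ℝ (Fin 3)) : det3 u u w = 0 := by
  simp only [det3]; ring

lemma det3_self_right (u v : EuclideanSpace ℝ (Fin 3)) : det3 u v v = 0 := by
  simp only [det3]; ring

lemma det3_self_mid (u v : EuclideanSpace ℝ (Fin 3)) : det3 u v u = 0 := by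
  simp only [det3]; ring

lemma efun_of_pos {m : ℕ} (p : Fin m ⊕ Fin 1 → EuclideanSpace ℝ (Fin 3)) (a b c0 : Fin m)
    (hc0 : c0 ≠ a) (hc0' : c0 ≠ b)
    (h : ∀ c, c ≠ a → c ≠ b → 0 < det3 (p (Sum.inl a) - p (Sum.inr 0))
      (p (Sum.inl b) - p (Sum.inr 0)) (p (Sum.inl c) - p (Sum.inr 0))) :
    EFun p (Sum.inl a) (Sum.inl b) := by
  obtain ⟨ra, hra⟩ : ∃ x, x = p (Sum.inl a) - p (Sum.inr 0) := ⟨_, rfl⟩
  obtain ⟨rb, hrb⟩ : ∃ x, x = p (Sum.inl b) - p (Sum.inr 0) := ⟨_, rfl⟩
  obtain ⟨rc, hrc⟩ : ∃ x, x = p (Sum.inl c0) - p (Sum.inr 0) := ⟨_, rfl⟩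
  have hD : 0 < det3 ra rb rc := by
    rw [hra, hrb, hrc]; exact h c0 hc0 hc0'
  obtain ⟨A, hA⟩ : ∃ A : EuclideanSpace ℝ (Fin 3) →L[ℝ] ℝ, A = (det3 ra rb rc)⁻¹ • (dL rb rc + dL rc ra) :=
    ⟨_, rfl⟩
  have hAa : A ra = 1 := by
    rw [hA]
    simp only [smul_apply, add_apply, dL_apply,
      smul_eq_mul]
    rw [det3_self_right, add_zero, ← det3_rot ra rb rc]
    exact inv_mul_cancel₀ hD.ne'
  have hAb : A rb = 1 := by
    rw [hA]
    simp only [smul_apply, add_apply, dL_apply,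
      smul_eq_mul]
    rw [det3_self_mid, zero_add, det3_rot rc ra rb]
    exact inv_mul_cancel₀ hD.ne'
  obtain ⟨G, hG⟩ : ∃ G : EuclideanSpace ℝ (Fin 3) →L[ℝ] ℝ, G = dL ra rb := ⟨_, rfl⟩
  have hGa : G ra = 0 := by rw [hG, dL_apply, det3_self_mid]
  have hGb : G rb = 0 := by rw [hG, dL_apply, det3_self_right]
  have hGc : ∀ c, c ≠ a → c ≠ b → 0 < G (p (Sum.inl c) - p (Sum.inr 0)) := by
    intro c h1 h2
    rw [hG, dL_apply, hra, hrb]
    exact h c h1 h2
  have hev : ∀ᶠ M : ℝ in atTop, ∀ c : Fin m, c ≠ a → c ≠ b →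
      0 < 1 - A (p (Sum.inl c) - p (Sum.inr 0)) + M * G (p (Sum.inl c) - p (Sum.inr 0)) := by
    rw [eventually_all]
    intro c
    by_cases h1 : c = a
    · exact Eventually.of_forall (fun M h => absurd h1 h)
    by_cases h2 : c = b
    · exact Eventually.of_forall (fun M _ h => absurd h2 h)
    have ht : Tendsto (fun M : ℝ => (1 - A (p (Sum.inl c) - p (Sum.inr 0))) +
        M * G (p (Sum.inl c) - p (Sum.inr 0))) atTop atTop :=
      tendsto_atTop_add_const_left _ _ (tendsto_id.atTop_mul_const (hGc c h1 h2))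
    filter_upwards [ht.eventually_gt_atTop 0] with M hM _ _
    exact hM
  obtain ⟨M, hM⟩ := hev.exists
  refine ⟨-A + M • G, 1 + A (p (Sum.inr 0)) - M * G (p (Sum.inr 0)), ?_, ?_, ?_⟩
  · have e1 : A (p (Sum.inl a)) - A (p (Sum.inr 0)) = 1 := by
      rw [← map_sub, ← hra]; exact hAa
    have e2 : G (p (Sum.inl a)) - G (p (Sum.inr 0)) = 0 := by
      rw [← map_sub, ← hra]; exact hGa
    simp only [add_apply, neg_apply,
      smul_apply, smul_eq_mul]
    have : G (p (Sum.inl a)) = G (p (Sum.inr 0)) := by linarith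
    rw [this]
    linarith
  · have e1 : A (p (Sum.inl b)) - A (p (Sum.inr 0)) = 1 := by
      rw [← map_sub, ← hrb]; exact hAb
    have e2 : G (p (Sum.inl b)) - G (p (Sum.inr 0)) = 0 := by
      rw [← map_sub, ← hrb]; exact hGb
    simp only [add_apply, neg_apply,
      smul_apply, smul_eq_mul]
    have : G (p (Sum.inl b)) = G (p (Sum.inr 0)) := by linarith
    rw [this]
    linarith
  · intro z hz1 hz2
    simp only [add_apply, neg_apply,
      smul_apply, smul_eq_mul]
    rcases z with c | o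
    · have h1 : c ≠ a := fun h => hz1 (by rw [h])
      have h2 : c ≠ b := fun h => hz2 (by rw [h])
      have h3 := hM c h1 h2
      rw [map_sub, map_sub] at h3
      linarith
    · have : o = 0 := Subsingleton.elim _ _
      subst this
      linarith

lemma efun_symm {d : ℕ} {U : Type} {p : U → EuclideanSpace ℝ (Fin d)} {x y : U}
    (h : EFun p x y) : EFun p y x := by
  obtain ⟨l, b, h1, h2, h3⟩ := h
  exact ⟨l, b, h2, h1, fun z hz1 hz2 => h3 z hz2 hz1⟩

/-- The linear relation between four vectors of `ℝ^3`. -/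
lemma rel4 (l : EuclideanSpace ℝ (Fin 3) →L[ℝ] ℝ) (a b c d : EuclideanSpace ℝ (Fin 3)) :
    det3 b c d * l a - det3 a c d * l b + det3 a b d * l c - det3 a b c * l d = 0 := by
  have h : det3 b c d • a - det3 a c d • b + det3 a b d • c - det3 a b c • d = 0 := by
    ext i
    fin_cases i <;> simp [det3] <;> ring
  have := congrArg l h
  simpa using this

end CON

theorem consec : S_CONSEC := by
  intro m p hm h
  constructor
  · intro a b hab
    have hlt : a < b := by
      rw [Fin.lt_def]; omega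
    have hpos : ∀ c, c ≠ a → c ≠ b → 0 < det3 (p (Sum.inl a) - p (Sum.inr 0))
        (p (Sum.inl b) - p (Sum.inr 0)) (p (Sum.inl c) - p (Sum.inr 0)) := by
      intro c h1 h2
      rcases lt_or_gt_of_ne h1 with h3 | h3
      · rw [← CON.det3_rot]
        exact h c a b h3 hlt
      · have h4 : b < c := by
          have h5 : b.val ≠ c.val := fun h => h2 (Fin.ext h.symm)
          rw [Fin.lt_def] at *
          omega
        exact h a b c hlt h4
    have hex : ∃ c : Fin m, c ≠ a ∧ c ≠ b := by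
      by_cases h0 : a.val = 0
      · refine ⟨⟨2, by omega⟩, ?_, ?_⟩
        · intro h; rw [← h] at h0; simp at h0
        · intro h; rw [← h] at hab; simp at hab; omega
      · refine ⟨⟨0, by omega⟩, ?_, ?_⟩
        · intro h; rw [← h] at h0; simp at h0
        · intro h; rw [← h] at hab; simp at hab
    obtain ⟨c0, hc1, hc2⟩ := hex
    exact CON.efun_of_pos p a b c0 hc1 hc2 hpos
  · intro a b ha hb
    have hlt : a < b := by
      rw [Fin.lt_def]; omega
    apply CON.efun_symm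
    refine CON.efun_of_pos p b a ⟨1, by omega⟩ ?_ ?_ ?_
    · intro h; rw [← h] at hb; simp at hb; omega
    · intro h; rw [← h] at ha; simp at ha
    · intro c h1 h2
      have h3 : a < c := by
        have h5 : a.val ≠ c.val := fun h => h2 (Fin.ext h.symm)
        rw [Fin.lt_def] at *
        omega
      have h4 : c < b := by
        have h5 : b.val ≠ c.val := fun h => h1 (Fin.ext h.symm)
        have := c.isLt
        rw [Fin.lt_def] at *
        omega
      rw [CON.det3_rot]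
      exact h a c b h3 h4

theorem nocross : S_NOCROSS := by
  rintro m p h a b c d hab hbc hcd ⟨⟨l, β, h1, h2, h3⟩, ⟨l', β', h1', h2', h3'⟩⟩
  have hA := h b c d hbc hcd
  have hB := h a c d (hab.trans hbc) hcd
  have hC := h a b d hab (hbc.trans hcd)
  have hD := h a b c hab hbc
  have r1 := CON.rel4 l (p (Sum.inl a) - p (Sum.inr 0)) (p (Sum.inl b) - p (Sum.inr 0))
    (p (Sum.inl c) - p (Sum.inr 0)) (p (Sum.inl d) - p (Sum.inr 0))
  have r2 := CON.rel4 l' (p (Sum.inl a) - p (Sum.inr 0)) (p (Sum.inl b) - p (Sum.inr 0))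
    (p (Sum.inl c) - p (Sum.inr 0)) (p (Sum.inl d) - p (Sum.inr 0))
  have e1 := h3 (Sum.inl b) (by simp [hab.ne']) (by simp [hbc.ne])
  have e2 := h3 (Sum.inl d) (by simp [(hab.trans (hbc.trans hcd)).ne']) (by simp [hcd.ne'])
  have e3 := h3 (Sum.inr 0) (by simp) (by simp)
  have e1' := h3' (Sum.inl a) (by simp [hab.ne]) (by simp [(hab.trans (hbc.trans hcd)).ne])
  have e2' := h3' (Sum.inl c) (by simp [hbc.ne']) (by simp [hcd.ne])
  have e3' := h3' (Sum.inr 0) (by simp) (by simp)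
  generalize det3 (p (Sum.inl b) - p (Sum.inr 0)) (p (Sum.inl c) - p (Sum.inr 0))
    (p (Sum.inl d) - p (Sum.inr 0)) = A at *
  generalize det3 (p (Sum.inl a) - p (Sum.inr 0)) (p (Sum.inl c) - p (Sum.inr 0))
    (p (Sum.inl d) - p (Sum.inr 0)) = B at *
  generalize det3 (p (Sum.inl a) - p (Sum.inr 0)) (p (Sum.inl b) - p (Sum.inr 0))
    (p (Sum.inl d) - p (Sum.inr 0)) = C at *
  generalize det3 (p (Sum.inl a) - p (Sum.inr 0)) (p (Sum.inl b) - p (Sum.inr 0))
    (p (Sum.inl c) - p (Sum.inr 0)) = D at *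
  simp only [map_sub] at r1 r2
  have k1 : (A + C) * (l (p (Sum.inr 0)) + β) < (B + D) * (l (p (Sum.inr 0)) + β) := by
    have i1 := mul_nonpos_of_nonneg_of_nonpos hA.le h1
    have i2 := mul_nonpos_of_nonneg_of_nonpos hC.le h2
    have i3 := mul_pos hB e1
    have i4 := mul_pos hD e2
    nlinarith
  have k2 : A + C < B + D := lt_of_mul_lt_mul_right k1 e3.le
  have k1' : (B + D) * (l' (p (Sum.inr 0)) + β') < (A + C) * (l' (p (Sum.inr 0)) + β') := by
    have i1 := mul_nonpos_of_nonneg_of_nonpos hB.le h1'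
    have i2 := mul_nonpos_of_nonneg_of_nonpos hD.le h2'
    have i3 := mul_pos hA e1'
    have i4 := mul_pos hC e2'
    nlinarith
  have k2' : B + D < A + C := lt_of_mul_lt_mul_right k1' e3'.le
  linarith

end Pool.Agent.H126.DJ
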