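import Mathlib

set_option autoImplicit false

namespace Pool.Agent.H126.DJ

open Set

/-- `P` is a convex polytope of dimension `d` in `ℝ^d` and `H` is its graph: `P` is the convex hull
of a finite set and has interior points, `p` maps the vertices of `H` bijectively onto the
vertices (extreme points) of `P`, and two vertices of `H` are adjacent exactly when they are
distinct and the segment joining their images is a face (exposed subset) of `P`. -/
def IsGraphOf (d : ℕ) {U : Type} (H : SimpleGraph U) (P : Set (EuclideanSpace ℝ (Fin d)))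
    (p : U → EuclideanSpace ℝ (Fin d)) : Prop :=
  (∃ S : Finset (EuclideanSpace ℝ (Fin d)), P = convexHull ℝ (S : Set _)) ∧
  (interior P).Nonempty ∧ Function.Injective p ∧ range p = P.extremePoints ℝ ∧
  ∀ u v, H.Adj u v ↔ u ≠ v ∧ IsExposed ℝ P (segment ℝ (p u) (p v))

/-- `H` is isomorphic to the graph of some `d`-polytope. -/
def IsPolytopal (d : ℕ) {U : Type} (H : SimpleGraph U) : Prop :=
  ∃ P p, IsGraphOf d H P p

/-- The join of `G` with the complete graph on `W`, on the vertex set `V ⊕ W`: two distinct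
vertices are adjacent unless both lie in `V` and are not adjacent in `G`. -/
def joinW {V : Type} (G : SimpleGraph V) (W : Type) : SimpleGraph (V ⊕ W) where
  Adj x y := x ≠ y ∧ ∀ u v, x = Sum.inl u → y = Sum.inl v → G.Adj u v
  symm := ⟨fun _ _ h => ⟨h.1.symm, fun u v hx hy => (h.2 v u hy hx).symm⟩⟩
  loopless := ⟨fun _ h => h.1 rfl⟩

/-- The join `G + K_n` on the vertex set `V ⊕ Fin n`. -/
def joinComplete {V : Type} (G : SimpleGraph V) (n : ℕ) : SimpleGraph (V ⊕ Fin n) :=
  joinW G (Fin n)

/-- `d(G)`: the smallest `d` such that `G + K_n` is the graph of a `d`-polytope for some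
`n ≥ 1`. -/
noncomputable def dJoin {V : Type} (G : SimpleGraph V) : ℕ :=
  sInf {d | ∃ n ≥ 1, IsPolytopal d (joinComplete G n)}

/-- `G` is a path (on `m` vertices, in the order `e 0, e 1, ..., e (m-1)`). -/
def PathLike {V : Type} (G : SimpleGraph V) : Prop :=
  ∃ (m : ℕ) (e : Fin m ≃ V), ∀ a b : Fin m,
    G.Adj (e a) (e b) ↔ (a.val + 1 = b.val ∨ b.val + 1 = a.val)

/-- `G` is a cycle of length `m ≥ 3` together with pairwise non-crossing chords: the vertices can
be ordered as `e 0, ..., e (m-1)` such that cyclically consecutive vertices are adjacent and no two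
edges cross. -/
def OuterHam {V : Type} (G : SimpleGraph V) : Prop :=
  ∃ (m : ℕ) (e : Fin m ≃ V), 3 ≤ m ∧ (∀ a b : Fin m, a.val + 1 = b.val → G.Adj (e a) (e b)) ∧
    (∀ a b : Fin m, a.val = 0 → b.val + 1 = m → G.Adj (e a) (e b)) ∧
    ∀ a b c d : Fin m, a < b → b < c → c < d → ¬ (G.Adj (e a) (e c) ∧ G.Adj (e b) (e d))

/-- The complement of `G` is a pseudoforest: one can choose for every vertex `i` at most one vertex
`σ i` such that two distinct vertices are non-adjacent in `G` exactly when one of them is chosen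
for the other. -/
def CoPseudo {V : Type} (G : SimpleGraph V) : Prop :=
  ∃ σ : V → Option V, (∀ i, σ i ≠ some i) ∧
    ∀ i j, i ≠ j → (¬ G.Adj i j ↔ σ i = some j ∨ σ j = some i)

section functionals

variable {d : ℕ} {U : Type}

/-- `p x` is strictly separated from the other points. -/
def VFun (p : U → EuclideanSpace ℝ (Fin d)) (x : U) : Prop :=
  ∃ (l : EuclideanSpace ℝ (Fin d) →L[ℝ] ℝ) (b : ℝ), l (p x) + b ≤ 0 ∧
    ∀ z, z ≠ x → 0 < l (p z) + b

/-- `p x, p y` are strictly separated from the other points. -/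
def EFun (p : U → EuclideanSpace ℝ (Fin d)) (x y : U) : Prop :=
  ∃ (l : EuclideanSpace ℝ (Fin d) →L[ℝ] ℝ) (b : ℝ), l (p x) + b ≤ 0 ∧ l (p y) + b ≤ 0 ∧
    ∀ z, z ≠ x → z ≠ y → 0 < l (p z) + b

/-- The points do not lie in a hyperplane. -/
def Spans (p : U → EuclideanSpace ℝ (Fin d)) : Prop :=
  ∀ (l : EuclideanSpace ℝ (Fin d) →L[ℝ] ℝ) (b : ℝ), (∀ x, l (p x) + b = 0) → l = 0

end functionals

/-- Determinant of three vectors of `ℝ^3`. -/
def det3 (u v w : EuclideanSpace ℝ (Fin 3)) : ℝ :=
  u 0 * (v 1 * w 2 - v 2 * w 1) - u 1 * (v 0 * w 2 - v 2 * w 0) + u 2 * (v 0 * w 1 - v 1 * w 0)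

end Pool.Agent.H126.DJ
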