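import Pool.Agent.H126.DJ.St

set_option autoImplicit false

namespace Pool.Agent.H126.DJ

open Set Filter Topology

namespace FA

/-- Evaluation of the polynomial with coefficients `c`. -/
noncomputable def ev (c : Fin 5 → ℝ) (t : ℝ) : ℝ :=
  c 0 + c 1 * t + c 2 * t ^ 2 + c 3 * t ^ 3 + c 4 * t ^ 4

/-- The linear functional of the nonconstant coefficients. -/
noncomputable def lin (c : Fin 5 → ℝ) : EuclideanSpace ℝ (Fin 4) →L[ℝ] ℝ :=
  c 1 • EuclideanSpace.proj (𝕜 := ℝ) (0 : Fin 4) + c 2 • EuclideanSpace.proj (𝕜 := ℝ) (1 : Fin 4) +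
    c 3 • EuclideanSpace.proj (𝕜 := ℝ) (2 : Fin 4) + c 4 • EuclideanSpace.proj (𝕜 := ℝ) (3 : Fin 4)

theorem lin_nu4 (c : Fin 5 → ℝ) (t : ℝ) : lin c (nu4 t) = ev c t - c 0 := by
  have h0 : (nu4 t) 0 = t := by simp [nu4]
  have h1 : (nu4 t) 1 = t ^ 2 := by simp [nu4]
  have h2 : (nu4 t) 2 = t ^ 3 := by simp [nu4]
  have h3 : (nu4 t) 3 = t ^ 4 := by simp [nu4]
  have : lin c (nu4 t) = c 1 * (nu4 t) 0 + c 2 * (nu4 t) 1 + c 3 * (nu4 t) 2 +
      c 4 * (nu4 t) 3 := by
    simp [lin]
  rw [this, h0, h1, h2, h3]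
  unfold ev
  ring

variable {V : Type}

/-- The value of the affine function at the labels. -/
noncomputable def val (σ : V → Option V) (t : Option V → ℝ) (f0 f1 : ℝ → ℝ) (δ : ℝ) :
    V ⊕ (Option V × Bool) → ℝ
  | Sum.inl i => (1 + δ) / 2 * ((f0 (t (some i) - 1 / 4) + δ * f1 (t (some i) - 1 / 4)) +
      (f0 (t (some i) + 1 / 4) + δ * f1 (t (some i) + 1 / 4))) -
      δ * (f0 (t (σ i)) + δ * f1 (t (σ i)))
  | Sum.inr w => f0 (om t w) + δ * f1 (om t w)

theorem master (σ : V → Option V) (t : Option V → ℝ) (c d : Fin 5 → ℝ)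
    (x : V ⊕ (Option V × Bool)) (δ : ℝ) :
    lin (c + δ • d) (ptF σ t δ x) + (c + δ • d) 0 = val σ t (ev c) (ev d) δ x := by
  have hev : ∀ s, ev (c + δ • d) s = ev c s + δ * ev d s := by
    intro s
    simp only [ev, Pi.add_apply, Pi.smul_apply, smul_eq_mul]
    ring
  rcases x with i | w
  · have : lin (c + δ • d) (ptF σ t δ (Sum.inl i)) =
        ((1 + δ) / 2) * (lin (c + δ • d) (nu4 (t (some i) - 1 / 4)) +
          lin (c + δ • d) (nu4 (t (some i) + 1 / 4))) -
        δ * lin (c + δ • d) (nu4 (t (σ i))) := by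
      simp only [ptF, map_sub, map_smul, map_add, smul_eq_mul]
    rw [this, lin_nu4, lin_nu4, lin_nu4, hev, hev, hev]
    simp only [val]
    ring
  · have : lin (c + δ • d) (ptF σ t δ (Sum.inr w)) = lin (c + δ • d) (nu4 (om t w)) := rfl
    rw [this, lin_nu4, hev]
    simp only [val]
    ring

/-- Polynomial functions of degree at most four. -/
def IsQ (f : ℝ → ℝ) : Prop := ∃ c : Fin 5 → ℝ, ∀ s, f s = ev c s

theorem efun_of [Fintype V] (σ : V → Option V) (t : Option V → ℝ) {f0 f1 : ℝ → ℝ}
    (h0 : IsQ f0) (h1 : IsQ f1) (x y : V ⊕ (Option V × Bool))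
    (hx : ∀ᶠ δ in 𝓝[>] (0 : ℝ), val σ t f0 f1 δ x ≤ 0)
    (hy : ∀ᶠ δ in 𝓝[>] (0 : ℝ), val σ t f0 f1 δ y ≤ 0)
    (hz : ∀ z, z ≠ x → z ≠ y → ∀ᶠ δ in 𝓝[>] (0 : ℝ), 0 < val σ t f0 f1 δ z) :
    ∀ᶠ δ in 𝓝[>] (0 : ℝ), EFun (ptF σ t δ) x y := by
  classical
  obtain ⟨c, hc⟩ := h0
  obtain ⟨d, hd⟩ := h1
  have e0 : f0 = ev c := funext hc
  have e1 : f1 = ev d := funext hd
  subst e0 e1
  have hall : ∀ᶠ δ in 𝓝[>] (0 : ℝ), ∀ z, z ≠ x → z ≠ y → 0 < val σ t (ev c) (ev d) δ z := by
    rw [Filter.eventually_all]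
    intro z
    by_cases h1 : z = x
    · exact Filter.Eventually.of_forall fun δ h => absurd h1 h
    by_cases h2 : z = y
    · exact Filter.Eventually.of_forall fun δ _ h => absurd h2 h
    filter_upwards [hz z h1 h2] with δ hδ _ _ using hδ
  filter_upwards [hx, hy, hall] with δ a b e
  refine ⟨lin (c + δ • d), (c + δ • d) 0, ?_, ?_, ?_⟩
  · rw [master]; exact a
  · rw [master]; exact b
  · intro z hzx hzy
    rw [master]; exact e z hzx hzy

theorem vfun_of_efun {d : ℕ} {U : Type} {p : U → EuclideanSpace ℝ (Fin d)} {x : U}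
    (h : EFun p x x) : VFun p x := by
  obtain ⟨l, b, h1, _, h3⟩ := h
  exact ⟨l, b, h1, fun z hz => h3 z hz hz⟩

section sub

variable (σ : V → Option V) (t : Option V → ℝ) (f0 f1 : ℝ → ℝ)

theorem pos_inl (i : V) (h : 0 < f0 (t (some i) - 1 / 4) + f0 (t (some i) + 1 / 4)) :
    ∀ᶠ δ in 𝓝[>] (0 : ℝ), 0 < val σ t f0 f1 δ (Sum.inl i) := by
  have hc : Continuous fun δ : ℝ => val σ t f0 f1 δ (Sum.inl i) := by
    simp only [val]
    fun_prop
  have h0 : 0 < val σ t f0 f1 0 (Sum.inl i) := by
    simp only [val]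
    linarith
  exact (hc.continuousAt.eventually_const_lt h0).filter_mono nhdsWithin_le_nhds

theorem neg_inl (i : V) (h : f0 (t (some i) - 1 / 4) + f0 (t (some i) + 1 / 4) = 0)
    (h' : (f1 (t (some i) - 1 / 4) + f1 (t (some i) + 1 / 4)) / 2 < f0 (t (σ i))) :
    ∀ᶠ δ in 𝓝[>] (0 : ℝ), val σ t f0 f1 δ (Sum.inl i) ≤ 0 := by
  have hc : Continuous fun δ : ℝ => (1 + δ) / 2 * (f1 (t (some i) - 1 / 4) +
      f1 (t (some i) + 1 / 4)) - (f0 (t (σ i)) + δ * f1 (t (σ i))) := by
    fun_prop
  have h0 : (1 + (0 : ℝ)) / 2 * (f1 (t (some i) - 1 / 4) +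
      f1 (t (some i) + 1 / 4)) - (f0 (t (σ i)) + 0 * f1 (t (σ i))) < 0 := by
    linarith
  have h1 := (hc.continuousAt.eventually_lt_const h0).filter_mono
    (nhdsWithin_le_nhds (s := Ioi (0 : ℝ)))
  filter_upwards [h1, self_mem_nhdsWithin] with δ hδ hpos
  have hpos' : 0 < δ := hpos
  have key : val σ t f0 f1 δ (Sum.inl i) = δ * ((1 + δ) / 2 * (f1 (t (some i) - 1 / 4) +
      f1 (t (some i) + 1 / 4)) - (f0 (t (σ i)) + δ * f1 (t (σ i)))) +
      (1 + δ) / 2 * (f0 (t (some i) - 1 / 4) + f0 (t (some i) + 1 / 4)) := by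
    simp only [val]
    ring
  rw [key, h]
  have := mul_neg_of_pos_of_neg hpos' hδ
  linarith

theorem pos_inr (w : Option V × Bool) (h0 : 0 ≤ f0 (om t w)) (h1 : 0 < f1 (om t w)) :
    ∀ᶠ δ in 𝓝[>] (0 : ℝ), 0 < val σ t f0 f1 δ (Sum.inr w) := by
  filter_upwards [self_mem_nhdsWithin] with δ hpos
  have hpos' : 0 < δ := hpos
  simp only [val]
  have := mul_pos hpos' h1
  linarith

theorem pos_inr' (w : Option V × Bool) (h0 : 0 < f0 (om t w)) (h1 : 0 ≤ f1 (om t w)) :
    ∀ᶠ δ in 𝓝[>] (0 : ℝ), 0 < val σ t f0 f1 δ (Sum.inr w) := by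
  filter_upwards [self_mem_nhdsWithin] with δ hpos
  have hpos' : 0 < δ := hpos
  simp only [val]
  have := mul_nonneg hpos'.le h1
  linarith

theorem neg_inr (w : Option V × Bool) (h0 : f0 (om t w) ≤ 0) (h1 : f1 (om t w) ≤ 0) :
    ∀ᶠ δ in 𝓝[>] (0 : ℝ), val σ t f0 f1 δ (Sum.inr w) ≤ 0 := by
  filter_upwards [self_mem_nhdsWithin] with δ hpos
  have hpos' : 0 < δ := hpos
  simp only [val]
  have := mul_nonneg_of_nonpos_of_nonpos (neg_nonpos.mpr hpos'.le) h1
  linarith

end sub

/-- `M g x = (x - t g)^2 - 1/16`. -/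
noncomputable def M (t : Option V → ℝ) (g : Option V) (x : ℝ) : ℝ := (x - t g) ^ 2 - 1 / 16

section M

variable {t : Option V → ℝ} (ht : ∀ g h, g ≠ h → 1 ≤ |t g - t h|)
include ht

theorem sq_of_ne {g h : Option V} (hgh : g ≠ h) : 1 ≤ (t g - t h) ^ 2 := by
  have := ht g h hgh
  rw [← sq_abs]
  nlinarith [abs_nonneg (t g - t h)]

theorem M_center {g h : Option V} (hgh : g ≠ h) : 15 / 16 ≤ M t g (t h) := by
  have := sq_of_ne ht (Ne.symm hgh)
  unfold M
  linarith

theorem M_minus {g h : Option V} (hgh : g ≠ h) : 1 / 2 ≤ M t g (t h - 1 / 4) := by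
  have := ht h g (Ne.symm hgh)
  unfold M
  rcases le_abs.mp this with h1 | h1 <;> nlinarith

theorem M_plus {g h : Option V} (hgh : g ≠ h) : 1 / 2 ≤ M t g (t h + 1 / 4) := by
  have := ht h g (Ne.symm hgh)
  unfold M
  rcases le_abs.mp this with h1 | h1 <;> nlinarith

omit ht in
theorem M_self_minus (g : Option V) : M t g (t g - 1 / 4) = 0 := by
  unfold M; ring

omit ht in
theorem M_self_plus (g : Option V) : M t g (t g + 1 / 4) = 0 := by
  unfold M; ring

omit ht in
theorem om_cases (w : Option V × Bool) : om t w = t w.1 - 1 / 4 ∨ om t w = t w.1 + 1 / 4 := by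
  rcases w with ⟨g, b⟩
  cases b
  · left; simp only [om]; norm_num; ring
  · right; simp [om]

theorem M_om_pos {g : Option V} {w : Option V × Bool} (h : g ≠ w.1) : 0 < M t g (om t w) := by
  rcases om_cases (t := t) w with e | e
  · rw [e]; linarith [M_minus ht h]
  · rw [e]; linarith [M_plus ht h]

theorem M_om_nonneg (g : Option V) (w : Option V × Bool) : 0 ≤ M t g (om t w) := by
  by_cases h : g = w.1
  · subst h
    rcases om_cases (t := t) w with e | e
    · rw [e, M_self_minus]
    · rw [e, M_self_plus]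
  · exact (M_om_pos ht h).le

omit ht in
theorem M_om_self {g : Option V} {w : Option V × Bool} (h : g = w.1) : M t g (om t w) = 0 := by
  subst h
  rcases om_cases (t := t) w with e | e
  · rw [e, M_self_minus]
  · rw [e, M_self_plus]

theorem om_inj {w w' : Option V × Bool} (h : om t w = om t w') : w = w' := by
  by_cases h1 : w.1 = w'.1
  · rcases w with ⟨g, b⟩
    rcases w' with ⟨g', b'⟩
    simp only at h1
    subst h1
    cases b <;> cases b' <;> simp [om] at h ⊢ <;> norm_num at h
  · exfalso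
    have h2 := ht w.1 w'.1 h1
    rcases om_cases (t := t) w with e | e <;> rcases om_cases (t := t) w' with e' | e' <;>
      rcases le_abs.mp h2 with h3 | h3 <;> linarith

theorem center_ne_om (g : Option V) (w : Option V × Bool) : t g ≠ om t w := by
  intro h
  by_cases h1 : g = w.1
  · subst h1
    rcases om_cases (t := t) w with e | e <;> linarith
  · have h2 := ht g w.1 h1
    rcases om_cases (t := t) w with e | e <;> rcases le_abs.mp h2 with h3 | h3 <;> linarith

end M

theorem isQ_M (t : Option V → ℝ) (g : Option V) : IsQ (M t g) :=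
  ⟨![t g ^ 2 - 1 / 16, -2 * t g, 1, 0, 0], fun s => by simp [ev, M]; ring⟩

theorem isQ_const (c : ℝ) : IsQ fun _ => c :=
  ⟨![c, 0, 0, 0, 0], fun s => by simp [ev]⟩

theorem isQ_sq (c r : ℝ) : IsQ fun x => c * (x - r) ^ 2 :=
  ⟨![c * r ^ 2, -2 * c * r, c, 0, 0], fun s => by simp [ev]; ring⟩

theorem isQ_MM (t : Option V → ℝ) (g h : Option V) : IsQ fun x => M t g x * M t h x := by
  refine ⟨![(t g ^ 2 - 1 / 16) * (t h ^ 2 - 1 / 16),
    (t g ^ 2 - 1 / 16) * (-2 * t h) + (-2 * t g) * (t h ^ 2 - 1 / 16),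
    (t g ^ 2 - 1 / 16) + (t h ^ 2 - 1 / 16) + 4 * t g * t h, -2 * t g - 2 * t h, 1], fun s => ?_⟩
  simp [ev, M]; ring

theorem isQ_Msq (t : Option V → ℝ) (g : Option V) (r : ℝ) :
    IsQ fun x => M t g x * (x - r) ^ 2 := by
  refine ⟨![(t g ^ 2 - 1 / 16) * r ^ 2,
    (t g ^ 2 - 1 / 16) * (-2 * r) + (-2 * t g) * r ^ 2,
    (t g ^ 2 - 1 / 16) + r ^ 2 + 4 * t g * r, -2 * t g - 2 * r, 1], fun s => ?_⟩
  simp [ev, M]; ring

end FA

open FA

theorem fv : S_FV := by
  intro V _ σ t hσ ht u
  rcases u with i | w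
  · -- `u = inl i`
    have hne : (some i : Option V) ≠ σ i := fun h => hσ i h.symm
    have h := efun_of σ t (isQ_M t (some i)) (isQ_const (1 / 2)) (Sum.inl i) (Sum.inl i)
      (by
        apply neg_inl
        · rw [M_self_minus, M_self_plus]; ring
        · have := M_center ht hne
          norm_num
          linarith)
      (by
        apply neg_inl
        · rw [M_self_minus, M_self_plus]; ring
        · have := M_center ht hne
          norm_num
          linarith)
      (by
        intro z hz _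
        rcases z with k | w
        · have hk : (some i : Option V) ≠ some k := by
            intro h
            exact hz (by rw [Option.some.inj h])
          apply pos_inl
          have h1 := M_minus ht hk
          have h2 := M_plus ht hk
          linarith
        · exact pos_inr σ t _ _ w (M_om_nonneg ht _ w) (by norm_num))
    filter_upwards [h] with δ hδ using vfun_of_efun hδ
  · -- `u = inr w`
    have h := efun_of σ t (isQ_sq 1 (om t w)) (isQ_const 0) (Sum.inr w) (Sum.inr w)
      (neg_inr σ t _ _ w (by simp) (by simp))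
      (neg_inr σ t _ _ w (by simp) (by simp))
      (by
        intro z hz _
        rcases z with k | w'
        · apply pos_inl
          have h1 : 0 ≤ (t (some k) - 1 / 4 - om t w) ^ 2 := sq_nonneg _
          have h2 : 0 ≤ (t (some k) + 1 / 4 - om t w) ^ 2 := sq_nonneg _
          nlinarith [h1, h2]
        · apply pos_inr'
          · have hne : om t w' - om t w ≠ 0 := by
              intro h
              exact hz (by rw [om_inj ht (sub_eq_zero.mp h)])
            have := pow_pos (abs_pos.mpr hne) 2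
            rw [sq_abs] at this
            linarith
          · exact le_refl _)
    filter_upwards [h] with δ hδ using vfun_of_efun hδ

theorem fvv : S_FVV := by
  intro V _ σ t hσ ht i j hij hi hj
  have hii : (some i : Option V) ≠ σ i := fun h => hσ i h.symm
  have hjj : (some j : Option V) ≠ σ j := fun h => hσ j h.symm
  have hij' : (some j : Option V) ≠ σ i := fun h => hi h.symm
  have hji' : (some i : Option V) ≠ σ j := fun h => hj h.symm
  refine efun_of σ t (isQ_MM t (some i) (some j)) (isQ_const (1 / 2)) (Sum.inl i) (Sum.inl j)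
    ?_ ?_ ?_
  · apply neg_inl
    · simp only [M_self_minus, M_self_plus]; ring
    · have h1 := M_center ht hii
      have h2 := M_center ht hij'
      nlinarith
  · apply neg_inl
    · simp only [M_self_minus, M_self_plus]; ring
    · have h1 := M_center ht hjj
      have h2 := M_center ht hji'
      nlinarith
  · intro z hz1 hz2
    rcases z with k | w
    · have hk : (some i : Option V) ≠ some k := by
        intro h
        exact hz1 (by rw [Option.some.inj h])
      have hk' : (some j : Option V) ≠ some k := by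
        intro h
        exact hz2 (by rw [Option.some.inj h])
      apply pos_inl
      have h1 := M_minus ht hk
      have h2 := M_plus ht hk
      have h3 := M_minus ht hk'
      have h4 := M_plus ht hk'
      nlinarith
    · exact pos_inr σ t _ _ w (mul_nonneg (M_om_nonneg ht _ w) (M_om_nonneg ht _ w)) (by norm_num)

theorem fvw : S_FVW := by
  intro V _ σ t hσ ht i w
  have hii : (some i : Option V) ≠ σ i := fun h => hσ i h.symm
  have hsq : ∀ w', w' ≠ w → 0 < (om t w' - om t w) ^ 2 := by
    intro w' hw'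
    have hne : om t w' - om t w ≠ 0 := by
      intro h
      exact hw' (om_inj ht (sub_eq_zero.mp h))
    positivity
  by_cases hw : w.1 = some i
  · refine efun_of σ t (isQ_M t (some i)) (isQ_sq 1 (om t w)) (Sum.inl i) (Sum.inr w) ?_ ?_ ?_
    · apply neg_inl
      · rw [M_self_minus, M_self_plus]; ring
      · have := M_center ht hii
        have h2 : om t w = t (some i) - 1 / 4 ∨ om t w = t (some i) + 1 / 4 := by
          rw [← hw]; exact om_cases w
        rcases h2 with e | e
        · rw [e]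
          have e1 : (1 * (t (some i) - 1 / 4 - (t (some i) - 1 / 4)) ^ 2 +
            1 * (t (some i) + 1 / 4 - (t (some i) - 1 / 4)) ^ 2) / 2 = 1 / 8 := by ring
          simp only [e1]
          linarith
        · rw [e]
          have e1 : (1 * (t (some i) - 1 / 4 - (t (some i) + 1 / 4)) ^ 2 +
            1 * (t (some i) + 1 / 4 - (t (some i) + 1 / 4)) ^ 2) / 2 = 1 / 8 := by ring
          simp only [e1]
          linarith
    · exact neg_inr σ t _ _ w (M_om_self hw.symm).le (by simp)
    · intro z hz1 hz2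
      rcases z with k | w'
      · have hk : (some i : Option V) ≠ some k := by
          intro h
          exact hz1 (by rw [Option.some.inj h])
        apply pos_inl
        have h1 := M_minus ht hk
        have h2 := M_plus ht hk
        linarith
      · have hw' : w' ≠ w := fun h => hz2 (by rw [h])
        exact pos_inr σ t _ _ w' (M_om_nonneg ht _ w') (by have := hsq w' hw'; linarith)
  · have hA : 0 < M t (some i) (t (σ i)) * (t (σ i) - om t w) ^ 2 := by
      have h1 := M_center ht hii
      have h2 : t (σ i) - om t w ≠ 0 := sub_ne_zero.mpr (center_ne_om ht (σ i) w)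
      have h3 : 0 < (t (σ i) - om t w) ^ 2 := by positivity
      exact mul_pos (by linarith) h3
    set A := M t (some i) (t (σ i)) * (t (σ i) - om t w) ^ 2 with hAdef
    set B := ((t (some i) - 1 / 4 - om t w) ^ 2 + (t (some i) + 1 / 4 - om t w) ^ 2) / 2 with hB
    have hB0 : 0 ≤ B := by rw [hB]; positivity
    have hc : 0 < A / (B + 1) := div_pos hA (by linarith)
    have hcB : A / (B + 1) * B < A := by
      have h1 : A / (B + 1) * (B + 1) = A := div_mul_cancel₀ A (by linarith)
      nlinarith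
    refine efun_of σ t (isQ_Msq t (some i) (om t w)) (isQ_sq (A / (B + 1)) (om t w))
      (Sum.inl i) (Sum.inr w) ?_ ?_ ?_
    · apply neg_inl
      · simp only [M_self_minus, M_self_plus]; ring
      · have e1 : (A / (B + 1) * (t (some i) - 1 / 4 - om t w) ^ 2 +
            A / (B + 1) * (t (some i) + 1 / 4 - om t w) ^ 2) / 2 = A / (B + 1) * B := by
          rw [hB]; ring
        rw [e1]
        exact hcB
    · exact neg_inr σ t _ _ w (by simp) (by simp)
    · intro z hz1 hz2
      rcases z with k | w'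
      · have hk : (some i : Option V) ≠ some k := by
          intro h
          exact hz1 (by rw [Option.some.inj h])
        apply pos_inl
        have h1 := M_minus ht hk
        have h2 := M_plus ht hk
        have h3 : 0 ≤ (t (some k) - 1 / 4 - om t w) ^ 2 := sq_nonneg _
        have h4 : 0 ≤ (t (some k) + 1 / 4 - om t w) ^ 2 := sq_nonneg _
        have h5 : 0 < (t (some k) - 1 / 4 - om t w) ^ 2 + (t (some k) + 1 / 4 - om t w) ^ 2 := by
          nlinarith
        nlinarith [mul_nonneg (sub_nonneg.mpr h1) h3, mul_nonneg (sub_nonneg.mpr h2) h4]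
      · have hw' : w' ≠ w := fun h => hz2 (by rw [h])
        exact pos_inr σ t _ _ w' (mul_nonneg (M_om_nonneg ht _ w') (sq_nonneg _))
          (mul_pos hc (hsq w' hw'))

end Pool.Agent.H126.DJ
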