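import Pool.Agent.H126.DJ.St

/-!
DJ FWW and FS (helper261).
-/

set_option autoImplicit false

namespace Pool.Agent.H126.DJ

open Set Filter Topology

namespace FB

variable {V : Type}

/-- the linear functional with given coefficients -/
theorem exists_fun (a b c d : ℝ) : ∃ l : EuclideanSpace ℝ (Fin 4) →L[ℝ] ℝ,
    ∀ t, l (nu4 t) = a * t + b * t ^ 2 + c * t ^ 3 + d * t ^ 4 := by
  refine ⟨innerSL ℝ (!₂[a, b, c, d] : EuclideanSpace ℝ (Fin 4)), fun t => ?_⟩
  rw [innerSL_apply_apply, PiLp.inner_apply, Fin.sum_univ_four]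
  simp [nu4]
  ring

/-- values at the points -/
theorem val (σ : V → Option V) (t : Option V → ℝ) (f : ℝ → ℝ) (a b c d e : ℝ)
    (hf : ∀ x, f x = a * x + b * x ^ 2 + c * x ^ 3 + d * x ^ 4 + e) :
    ∃ l : EuclideanSpace ℝ (Fin 4) →L[ℝ] ℝ, ∀ δ : ℝ,
      (∀ w, l (ptF σ t δ (Sum.inr w)) + e = f (om t w)) ∧
      ∀ i, l (ptF σ t δ (Sum.inl i)) + e = (1 + δ) / 2 * (f (om t (some i, false)) +
        f (om t (some i, true))) - δ * f (t (σ i)) := by
  obtain ⟨l, hl⟩ := exists_fun a b c d
  refine ⟨l, fun δ => ⟨fun w => ?_, fun i => ?_⟩⟩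
  · show l (nu4 (om t w)) + e = _
    rw [hl, hf]
  · show l (((1 + δ) / 2) • (nu4 (t (some i) - 1 / 4) + nu4 (t (some i) + 1 / 4)) -
      δ • nu4 (t (σ i))) + e = _
    rw [map_sub, map_smul, map_smul, map_add, hl, hl, hl]
    have e1 : om t (some i, false) = t (some i) - 1 / 4 := by
      simp [om]; ring
    have e2 : om t (some i, true) = t (some i) + 1 / 4 := by
      simp [om]
    rw [e1, e2, hf, hf, hf]
    simp only [smul_eq_mul]
    ring

theorem small (A B : ℝ) (hA : 0 < A) : ∀ᶠ δ in 𝓝[>] (0 : ℝ), 0 < (1 + δ) / 2 * A - δ * B := by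
  have hc : Continuous fun δ : ℝ => (1 + δ) / 2 * A - δ * B := by fun_prop
  have h0 : 0 < (1 + (0 : ℝ)) / 2 * A - 0 * B := by
    have : (1 + (0 : ℝ)) / 2 * A - 0 * B = A / 2 := by ring
    rw [this]; linarith
  exact (hc.tendsto 0).eventually (lt_mem_nhds h0) |>.filter_mono nhdsWithin_le_nhds

theorem om_inj (t : Option V → ℝ) (ht : ∀ g h, g ≠ h → 1 ≤ |t g - t h|) :
    Function.Injective (om t) := by
  rintro ⟨g, β⟩ ⟨h, γ⟩ he
  unfold om at he
  simp only at he
  have hgh : g = h := by
    by_contra hne
    have h1 := ht g h hne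
    have h2 : t g - t h = (if γ = true then (1 : ℝ) / 4 else -(1 / 4)) -
        (if β = true then 1 / 4 else -(1 / 4)) := by linarith
    rw [h2] at h1
    rw [le_abs] at h1
    rcases h1 with h1 | h1
    · split_ifs at h1 <;> norm_num at h1
    · split_ifs at h1 <;> norm_num at h1
  subst hgh
  have h3 : (if β = true then (1 : ℝ) / 4 else -(1 / 4)) = (if γ = true then 1 / 4 else -(1 / 4)) := by
    linarith
  cases β <;> cases γ <;> first | rfl | (norm_num at h3)

theorem dist_om (t : Option V → ℝ) (ht : ∀ g h, g ≠ h → 1 ≤ |t g - t h|) (w : Option V × Bool)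
    (g : Option V) (hg : w.1 ≠ g) : 9 / 16 ≤ (om t w - t g) ^ 2 := by
  have h1 := ht w.1 g hg
  have hq : om t w - t g = (t w.1 - t g) + (if w.2 = true then 1 / 4 else -(1 / 4)) := by
    unfold om; ring
  rw [hq]
  rw [le_abs] at h1
  rcases h1 with h1 | h1
  · split_ifs
    · nlinarith
    · nlinarith
  · split_ifs
    · nlinarith
    · nlinarith

theorem self_om (t : Option V → ℝ) (w : Option V × Bool) : (om t w - t w.1) ^ 2 = 1 / 16 := by
  have hq : om t w - t w.1 = (if w.2 = true then 1 / 4 else -(1 / 4)) := by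
    unfold om; ring
  rw [hq]
  split_ifs <;> norm_num

theorem dist_om' (t : Option V → ℝ) (ht : ∀ g h, g ≠ h → 1 ≤ |t g - t h|) (w : Option V × Bool)
    (g : Option V) : 1 / 16 ≤ (om t w - t g) ^ 2 := by
  by_cases hg : w.1 = g
  · rw [← hg, self_om]
  · have := dist_om t ht w g hg
    linarith

end FB

open FB in
theorem fww : S_FWW := by
  intro V _ σ t hσ ht w w' hww
  by_cases hcase : ∃ k, w.1 = some k ∧ w'.1 = some k
  · obtain ⟨k, hwk, hwk'⟩ := hcase
    set u := t (some k) with hu
    set z := t (σ k) with hz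
    let f : ℝ → ℝ := fun x => ((x - u) ^ 2 - 1 / 16) * ((x - z) ^ 2 - 1 / 32)
    have hfdef : ∀ x, f x = ((x - u) ^ 2 - 1 / 16) * ((x - z) ^ 2 - 1 / 32) := fun x => rfl
    obtain ⟨l, hl⟩ := val σ t f
      (-2 * z * (u ^ 2 - 1 / 16) - 2 * u * (z ^ 2 - 1 / 32))
      ((u ^ 2 - 1 / 16) + (z ^ 2 - 1 / 32) + 4 * u * z)
      (-2 * z - 2 * u) 1 ((u ^ 2 - 1 / 16) * (z ^ 2 - 1 / 32)) (by
        intro x
        rw [hfdef]
        ring)
    have hzero : ∀ v : Option V × Bool, v.1 = some k → f (om t v) = 0 := by
      intro v hv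
      rw [hfdef, hu, ← hv, self_om]
      ring
    have hpos : ∀ v : Option V × Bool, v.1 ≠ some k → 0 < f (om t v) := by
      intro v hv
      rw [hfdef]
      apply mul_pos
      · have := dist_om t ht v (some k) hv
        rw [hu]; linarith
      · have := dist_om' t ht v (σ k)
        rw [hz]; linarith
    have hall : ∀ᶠ δ in 𝓝[>] (0 : ℝ), ∀ j : V, j ≠ k →
        0 < (1 + δ) / 2 * (f (om t (some j, false)) + f (om t (some j, true))) -
          δ * f (t (σ j)) := by
      rw [eventually_all]
      intro j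
      by_cases hj : j = k
      · exact Eventually.of_forall fun δ h => absurd hj h
      · have hj' : some j ≠ some k := fun h => hj (Option.some_injective _ h)
        filter_upwards [small _ (f (t (σ j))) (add_pos (hpos (some j, false) hj')
          (hpos (some j, true) hj'))] with δ hδ _
        exact hδ
    filter_upwards [hall, self_mem_nhdsWithin] with δ hδ hδ0
    rw [mem_Ioi] at hδ0
    obtain ⟨hr, hi⟩ := hl δ
    refine ⟨l, (u ^ 2 - 1 / 16) * (z ^ 2 - 1 / 32), ?_, ?_, ?_⟩
    · rw [hr w, hzero w hwk]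
    · rw [hr w', hzero w' hwk']
    · rintro (j | v) h1 h2
      · rw [hi j]
        by_cases hj : j = k
        · subst hj
          rw [hzero (some j, false) rfl, hzero (some j, true) rfl]
          have h3 : f (t (σ j)) = -(1 / 32) * ((z - u) ^ 2 - 1 / 16) := by
            rw [hfdef]
            have : t (σ j) = z := rfl
            rw [this]; ring
          have h4 := ht (σ j) (some j) (hσ j)
          have h5 : 1 ≤ (z - u) ^ 2 := by
            have : |z - u| ^ 2 = (z - u) ^ 2 := sq_abs _
            rw [← this]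
            nlinarith [abs_nonneg (z - u)]
          rw [h3]
          nlinarith
        · exact hδ j hj
      · rw [hr v]
        apply hpos
        intro hv
        have n1 : v ≠ w := fun h => h1 (by rw [h])
        have n2 : v ≠ w' := fun h => h2 (by rw [h])
        obtain ⟨v1, v2⟩ := v
        obtain ⟨w1, w2⟩ := w
        obtain ⟨w1', w2'⟩ := w'
        simp only at hv hwk hwk'
        subst hv hwk hwk'
        simp only [ne_eq, Prod.mk.injEq, true_and] at n1 n2 hww
        cases v2 <;> cases w2 <;> cases w2' <;> simp_all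
  · push Not at hcase
    set u := om t w with hu
    set z := om t w' with hz
    let f : ℝ → ℝ := fun x => (x - u) ^ 2 * (x - z) ^ 2
    have hfdef : ∀ x, f x = (x - u) ^ 2 * (x - z) ^ 2 := fun x => rfl
    obtain ⟨l, hl⟩ := val σ t f
      (-2 * z * u ^ 2 - 2 * u * z ^ 2)
      (u ^ 2 + z ^ 2 + 4 * u * z)
      (-2 * z - 2 * u) 1 (u ^ 2 * z ^ 2) (by
        intro x
        rw [hfdef]
        ring)
    have hnn : ∀ x, 0 ≤ f x := fun x => by rw [hfdef]; positivity
    have hpos : ∀ v : Option V × Bool, v ≠ w → v ≠ w' → 0 < f (om t v) := by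
      intro v h1 h2
      rw [hfdef]
      have e1 : om t v - u ≠ 0 := by
        rw [hu, sub_ne_zero]
        exact fun h => h1 (om_inj t ht h)
      have e2 : om t v - z ≠ 0 := by
        rw [hz, sub_ne_zero]
        exact fun h => h2 (om_inj t ht h)
      positivity
    have hall : ∀ᶠ δ in 𝓝[>] (0 : ℝ), ∀ j : V,
        0 < (1 + δ) / 2 * (f (om t (some j, false)) + f (om t (some j, true))) -
          δ * f (t (σ j)) := by
      rw [eventually_all]
      intro j
      apply small
      have h1 := hnn (om t (some j, false))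
      have h2 := hnn (om t (some j, true))
      by_cases a1 : (some j, false) ≠ w ∧ (some j, false) ≠ w'
      · have := hpos _ a1.1 a1.2
        linarith
      · by_cases a2 : (some j, true) ≠ w ∧ (some j, true) ≠ w'
        · have := hpos _ a2.1 a2.2
          linarith
        · exfalso
          rw [not_and_or, not_not, not_not] at a1 a2
          rcases a1 with a1 | a1
          · rcases a2 with a2 | a2
            · rw [← a2] at a1
              simp at a1
            · exact hcase j (by rw [← a1]) (by rw [← a2])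
          · rcases a2 with a2 | a2
            · exact hcase j (by rw [← a2]) (by rw [← a1])
            · rw [← a2] at a1
              simp at a1
    filter_upwards [hall] with δ hδ
    obtain ⟨hr, hi⟩ := hl δ
    refine ⟨l, u ^ 2 * z ^ 2, ?_, ?_, ?_⟩
    · rw [hr w, hfdef, hu]
      simp
    · rw [hr w', hfdef, hz]
      simp
    · rintro (j | v) h1 h2
      · rw [hi j]
        exact hδ j
      · rw [hr v]
        exact hpos v (fun h => h1 (by rw [h])) (fun h => h2 (by rw [h]))

open FB Polynomial in
theorem fs : S_FS := by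
  intro V _ σ t hV ht δ l b hz
  have hdec : ∀ v : EuclideanSpace ℝ (Fin 4), v = v 0 • EuclideanSpace.single 0 1 +
      v 1 • EuclideanSpace.single 1 1 + v 2 • EuclideanSpace.single 2 1 +
      v 3 • EuclideanSpace.single 3 1 := by
    intro v
    ext i
    fin_cases i <;> simp
  set l0 := l (EuclideanSpace.single 0 1) with h0
  set l1 := l (EuclideanSpace.single 1 1) with h1
  set l2 := l (EuclideanSpace.single 2 1) with h2
  set l3 := l (EuclideanSpace.single 3 1) with h3
  have hlv : ∀ v : EuclideanSpace ℝ (Fin 4), l v = v 0 * l0 + v 1 * l1 + v 2 * l2 + v 3 * l3 := by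
    intro v
    conv_lhs => rw [hdec v]
    rw [map_add, map_add, map_add, map_smul, map_smul, map_smul, map_smul]
    rfl
  let q : ℝ[X] := C b + C l0 * X + C l1 * X ^ 2 + C l2 * X ^ 3 + C l3 * X ^ 4
  have hq : q = C b + C l0 * X + C l1 * X ^ 2 + C l2 * X ^ 3 + C l3 * X ^ 4 := rfl
  have heval : ∀ w : Option V × Bool, q.eval (om t w) = 0 := by
    intro w
    have := hz (Sum.inr w)
    have e : ptF σ t δ (Sum.inr w) = nu4 (om t w) := rfl
    rw [e, hlv] at this
    rw [hq]
    simp only [eval_add, eval_mul, eval_C, eval_X, eval_pow]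
    simp [nu4] at this
    linarith
  have hdeg : q.natDegree ≤ 4 := by
    rw [hq]
    compute_degree
  have hcard : q.natDegree < Fintype.card (Option V × Bool) := by
    rw [Fintype.card_prod, Fintype.card_option, Fintype.card_bool]
    omega
  have hq0 : q = 0 :=
    Polynomial.eq_zero_of_natDegree_lt_card_of_eval_eq_zero q (om_inj t ht) heval hcard
  have c1 : l0 = 0 := by
    have := congrArg (fun p => p.coeff 1) hq0
    simpa [hq, coeff_X, coeff_C] using this
  have c2 : l1 = 0 := by
    have := congrArg (fun p => p.coeff 2) hq0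
    simpa [hq, coeff_X, coeff_C] using this
  have c3 : l2 = 0 := by
    have := congrArg (fun p => p.coeff 3) hq0
    simpa [hq, coeff_X, coeff_C] using this
  have c4 : l3 = 0 := by
    have := congrArg (fun p => p.coeff 4) hq0
    simpa [hq, coeff_X, coeff_C] using this
  ext v
  rw [hlv, c1, c2, c3, c4]
  simp

end Pool.Agent.H126.DJ
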