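import Pool.Agent.H126.DJ.St

/-!
# DJ, statement FN: five-point quadrature on the moment curve in `ℝ^4`
-/

set_option autoImplicit false

open Filter Topology Polynomial

namespace Pool.Agent.H126.DJ

namespace FC

lemma nu4_eq (x : ℝ) : nu4 x = x • EuclideanSpace.single (0 : Fin 4) (1 : ℝ) +
    x ^ 2 • EuclideanSpace.single (1 : Fin 4) (1 : ℝ) +
    x ^ 3 • EuclideanSpace.single (2 : Fin 4) (1 : ℝ) +
    x ^ 4 • EuclideanSpace.single (3 : Fin 4) (1 : ℝ) := by
  ext k
  fin_cases k <;> simp [nu4]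

lemma exists_poly (l : EuclideanSpace ℝ (Fin 4) →L[ℝ] ℝ) (b : ℝ) :
    ∃ f : ℝ[X], f.natDegree ≤ 4 ∧ ∀ x, f.eval x = l (nu4 x) + b := by
  refine ⟨C b + C (l (EuclideanSpace.single (0 : Fin 4) (1 : ℝ))) * X +
    C (l (EuclideanSpace.single (1 : Fin 4) (1 : ℝ))) * X ^ 2 +
    C (l (EuclideanSpace.single (2 : Fin 4) (1 : ℝ))) * X ^ 3 +
    C (l (EuclideanSpace.single (3 : Fin 4) (1 : ℝ))) * X ^ 4, ?_, ?_⟩
  · compute_degree
  · intro x
    rw [nu4_eq x]
    simp only [map_add, map_smul, smul_eq_mul, eval_add, eval_mul, eval_C, eval_X, eval_pow]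
    ring

lemma interp (s : Finset ℝ) (hs : s.card = 5) (f : ℝ[X]) (hf : f.natDegree ≤ 4) (y : ℝ) :
    f.eval y = ∑ w ∈ s, (Lagrange.basis s id w).eval y * f.eval w := by
  have hdeg : f.degree < s.card := by
    rw [hs]
    exact lt_of_le_of_lt degree_le_natDegree (by exact_mod_cast Nat.lt_succ_of_le hf)
  have h := Lagrange.eq_interpolate (v := id) (s := s) (Set.injOn_id _) hdeg
  rw [Lagrange.interpolate_apply] at h
  conv_lhs => rw [h]
  rw [eval_finsetSum]
  refine Finset.sum_congr rfl fun w _ => ?_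
  rw [eval_mul, eval_C, mul_comm]
  rfl

lemma ev_pos (A c : ℝ) (hA : 0 < A) :
    ∀ᶠ δ in 𝓝[>] (0 : ℝ), 0 < A * ((1 + δ) / 2) - δ * c := by
  have hc : Tendsto (fun δ : ℝ => A * ((1 + δ) / 2) - δ * c) (𝓝[>] 0)
      (𝓝 (A * ((1 + 0) / 2) - 0 * c)) := by
    apply Tendsto.mono_left _ nhdsWithin_le_nhds
    exact Continuous.tendsto (by fun_prop) 0
  refine hc.eventually (lt_mem_nhds ?_)
  simp
  linarith

lemma abs_sq {x : ℝ} (h : 1 ≤ |x|) : 1 ≤ x ^ 2 := by
  rw [← sq_abs]
  nlinarith

lemma shift_pos {x : ℝ} (h : 1 ≤ |x|) : 0 < (x + 1 / 4) ^ 2 - 1 / 16 := by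
  rcases le_abs.mp h with h | h <;> nlinarith

end FC

open FC in
/-- FN -/
theorem fn : S_FN := by
  intro V _ σ t hσ ht i j hij hσi
  have hab : 1 ≤ |t (some i) - t (some j)| := ht _ _ (fun h => hij (Option.some_injective _ h))
  have hca : 1 ≤ |t none - t (some i)| := ht _ _ (by simp)
  have hcb : 1 ≤ |t none - t (some j)| := ht _ _ (by simp)
  have hom1 : om t (some i, false) = t (some i) - 1 / 4 := by simp [om]; ring
  have hom2 : om t (some i, true) = t (some i) + 1 / 4 := by simp [om]
  have hom3 : om t (some j, false) = t (some j) - 1 / 4 := by simp [om]; ring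
  have hom4 : om t (some j, true) = t (some j) + 1 / 4 := by simp [om]
  have hom5 : om t (none, true) = t none + 1 / 4 := by simp [om]
  have hpi : ∀ δ, ptF σ t δ (Sum.inl i) =
      ((1 + δ) / 2) • (nu4 (t (some i) - 1 / 4) + nu4 (t (some i) + 1 / 4)) -
      δ • nu4 (t (some j)) := by
    intro δ
    rw [← hσi]
    rfl
  have hpj : ∀ δ, ptF σ t δ (Sum.inl j) =
      ((1 + δ) / 2) • (nu4 (t (some j) - 1 / 4) + nu4 (t (some j) + 1 / 4)) -
      δ • nu4 (t (σ j)) := fun δ => rfl
  have hpw : ∀ δ w, ptF σ t δ (Sum.inr w) = nu4 (om t w) := fun δ w => rfl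
  generalize t (some i) = a at *
  generalize t (some j) = b at *
  generalize t none = c at *
  generalize t (σ j) = s at *
  -- the nodes
  have n12 : a - 1 / 4 ≠ a + 1 / 4 := by intro h; linarith
  have n34 : b - 1 / 4 ≠ b + 1 / 4 := by intro h; linarith
  have n13 : a - 1 / 4 ≠ b - 1 / 4 := by
    intro h
    have : a - b = 0 := by linarith
    rw [this] at hab
    norm_num at hab
  have n24 : a + 1 / 4 ≠ b + 1 / 4 := by
    intro h
    have : a - b = 0 := by linarith
    rw [this] at hab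
    norm_num at hab
  have n14 : a - 1 / 4 ≠ b + 1 / 4 := by
    intro h
    have : a - b = 1 / 2 := by linarith
    rw [this] at hab
    norm_num [abs_of_pos] at hab
  have n23 : a + 1 / 4 ≠ b - 1 / 4 := by
    intro h
    have : a - b = -(1 / 2) := by linarith
    rw [this] at hab
    norm_num [abs_of_pos] at hab
  have n15 : a - 1 / 4 ≠ c + 1 / 4 := by
    intro h
    have : c - a = -(1 / 2) := by linarith
    rw [this] at hca
    norm_num [abs_of_pos] at hca
  have n25 : a + 1 / 4 ≠ c + 1 / 4 := by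
    intro h
    have : c - a = 0 := by linarith
    rw [this] at hca
    norm_num at hca
  have n35 : b - 1 / 4 ≠ c + 1 / 4 := by
    intro h
    have : c - b = -(1 / 2) := by linarith
    rw [this] at hcb
    norm_num [abs_of_pos] at hcb
  have n45 : b + 1 / 4 ≠ c + 1 / 4 := by
    intro h
    have : c - b = 0 := by linarith
    rw [this] at hcb
    norm_num at hcb
  set S : Finset ℝ := {a - 1 / 4, a + 1 / 4, b - 1 / 4, b + 1 / 4, c + 1 / 4} with hS
  have hScard : S.card = 5 := by
    rw [hS, Finset.card_insert_of_notMem (by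
        simp only [Finset.mem_insert, Finset.mem_singleton, n12, n13, n14, n15, or_self, not_false_eq_true]),
      Finset.card_insert_of_notMem (by
        simp only [Finset.mem_insert, Finset.mem_singleton, n23, n24, n25, or_self, not_false_eq_true]),
      Finset.card_insert_of_notMem (by
        simp only [Finset.mem_insert, Finset.mem_singleton, n34, n35, or_self, not_false_eq_true]),
      Finset.card_insert_of_notMem (by
        simp only [Finset.mem_singleton, n45, not_false_eq_true]), Finset.card_singleton]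
  set B : ℝ → ℝ → ℝ := fun w y => (Lagrange.basis S id w).eval y with hBdef
  have hint : ∀ f : ℝ[X], f.natDegree ≤ 4 → ∀ y, f.eval y =
      B (a - 1 / 4) y * f.eval (a - 1 / 4) + (B (a + 1 / 4) y * f.eval (a + 1 / 4) +
      (B (b - 1 / 4) y * f.eval (b - 1 / 4) + (B (b + 1 / 4) y * f.eval (b + 1 / 4) +
      B (c + 1 / 4) y * f.eval (c + 1 / 4)))) := by
    intro f hf y
    rw [interp S hScard f hf y, hS, Finset.sum_insert (by
        simp only [Finset.mem_insert, Finset.mem_singleton, n12, n13, n14, n15, or_self, not_false_eq_true]),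
      Finset.sum_insert (by
        simp only [Finset.mem_insert, Finset.mem_singleton, n23, n24, n25, or_self, not_false_eq_true]), Finset.sum_insert (by
        simp only [Finset.mem_insert, Finset.mem_singleton, n34, n35, or_self, not_false_eq_true]),
      Finset.sum_insert (by
        simp only [Finset.mem_singleton, n45, not_false_eq_true]), Finset.sum_singleton]
  -- the polynomial `M_i M_j`
  set q : ℝ[X] := ((X - C a) ^ 2 - C (1 / 16)) * ((X - C b) ^ 2 - C (1 / 16)) with hq
  have hqd : q.natDegree ≤ 4 := by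
    rw [hq]
    compute_degree
  have hqe : ∀ y, q.eval y = ((y - a) ^ 2 - 1 / 16) * ((y - b) ^ 2 - 1 / 16) := by
    intro y
    rw [hq]
    simp
  have hBz : ∀ y, q.eval y = B (c + 1 / 4) y * q.eval (c + 1 / 4) := by
    intro y
    have h := hint q hqd y
    have e1 : q.eval (a - 1 / 4) = 0 := by rw [hqe]; ring
    have e2 : q.eval (a + 1 / 4) = 0 := by rw [hqe]; ring
    have e3 : q.eval (b - 1 / 4) = 0 := by rw [hqe]; ring
    have e4 : q.eval (b + 1 / 4) = 0 := by rw [hqe]; ring
    rw [e1, e2, e3, e4] at h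
    simpa using h
  have hqz : 0 < q.eval (c + 1 / 4) := by
    rw [hqe]
    have h1 := shift_pos hca
    have h2 := shift_pos hcb
    have e1 : c + 1 / 4 - a = c - a + 1 / 4 := by ring
    have e2 : c + 1 / 4 - b = c - b + 1 / 4 := by ring
    rw [e1, e2]
    exact mul_pos h1 h2
  have hqb : q.eval b < 0 := by
    rw [hqe]
    have h1 : 1 ≤ (a - b) ^ 2 := abs_sq hab
    have e1 : (b - a) ^ 2 = (a - b) ^ 2 := by ring
    rw [e1]
    nlinarith
  obtain ⟨β, hβ, hβq⟩ : ∃ β : ℝ, 0 < β ∧ q.eval b + β * q.eval s < 0 := by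
    have h0 : 0 < |q.eval s| + 1 := by positivity
    refine ⟨-q.eval b / (2 * (|q.eval s| + 1)), by
      apply div_pos (by linarith) (by linarith), ?_⟩
    have h1 : -q.eval b / (2 * (|q.eval s| + 1)) * q.eval s ≤ -q.eval b / 2 := by
      rw [div_mul_eq_mul_div, div_le_div_iff₀ (by linarith) (by norm_num)]
      have h2 : q.eval s ≤ |q.eval s| + 1 := by linarith [le_abs_self (q.eval s)]
      nlinarith [mul_le_mul_of_nonneg_left h2 (by linarith : (0:ℝ) ≤ -q.eval b)]
    linarith
  have hBzneg : B (c + 1 / 4) b + β * B (c + 1 / 4) s < 0 := by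
    have h1 : (B (c + 1 / 4) b + β * B (c + 1 / 4) s) * q.eval (c + 1 / 4) < 0 := by
      have e : (B (c + 1 / 4) b + β * B (c + 1 / 4) s) * q.eval (c + 1 / 4) =
          q.eval b + β * q.eval s := by
        rw [hBz b, hBz s]
        ring
      rw [e]
      exact hβq
    by_contra hcon
    push Not at hcon
    nlinarith [mul_nonneg hcon hqz.le]
  filter_upwards [ev_pos 1 (B (a - 1 / 4) b + β * B (a - 1 / 4) s) one_pos,
    ev_pos 1 (B (a + 1 / 4) b + β * B (a + 1 / 4) s) one_pos,
    ev_pos β (B (b - 1 / 4) b + β * B (b - 1 / 4) s) hβ,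
    ev_pos β (B (b + 1 / 4) b + β * B (b + 1 / 4) s) hβ,
    self_mem_nhdsWithin] with δ h1 h2 h3 h4 hδ
  have hδ0 : 0 < δ := hδ
  rintro ⟨l, b0, hi, hj, hpos⟩
  obtain ⟨f, hfd, hfe⟩ := exists_poly l b0
  rw [hpi] at hi
  rw [hpj] at hj
  have p1 : 0 < f.eval (a - 1 / 4) := by
    have := hpos (Sum.inr (some i, false)) (by simp) (by simp)
    rw [hpw, hom1] at this
    rw [hfe]
    exact this
  have p2 : 0 < f.eval (a + 1 / 4) := by
    have := hpos (Sum.inr (some i, true)) (by simp) (by simp)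
    rw [hpw, hom2] at this
    rw [hfe]
    exact this
  have p3 : 0 < f.eval (b - 1 / 4) := by
    have := hpos (Sum.inr (some j, false)) (by simp) (by simp)
    rw [hpw, hom3] at this
    rw [hfe]
    exact this
  have p4 : 0 < f.eval (b + 1 / 4) := by
    have := hpos (Sum.inr (some j, true)) (by simp) (by simp)
    rw [hpw, hom4] at this
    rw [hfe]
    exact this
  have p5 : 0 < f.eval (c + 1 / 4) := by
    have := hpos (Sum.inr (none, true)) (by simp) (by simp)
    rw [hpw, hom5] at this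
    rw [hfe]
    exact this
  have hi' : (1 + δ) / 2 * (f.eval (a - 1 / 4) + f.eval (a + 1 / 4)) - δ * f.eval b ≤ 0 := by
    simp only [map_sub, map_add, map_smul, smul_eq_mul] at hi
    rw [hfe, hfe, hfe]
    linarith
  have hj' : (1 + δ) / 2 * (f.eval (b - 1 / 4) + f.eval (b + 1 / 4)) - δ * f.eval s ≤ 0 := by
    simp only [map_sub, map_add, map_smul, smul_eq_mul] at hj
    rw [hfe, hfe, hfe]
    linarith
  rw [hint f hfd b] at hi'
  rw [hint f hfd s] at hj'
  have hj'' := mul_nonpos_of_nonneg_of_nonpos hβ.le hj'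
  have q1 := mul_pos h1 p1
  have q2 := mul_pos h2 p2
  have q3 := mul_pos h3 p3
  have q4 := mul_pos h4 p4
  have q5 := mul_pos (mul_pos hδ0 (neg_pos.mpr hBzneg)) p5
  linarith

end Pool.Agent.H126.DJ
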