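import Pool.Agent.H126.DJ.St

set_option autoImplicit false

namespace Pool.Agent.H126.DJ

open Set

namespace ISO

/-- Graph isomorphism of joins from a bijection of the second parts. -/
def congrW {V W W' : Type} (G : SimpleGraph V) (e : W ≃ W') : joinW G W ≃g joinW G W' where
  toEquiv := Equiv.sumCongr (Equiv.refl V) e
  map_rel_iff' := by
    intro x y
    constructor
    · rintro ⟨h1, h2⟩
      refine ⟨fun h => h1 (by rw [h]), fun u v hx hy => h2 u v ?_ ?_⟩
      · rw [hx]; rfl
      · rw [hy]; rfl
    · rintro ⟨h1, h2⟩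
      refine ⟨fun h => h1 ((Equiv.sumCongr (Equiv.refl V) e).injective h), fun u v hx hy => ?_⟩
      apply h2
      · rcases x with x | x
        · simpa using hx
        · exact absurd hx (by simp)
      · rcases y with y | y
        · simpa using hy
        · exact absurd hy (by simp)

/-- Associativity. -/
def assocW {V : Type} (G : SimpleGraph V) (W W' : Type) :
    joinW (joinW G W) W' ≃g joinW G (W ⊕ W') where
  toEquiv := Equiv.sumAssoc V W W'
  map_rel_iff' := by
    intro x y
    constructor
    · rintro ⟨h1, h2⟩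
      refine ⟨fun h => h1 (by rw [h]), fun u v hx hy => ⟨fun h => h1 (by rw [hx, hy, h]), ?_⟩⟩
      intro a b ha hb
      apply h2 a b
      · rw [hx, ha]; rfl
      · rw [hy, hb]; rfl
    · rintro ⟨h1, h2⟩
      refine ⟨fun h => h1 ((Equiv.sumAssoc V W W').injective h), fun u v hx hy => ?_⟩
      have hx' : x = Sum.inl (Sum.inl u) := (Equiv.sumAssoc V W W').injective hx
      have hy' : y = Sum.inl (Sum.inl v) := (Equiv.sumAssoc V W W').injective hy
      exact (h2 _ _ hx' hy').2 u v rfl rfl

end ISO

theorem iso : S_ISO := by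
  rintro d U U' H H' ⟨e⟩ ⟨P, p, hS, hint, hinj, hran, hadj⟩
  refine ⟨P, p ∘ e.symm, hS, hint, hinj.comp e.symm.injective, ?_, ?_⟩
  · rw [← hran]
    exact e.symm.surjective.range_comp p
  · intro u v
    rw [← e.symm.map_rel_iff, hadj]
    simp only [Function.comp_apply, ne_eq, EmbeddingLike.apply_eq_iff_eq]

theorem assoc : S_ASSOC :=
  ⟨fun _ _ _ G ⟨e⟩ => ⟨ISO.congrW G e⟩, fun _ W W' G => ⟨ISO.assocW G W W'⟩⟩

end Pool.Agent.H126.DJ
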