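import Pool.Agent.H126.DJ.St

/-! # DJ (helper126), O1 and O2: the explicit 3-polytope -/

set_option autoImplicit false

namespace Pool.Agent.H126.DJ

open Set Filter Topology

namespace OA

/-- the functional `v ↦ β v₀ + γ v₁ + α v₂` -/
noncomputable def fn (α β γ : ℝ) : EuclideanSpace ℝ (Fin 3) →L[ℝ] ℝ :=
  β • EuclideanSpace.proj 0 + γ • EuclideanSpace.proj 1 + α • EuclideanSpace.proj 2

theorem fn_apply (α β γ : ℝ) (v : EuclideanSpace ℝ (Fin 3)) :
    fn α β γ v = β * v 0 + γ * v 1 + α * v 2 := by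
  simp [fn]

variable {m : ℕ} {H : SimpleGraph (Fin m)}

open Classical in
theorem gw_ge (k : Fin m) : 1 ≤ gw m H k := by
  unfold gw
  have : 0 ≤ ∑ c : Fin m × Fin m, if c.1 < c.2 ∧ H.Adj c.1 c.2 then
      |((k.val : ℝ) - c.1.val) * ((k.val : ℝ) - c.2.val)| else 0 := by
    refine Finset.sum_nonneg fun c _ => ?_
    split_ifs
    · exact abs_nonneg _
    · exact le_rfl
  linarith

theorem gw_pos (k : Fin m) : 0 < gw m H k := lt_of_lt_of_le one_pos (gw_ge k)

theorem fn_inl (α β γ : ℝ) (k : Fin m) : fn α β γ (pO m H (Sum.inl k)) =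
    (β * k.val + γ * (k.val : ℝ) ^ 2 + α) / gw m H k := by
  rw [fn_apply]
  show β * ((gw m H k)⁻¹ * (k.val : ℝ)) + γ * ((gw m H k)⁻¹ * (k.val : ℝ) ^ 2) +
    α * ((gw m H k)⁻¹ * 1) = _
  rw [div_eq_mul_inv]
  ring

theorem fn_inr (α β γ : ℝ) (x : Fin 1) : fn α β γ (pO m H (Sum.inr x)) = 0 := by
  simp [pO]

theorem inr_eq (x : Fin 1) : (Sum.inr x : Fin m ⊕ Fin 1) = Sum.inr 0 := by
  rw [Subsingleton.elim x 0]

theorem efun_symm {d : ℕ} {U : Type} {p : U → EuclideanSpace ℝ (Fin d)} {x y : U}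
    (h : EFun p x y) : EFun p y x := by
  obtain ⟨l, b, h1, h2, h3⟩ := h
  exact ⟨l, b, h2, h1, fun z hz hz' => h3 z hz' hz⟩

theorem vec_eq (v : EuclideanSpace ℝ (Fin 3)) : v = v 0 • EuclideanSpace.single 0 (1 : ℝ) +
    v 1 • EuclideanSpace.single 1 (1 : ℝ) + v 2 • EuclideanSpace.single 2 (1 : ℝ) := by
  ext i
  fin_cases i <;> simp

/-- the product of an edge -/
noncomputable def qq (p : Fin m × Fin m) (k : Fin m) : ℝ :=
  ((k.val : ℝ) - p.1.val) * ((k.val : ℝ) - p.2.val)

/-- no edge separates the ends of another edge -/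
theorem same (hH : OHF m H) {a c : Fin m} (hac : a < c) (hadj : H.Adj a c) (p : Fin m × Fin m)
    (hp : p.1 < p.2 ∧ H.Adj p.1 p.2) :
    (0 ≤ qq p a ∧ 0 ≤ qq p c) ∨ (qq p a ≤ 0 ∧ qq p c ≤ 0) := by
  obtain ⟨a', c'⟩ := p
  obtain ⟨h1, h2⟩ := hp
  simp only at h1 h2
  have hac' : (a.val : ℝ) < c.val := by exact_mod_cast hac
  have h1' : (a'.val : ℝ) < c'.val := by exact_mod_cast h1
  unfold qq
  simp only
  by_contra hcon
  push Not at hcon
  obtain ⟨hc1, hc2⟩ := hcon
  rcases le_or_gt 0 (((a.val : ℝ) - a'.val) * ((a.val : ℝ) - c'.val)) with h | h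
  · have h3 := hc1 h
    -- `a' < c < c'`
    have h4 : (a'.val : ℝ) < c.val := by nlinarith
    have h5 : (c.val : ℝ) < c'.val := by nlinarith
    have h6 : ((a.val : ℝ) - a'.val) * ((a.val : ℝ) - c'.val) ≠ 0 := by
      intro h0
      have := hc2 h0.le
      linarith
    have h7 : (a.val : ℝ) < a'.val := by
      have h8 : (a.val : ℝ) - c'.val < 0 := by linarith
      by_contra h9
      have h10 : 0 ≤ (a.val : ℝ) - a'.val := by linarith
      have h11 := mul_nonpos_of_nonneg_of_nonpos h10 h8.le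
      exact h6 (le_antisymm h11 h)
    exact hH.2.2.2 a a' c c' (by exact_mod_cast h7) (by exact_mod_cast h4) (by exact_mod_cast h5)
      ⟨hadj, h2⟩
  · have h3 := hc2 h.le
    have h4 : (a'.val : ℝ) < a.val := by nlinarith
    have h5 : (a.val : ℝ) < c'.val := by nlinarith
    have h7 : (c'.val : ℝ) < c.val := by
      have h8 : 0 < (c.val : ℝ) - a'.val := by linarith
      have := (pos_iff_pos_of_mul_pos h3).1 h8
      linarith
    exact hH.2.2.2 a' a c' c (by exact_mod_cast h4) (by exact_mod_cast h5) (by exact_mod_cast h7)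
      ⟨h2, hadj⟩

open Classical in
/-- the signs -/
noncomputable def sg (H : SimpleGraph (Fin m)) (a c : Fin m) (p : Fin m × Fin m) : ℝ :=
  if (p.1 < p.2 ∧ H.Adj p.1 p.2) ∧ p ≠ (a, c) then
    (if 0 ≤ qq p a ∧ 0 ≤ qq p c then 1 else -1) else 0

theorem sg_abs (a c : Fin m) (p : Fin m × Fin m) : |sg H a c p| ≤ 1 := by
  unfold sg
  split_ifs <;> simp

open Classical in
theorem term_nonneg (a c : Fin m) (p : Fin m × Fin m) (k : Fin m) :
    0 ≤ (if p.1 < p.2 ∧ H.Adj p.1 p.2 then |qq p k| else 0) - sg H a c p * qq p k := by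
  by_cases h : p.1 < p.2 ∧ H.Adj p.1 p.2
  · rw [if_pos h]
    have h1 : sg H a c p * qq p k ≤ |qq p k| := by
      refine (le_abs_self _).trans ?_
      rw [abs_mul]
      exact mul_le_of_le_one_left (abs_nonneg _) (sg_abs a c p)
    linarith
  · rw [if_neg h]
    unfold sg
    rw [if_neg (fun h' => h h'.1)]
    simp

open Classical in
theorem term_zero (hH : OHF m H) {a c : Fin m} (hac : a < c) (hadj : H.Adj a c)
    (p : Fin m × Fin m) {k : Fin m} (hk : k = a ∨ k = c) :
    (if p.1 < p.2 ∧ H.Adj p.1 p.2 then |qq p k| else 0) - sg H a c p * qq p k = 0 := by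
  by_cases h : p.1 < p.2 ∧ H.Adj p.1 p.2
  · rw [if_pos h]
    by_cases hp : p = (a, c)
    · have h0 : qq p k = 0 := by
        rw [hp]
        unfold qq
        rcases hk with rfl | rfl <;> simp
      rw [h0]
      simp
    · unfold sg
      rw [if_pos ⟨h, hp⟩]
      have hs := same hH hac hadj p h
      by_cases hpos : 0 ≤ qq p a ∧ 0 ≤ qq p c
      · rw [if_pos hpos, one_mul]
        rcases hk with rfl | rfl
        · rw [abs_of_nonneg hpos.1, sub_self]
        · rw [abs_of_nonneg hpos.2, sub_self]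
      · rw [if_neg hpos]
        have hneg := hs.resolve_left hpos
        rcases hk with rfl | rfl
        · rw [abs_of_nonpos hneg.1]; ring
        · rw [abs_of_nonpos hneg.2]; ring
  · rw [if_neg h]
    unfold sg
    rw [if_neg (fun h' => h h'.1)]
    simp

open Classical in
theorem gw_sub (a c k : Fin m) :
    gw m H k - (1 + ∑ p : Fin m × Fin m, sg H a c p * qq p k) =
      ∑ p : Fin m × Fin m, ((if p.1 < p.2 ∧ H.Adj p.1 p.2 then |qq p k| else 0) -
        sg H a c p * qq p k) := by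
  rw [Finset.sum_sub_distrib]
  unfold gw qq
  ring

theorem quad (a c k : Fin m) :
    ((-∑ p : Fin m × Fin m, sg H a c p * ((p.1.val : ℝ) + p.2.val)) * k.val +
      (∑ p : Fin m × Fin m, sg H a c p) * (k.val : ℝ) ^ 2 +
      (1 + ∑ p : Fin m × Fin m, sg H a c p * ((p.1.val : ℝ) * p.2.val))) =
      1 + ∑ p : Fin m × Fin m, sg H a c p * qq p k := by
  have e : ∑ p : Fin m × Fin m, sg H a c p * qq p k =
      (-∑ p : Fin m × Fin m, sg H a c p * ((p.1.val : ℝ) + p.2.val)) * k.val +
      (∑ p : Fin m × Fin m, sg H a c p) * (k.val : ℝ) ^ 2 +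
      ∑ p : Fin m × Fin m, sg H a c p * ((p.1.val : ℝ) * p.2.val) := by
    rw [← Finset.sum_neg_distrib, Finset.sum_mul, Finset.sum_mul, ← Finset.sum_add_distrib,
      ← Finset.sum_add_distrib]
    refine Finset.sum_congr rfl fun p _ => ?_
    unfold qq
    ring
  rw [e]
  ring

theorem efun_lt (hH : OHF m H) {a c : Fin m} (hac : a < c) (hadj : H.Adj a c) :
    EFun (pO m H) (Sum.inl a) (Sum.inl c) := by
  classical
  obtain ⟨β, hβ⟩ : ∃ β : ℝ, β = -∑ p : Fin m × Fin m, sg H a c p * ((p.1.val : ℝ) + p.2.val) :=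
    ⟨_, rfl⟩
  obtain ⟨γ, hγ⟩ : ∃ γ : ℝ, γ = ∑ p : Fin m × Fin m, sg H a c p := ⟨_, rfl⟩
  obtain ⟨α, hα⟩ : ∃ α : ℝ, α = 1 + ∑ p : Fin m × Fin m, sg H a c p * ((p.1.val : ℝ) * p.2.val) :=
    ⟨_, rfl⟩
  have hval : ∀ k : Fin m, fn (-α) (-β) (-γ) (pO m H (Sum.inl k)) + 1 =
      (∑ p : Fin m × Fin m, ((if p.1 < p.2 ∧ H.Adj p.1 p.2 then |qq p k| else 0) -
        sg H a c p * qq p k)) / gw m H k := by
    intro k
    rw [fn_inl, ← gw_sub, ← quad, ← hα, ← hβ, ← hγ]
    have := (gw_pos (H := H) k).ne'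
    field_simp
    ring
  refine ⟨fn (-α) (-β) (-γ), 1, ?_, ?_, ?_⟩
  · rw [hval, Finset.sum_eq_zero fun p _ => term_zero hH hac hadj p (Or.inl rfl), zero_div]
  · rw [hval, Finset.sum_eq_zero fun p _ => term_zero hH hac hadj p (Or.inr rfl), zero_div]
  · rintro (k | x) hz hz'
    · have hka : k ≠ a := fun h => hz (by rw [h])
      have hkc : k ≠ c := fun h => hz' (by rw [h])
      rw [hval]
      apply div_pos _ (gw_pos k)
      refine Finset.sum_pos' (fun p _ => term_nonneg a c p k) ⟨(a, c), Finset.mem_univ _, ?_⟩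
      rw [if_pos ⟨hac, hadj⟩]
      unfold sg
      rw [if_neg (fun h => h.2 rfl), zero_mul, sub_zero]
      refine abs_pos.2 (mul_ne_zero ?_ ?_)
      · simp only
        rw [sub_ne_zero]
        exact_mod_cast fun h => hka (Fin.ext h)
      · simp only
        rw [sub_ne_zero]
        exact_mod_cast fun h => hkc (Fin.ext h)
    · rw [fn_inr]
      norm_num

end OA

open OA

/-- **O1.** -/
theorem o1 : S_O1 := by
  intro m H hH
  refine ⟨?_, ?_, ?_⟩
  · intro l b hl
    have hb : b = 0 := by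
      have := hl (Sum.inr 0)
      simpa [pO] using this
    have hk : ∀ k : Fin m, (k.val : ℝ) * l (EuclideanSpace.single 0 (1 : ℝ)) +
        (k.val : ℝ) ^ 2 * l (EuclideanSpace.single 1 (1 : ℝ)) +
        l (EuclideanSpace.single 2 (1 : ℝ)) = 0 := by
      intro k
      have h1 := hl (Sum.inl k)
      rw [hb, add_zero] at h1
      simp only [pO, map_smul, smul_eq_mul] at h1
      have h2 := (mul_eq_zero.1 h1).resolve_left (inv_ne_zero (gw_pos k).ne')
      rw [vec_eq (!₂[(k.val : ℝ), (k.val : ℝ) ^ 2, 1] : EuclideanSpace ℝ (Fin 3)), map_add, map_add,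
        map_smul, map_smul, map_smul] at h2
      have e0 : (!₂[(k.val : ℝ), (k.val : ℝ) ^ 2, 1] : EuclideanSpace ℝ (Fin 3)) 0 = k.val := rfl
      have e1 : (!₂[(k.val : ℝ), (k.val : ℝ) ^ 2, 1] : EuclideanSpace ℝ (Fin 3)) 1 =
        (k.val : ℝ) ^ 2 := rfl
      have e2 : (!₂[(k.val : ℝ), (k.val : ℝ) ^ 2, 1] : EuclideanSpace ℝ (Fin 3)) 2 = 1 := rfl
      rw [e0, e1, e2, one_smul] at h2
      exact h2
    have hm := hH.1
    have k0 := hk ⟨0, by omega⟩
    have k1 := hk ⟨1, by omega⟩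
    have k2 := hk ⟨2, by omega⟩
    simp only [Nat.cast_zero, Nat.cast_one, Nat.cast_ofNat] at k0 k1 k2
    have l2 : l (EuclideanSpace.single 2 (1 : ℝ)) = 0 := by linarith
    have l1 : l (EuclideanSpace.single 1 (1 : ℝ)) = 0 := by linarith
    have l0 : l (EuclideanSpace.single 0 (1 : ℝ)) = 0 := by linarith
    ext v
    rw [vec_eq v, map_add, map_add, map_smul, map_smul, map_smul, l0, l1, l2]
    simp
  · rintro (k | x)
    · refine ⟨fn (gw m H k * (k.val : ℝ) ^ 2 - gw m H k) (-(2 * gw m H k * k.val)) (gw m H k), 1,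
        ?_, ?_⟩
      · rw [fn_inl]
        have := (gw_pos (H := H) k).ne'
        apply le_of_eq
        field_simp
        ring
      · rintro (j | y) hz
        · have hjk : j ≠ k := fun h => hz (by rw [h])
          rw [fn_inl]
          have hj := gw_pos (H := H) j
          have hk := gw_pos (H := H) k
          have h1 : (1 : ℝ) ≤ ((j.val : ℝ) - k.val) ^ 2 := by
            have h2 : ((j.val : ℤ) - k.val) ≠ 0 := by
              intro h0
              exact hjk (Fin.ext (by omega))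
            have h3 : (1 : ℤ) ≤ ((j.val : ℤ) - k.val) ^ 2 := by
              have := sq_pos_of_ne_zero h2
              omega
            exact_mod_cast h3
          have e : (-(2 * gw m H k * k.val) * (j.val : ℝ) + gw m H k * (j.val : ℝ) ^ 2 +
              (gw m H k * (k.val : ℝ) ^ 2 - gw m H k)) / gw m H j + 1 =
              (gw m H k * (((j.val : ℝ) - k.val) ^ 2 - 1) + gw m H j) / gw m H j := by
            field_simp
            ring
          rw [e]
          apply div_pos _ hj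
          have : 0 ≤ gw m H k * (((j.val : ℝ) - k.val) ^ 2 - 1) :=
            mul_nonneg hk.le (by linarith)
          linarith
        · rw [fn_inr]
          norm_num
    · refine ⟨fn 1 0 0, 0, ?_, ?_⟩
      · rw [fn_inr]
        norm_num
      · rintro (j | y) hz
        · rw [fn_inl]
          have hj := gw_pos (H := H) j
          have : (0 * (j.val : ℝ) + 0 * (j.val : ℝ) ^ 2 + 1) / gw m H j + 0 = 1 / gw m H j := by
            ring
          rw [this]
          positivity
        · exact absurd (by rw [inr_eq y, inr_eq x]) hz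
  · intro k
    refine ⟨fn ((k.val : ℝ) ^ 2) (-(2 * k.val)) 1, 0, ?_, ?_, ?_⟩
    · rw [fn_inl]
      apply le_of_eq
      ring
    · rw [fn_inr]
      norm_num
    · rintro (j | y) hz hz'
      · have hjk : j ≠ k := fun h => hz (by rw [h])
        rw [fn_inl]
        have hj := gw_pos (H := H) j
        have e : (-(2 * (k.val : ℝ)) * (j.val : ℝ) + 1 * (j.val : ℝ) ^ 2 + (k.val : ℝ) ^ 2) /
            gw m H j + 0 = ((j.val : ℝ) - k.val) ^ 2 / gw m H j := by
          ring
        rw [e]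
        have h1 : (j.val : ℝ) - k.val ≠ 0 := by
          rw [sub_ne_zero]
          exact_mod_cast fun h => hjk (Fin.ext h)
        positivity
      · exact absurd (inr_eq y) hz'

/-- **O2.** -/
theorem o2 : S_O2 := by
  intro m H hH a c hadj
  rcases lt_trichotomy a c with h | h | h
  · exact efun_lt hH h hadj
  · exact absurd h hadj.ne
  · exact efun_symm (efun_lt hH h hadj.symm)

end Pool.Agent.H126.DJ
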