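import Pool.Agent.H126.DJ.St

set_option autoImplicit false

/-!
# O3: the explicit 3-polytope, non-edges
-/

namespace Pool.Agent.H126.DJ

open Set

namespace OB

/-- The combinatorial claim: there are neighbours `k`, `l` of `a` on the two sides of `c` which are
not separated by any edge. -/
theorem nbrs (m : ℕ) (H : SimpleGraph (Fin m)) (hO : OHF m H) (a c : Fin m) (hac : a < c)
    (hn : ¬ H.Adj a c) : ∃ k l : Fin m, ((a < k ∧ k < c ∧ c < l) ∨ (l < a ∧ a < k ∧ k < c)) ∧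
      ∀ a' c' : Fin m, a' < c' → H.Adj a' c' →
        ¬ (a' < k ∧ k < c' ∧ (l < a' ∨ c' < l)) ∧ ¬ (a' < l ∧ l < c' ∧ (k < a' ∨ c' < k)) := by
  classical
  obtain ⟨hm, hcons, hends, hcross⟩ := hO
  have hcross' : ∀ a b c d : Fin m, a < b → b < c → c < d → H.Adj a c → H.Adj b d → False :=
    fun a b c d h1 h2 h3 h4 h5 => hcross a b c d h1 h2 h3 ⟨h4, h5⟩
  have hacv : a.val < c.val := hac
  have hcm := c.isLt
  -- the neighbour `k`
  have hk : ∃ k : Fin m, (a < k ∧ k < c ∧ H.Adj a k) ∧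
      ∀ x, a < x → x < c → H.Adj a x → x ≤ k := by
    have hne : (Finset.univ.filter fun x : Fin m => a < x ∧ x < c ∧ H.Adj a x).Nonempty := by
      have h1 : a.val + 1 < m := by omega
      have h2 : H.Adj a ⟨a.val + 1, h1⟩ := hcons a ⟨a.val + 1, h1⟩ rfl
      refine ⟨⟨a.val + 1, h1⟩, ?_⟩
      rw [Finset.mem_filter]
      refine ⟨Finset.mem_univ _, ?_, ?_, h2⟩
      · rw [Fin.lt_def]; simp
      · rw [Fin.lt_def]
        have h3 : a.val + 1 ≠ c.val := by
          intro h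
          apply hn
          have : (⟨a.val + 1, h1⟩ : Fin m) = c := Fin.ext h
          rwa [this] at h2
        simp only
        omega
    obtain ⟨k, hk1, hk2⟩ := Finset.exists_max_image _ (fun x : Fin m => x) hne
    rw [Finset.mem_filter] at hk1
    refine ⟨k, hk1.2, fun x h1 h2 h3 => hk2 x ?_⟩
    rw [Finset.mem_filter]
    exact ⟨Finset.mem_univ _, h1, h2, h3⟩
  obtain ⟨k, ⟨hk1, hk2, hk3⟩, hk4⟩ := hk
  by_cases hb : ∃ x, c < x ∧ H.Adj a x
  · -- a neighbour after `c`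
    have hne : (Finset.univ.filter fun x : Fin m => c < x ∧ H.Adj a x).Nonempty := by
      obtain ⟨x, hx⟩ := hb
      exact ⟨x, Finset.mem_filter.2 ⟨Finset.mem_univ _, hx⟩⟩
    obtain ⟨l, hl1, hl2⟩ := Finset.exists_min_image _ (fun x : Fin m => x) hne
    rw [Finset.mem_filter] at hl1
    obtain ⟨-, hl1, hl3⟩ := hl1
    have hl4 : ∀ x, c < x → H.Adj a x → l ≤ x := fun x h1 h2 =>
      hl2 x (Finset.mem_filter.2 ⟨Finset.mem_univ _, h1, h2⟩)
    refine ⟨k, l, Or.inl ⟨hk1, hk2, hl1⟩, fun a' c' hac' hadj => ⟨?_, ?_⟩⟩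
    · rintro ⟨h1, h2, h3⟩
      have h4 : c' < l := by
        rcases h3 with h3 | h3
        · exfalso
          exact absurd (h1.trans (hk2.trans hl1)) (not_lt.2 h3.le)
        · exact h3
      rcases lt_trichotomy a' a with h5 | h5 | h5
      · exact hcross' a' a c' l h5 (hk1.trans h2) h4 hadj hl3
      · subst h5
        rcases lt_trichotomy c' c with h6 | h6 | h6
        · exact absurd (hk4 c' (hk1.trans h2) h6 hadj) (not_le.2 h2)
        · subst h6
          exact hn hadj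
        · exact absurd (hl4 c' h6 hadj) (not_le.2 h4)
      · exact hcross' a a' k c' h5 h1 h2 hk3 hadj
    · rintro ⟨h1, h2, h3⟩
      have h4 : k < a' := by
        rcases h3 with h3 | h3
        · exact h3
        · exfalso
          exact absurd ((hk2.trans hl1).trans h2) (not_lt.2 h3.le)
      exact hcross' a a' l c' (hk1.trans h4) h1 h2 hl3 hadj
  · -- no neighbour after `c`
    have hno : ∀ x, c < x → ¬ H.Adj a x := fun x h1 h2 => hb ⟨x, h1, h2⟩
    have ha0 : 0 < a.val := by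
      by_contra h0
      have h0' : a.val = 0 := by omega
      have h1 : m - 1 < m := by omega
      have h2 : H.Adj a ⟨m - 1, h1⟩ := hends a ⟨m - 1, h1⟩ h0' (by simp only; omega)
      by_cases h3 : c.val = m - 1
      · have : (⟨m - 1, h1⟩ : Fin m) = c := Fin.ext h3.symm
        rw [this] at h2
        exact hn h2
      · refine hno _ ?_ h2
        rw [Fin.lt_def]
        simp only
        omega
    have hne : (Finset.univ.filter fun x : Fin m => x < a ∧ H.Adj a x).Nonempty := by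
      have h1 : a.val - 1 < m := by omega
      refine ⟨⟨a.val - 1, h1⟩, Finset.mem_filter.2 ⟨Finset.mem_univ _, ?_, ?_⟩⟩
      · rw [Fin.lt_def]
        simp only
        omega
      · exact (hcons ⟨a.val - 1, h1⟩ a (by simp only; omega)).symm
    obtain ⟨l, hl1, hl2⟩ := Finset.exists_min_image _ (fun x : Fin m => x) hne
    rw [Finset.mem_filter] at hl1
    obtain ⟨-, hl1, hl3⟩ := hl1
    have hl4 : ∀ x, x < a → H.Adj a x → l ≤ x := fun x h1 h2 =>
      hl2 x (Finset.mem_filter.2 ⟨Finset.mem_univ _, h1, h2⟩)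
    refine ⟨k, l, Or.inr ⟨hl1, hk1, hk2⟩, fun a' c' hac' hadj => ⟨?_, ?_⟩⟩
    · rintro ⟨h1, h2, h3⟩
      have h4 : l < a' := by
        rcases h3 with h3 | h3
        · exact h3
        · exfalso
          exact absurd ((hl1.trans hk1).trans h2) (not_lt.2 h3.le)
      rcases lt_trichotomy a' a with h5 | h5 | h5
      · exact hcross' l a' a c' h4 h5 (hk1.trans h2) hl3.symm hadj
      · subst h5
        rcases lt_trichotomy c' c with h6 | h6 | h6
        · exact absurd (hk4 c' (hk1.trans h2) h6 hadj) (not_le.2 h2)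
        · subst h6
          exact hn hadj
        · exact hno c' h6 hadj
      · exact hcross' a a' k c' h5 h1 h2 hk3 hadj
    · rintro ⟨h1, h2, h3⟩
      have h4 : c' < k := by
        rcases h3 with h3 | h3
        · exfalso
          exact absurd (h1.trans (hl1.trans hk1)) (not_lt.2 h3.le)
        · exact h3
      rcases lt_trichotomy c' a with h5 | h5 | h5
      · exact hcross' a' l c' a h1 h2 h5 hadj hl3.symm
      · subst h5
        exact absurd (hl4 a' hac' hadj.symm) (not_le.2 h1)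
      · exact hcross' a' a c' k (h1.trans hl1) h5 h4 hadj hk3

/-- Third divided difference. -/
theorem divdiff {x₀ x₁ x₂ x₃ : ℝ} (h1 : x₀ < x₁) (h2 : x₁ < x₂) (h3 : x₂ < x₃) :
    ∃ m₀ m₁ m₂ m₃ : ℝ, 0 < m₀ ∧ 0 < m₁ ∧ 0 < m₂ ∧ 0 < m₃ ∧ ∀ α β γ : ℝ,
      m₀ * (α + β * x₀ + γ * x₀ ^ 2) + m₂ * (α + β * x₂ + γ * x₂ ^ 2) =
        m₁ * (α + β * x₁ + γ * x₁ ^ 2) + m₃ * (α + β * x₃ + γ * x₃ ^ 2) := by
  have e1 : 0 < x₁ - x₀ := by linarith
  have e2 : 0 < x₂ - x₀ := by linarith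
  have e3 : 0 < x₃ - x₀ := by linarith
  have e4 : 0 < x₂ - x₁ := by linarith
  have e5 : 0 < x₃ - x₁ := by linarith
  have e6 : 0 < x₃ - x₂ := by linarith
  refine ⟨(x₂ - x₁) * (x₃ - x₁) * (x₃ - x₂), (x₂ - x₀) * (x₃ - x₀) * (x₃ - x₂),
    (x₁ - x₀) * (x₃ - x₀) * (x₃ - x₁), (x₁ - x₀) * (x₂ - x₀) * (x₂ - x₁), by positivity,
    by positivity, by positivity, by positivity, fun α β γ => ?_⟩
  ring

theorem divdiff' {a c k l : ℝ} (h : (a < k ∧ k < c ∧ c < l) ∨ (l < a ∧ a < k ∧ k < c)) :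
    ∃ ma mc mk ml : ℝ, 0 < ma ∧ 0 < mc ∧ 0 < mk ∧ 0 < ml ∧ ∀ α β γ : ℝ,
      ma * (α + β * a + γ * a ^ 2) + mc * (α + β * c + γ * c ^ 2) =
        mk * (α + β * k + γ * k ^ 2) + ml * (α + β * l + γ * l ^ 2) := by
  rcases h with ⟨h1, h2, h3⟩ | ⟨h1, h2, h3⟩
  · obtain ⟨m₀, m₁, m₂, m₃, p0, p1, p2, p3, h⟩ := divdiff h1 h2 h3
    exact ⟨m₀, m₂, m₁, m₃, p0, p2, p1, p3, h⟩
  · obtain ⟨m₀, m₁, m₂, m₃, p0, p1, p2, p3, h⟩ := divdiff h1 h2 h3
    refine ⟨m₁, m₃, m₂, m₀, p1, p3, p2, p0, fun α β γ => ?_⟩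
    rw [← h α β γ]
    ring

theorem abs_comb {ma mc mk ml qa qc qk ql : ℝ} (pa : 0 < ma) (pc : 0 < mc) (h : ma * qa + mc * qc = mk * qk + ml * ql)
    (hs : (0 ≤ qk ∧ 0 ≤ ql) ∨ (qk ≤ 0 ∧ ql ≤ 0)) :
    mk * |qk| + ml * |ql| ≤ ma * |qa| + mc * |qc| := by
  have h1 : ma * qa ≤ ma * |qa| := mul_le_mul_of_nonneg_left (le_abs_self _) pa.le
  have h2 : mc * qc ≤ mc * |qc| := mul_le_mul_of_nonneg_left (le_abs_self _) pc.le
  have h3 : ma * (-qa) ≤ ma * |qa| := mul_le_mul_of_nonneg_left (neg_le_abs _) pa.le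
  have h4 : mc * (-qc) ≤ mc * |qc| := mul_le_mul_of_nonneg_left (neg_le_abs _) pc.le
  rcases hs with ⟨s1, s2⟩ | ⟨s1, s2⟩
  · rw [abs_of_nonneg s1, abs_of_nonneg s2]
    linarith
  · rw [abs_of_nonpos s1, abs_of_nonpos s2]
    linarith

theorem sign_lem {a' c' k l : ℝ} (hac : a' < c')
    (h : ¬ (a' < k ∧ k < c' ∧ (l < a' ∨ c' < l)) ∧ ¬ (a' < l ∧ l < c' ∧ (k < a' ∨ c' < k))) :
    (0 ≤ (k - a') * (k - c') ∧ 0 ≤ (l - a') * (l - c')) ∨
      ((k - a') * (k - c') ≤ 0 ∧ (l - a') * (l - c') ≤ 0) := by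
  have key : ∀ t : ℝ, ((t ≤ a' ∨ c' ≤ t) → 0 ≤ (t - a') * (t - c')) ∧
      (a' ≤ t → t ≤ c' → (t - a') * (t - c') ≤ 0) := by
    intro t
    constructor
    · rintro (h | h)
      · exact mul_nonneg_of_nonpos_of_nonpos (by linarith) (by linarith)
      · exact mul_nonneg (by linarith) (by linarith)
    · intro h1 h2
      exact mul_nonpos_of_nonneg_of_nonpos (by linarith) (by linarith)
  by_cases h1 : a' < k ∧ k < c'
  · right
    have h2 : a' ≤ l ∧ l ≤ c' := by
      constructor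
      · by_contra h3
        exact h.1 ⟨h1.1, h1.2, Or.inl (not_le.1 h3)⟩
      · by_contra h3
        exact h.1 ⟨h1.1, h1.2, Or.inr (not_le.1 h3)⟩
    exact ⟨(key k).2 h1.1.le h1.2.le, (key l).2 h2.1 h2.2⟩
  · by_cases h2 : a' < l ∧ l < c'
    · right
      have h3 : a' ≤ k ∧ k ≤ c' := by
        constructor
        · by_contra h3
          exact h.2 ⟨h2.1, h2.2, Or.inl (not_le.1 h3)⟩
        · by_contra h3
          exact h.2 ⟨h2.1, h2.2, Or.inr (not_le.1 h3)⟩
      exact ⟨(key k).2 h3.1 h3.2, (key l).2 h2.1.le h2.2.le⟩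
    · left
      constructor
      · refine (key k).1 ?_
        by_contra h3
        push Not at h3
        exact h1 ⟨h3.1, h3.2⟩
      · refine (key l).1 ?_
        by_contra h3
        push Not at h3
        exact h2 ⟨h3.1, h3.2⟩

open Classical in
/-- The contribution of the pair `e` to the weight. -/
noncomputable def et (m : ℕ) (H : SimpleGraph (Fin m)) (k : Fin m) (c : Fin m × Fin m) : ℝ :=
  if c.1 < c.2 ∧ H.Adj c.1 c.2 then
    |((k.val : ℝ) - c.1.val) * ((k.val : ℝ) - c.2.val)| else 0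

theorem gw_eq (m : ℕ) (H : SimpleGraph (Fin m)) (k : Fin m) :
    gw m H k = 1 + ∑ c : Fin m × Fin m, et m H k c := rfl

theorem et_pos (m : ℕ) (H : SimpleGraph (Fin m)) (k : Fin m) (c : Fin m × Fin m)
    (h : c.1 < c.2 ∧ H.Adj c.1 c.2) :
    et m H k c = |((k.val : ℝ) - c.1.val) * ((k.val : ℝ) - c.2.val)| := by
  unfold et
  rw [if_pos h]

theorem et_neg (m : ℕ) (H : SimpleGraph (Fin m)) (k : Fin m) (c : Fin m × Fin m)
    (h : ¬ (c.1 < c.2 ∧ H.Adj c.1 c.2)) : et m H k c = 0 := by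
  unfold et
  rw [if_neg h]

theorem gw_pos (m : ℕ) (H : SimpleGraph (Fin m)) (k : Fin m) : 0 < gw m H k := by
  rw [gw_eq]
  have : 0 ≤ ∑ c : Fin m × Fin m, et m H k c := by
    refine Finset.sum_nonneg fun c _ => ?_
    by_cases h : c.1 < c.2 ∧ H.Adj c.1 c.2
    · rw [et_pos m H k c h]
      exact abs_nonneg _
    · rw [et_neg m H k c h]
  linarith

theorem lin3 (l : EuclideanSpace ℝ (Fin 3) →L[ℝ] ℝ) (x y z : ℝ) :
    l !₂[x, y, z] = x * l !₂[1, 0, 0] + y * l !₂[0, 1, 0] + z * l !₂[0, 0, 1] := by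
  have h : (!₂[x, y, z] : EuclideanSpace ℝ (Fin 3)) =
      x • !₂[1, 0, 0] + y • !₂[0, 1, 0] + z • !₂[0, 0, 1] := by
    ext i
    fin_cases i <;> simp
  rw [h, map_add, map_add, map_smul, map_smul, map_smul]
  simp only [smul_eq_mul]

theorem gw_ineq (m : ℕ) (H : SimpleGraph (Fin m)) (a c k l : Fin m) {ma mc mk ml : ℝ}
    (pa : 0 < ma) (pc : 0 < mc)
    (h : ∀ α β γ : ℝ, ma * (α + β * (a.val : ℝ) + γ * (a.val : ℝ) ^ 2) +
      mc * (α + β * (c.val : ℝ) + γ * (c.val : ℝ) ^ 2) =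
        mk * (α + β * (k.val : ℝ) + γ * (k.val : ℝ) ^ 2) +
          ml * (α + β * (l.val : ℝ) + γ * (l.val : ℝ) ^ 2))
    (hs : ∀ a' c' : Fin m, a' < c' → H.Adj a' c' →
        ¬ (a' < k ∧ k < c' ∧ (l < a' ∨ c' < l)) ∧ ¬ (a' < l ∧ l < c' ∧ (k < a' ∨ c' < k))) :
    mk * gw m H k + ml * gw m H l ≤ ma * gw m H a + mc * gw m H c := by
  rw [gw_eq, gw_eq, gw_eq, gw_eq]
  have h1 : mk + ml = ma + mc := by
    have := h 1 0 0
    linarith
  simp only [mul_add, mul_one, Finset.mul_sum]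
  have key : ∀ e : Fin m × Fin m,
      mk * et m H k e + ml * et m H l e ≤ ma * et m H a e + mc * et m H c e := by
    intro e
    by_cases he : e.1 < e.2 ∧ H.Adj e.1 e.2
    · rw [et_pos m H _ e he, et_pos m H _ e he, et_pos m H _ e he, et_pos m H _ e he]
      refine abs_comb pa pc ?_ ?_
      · have := h ((e.1.val : ℝ) * e.2.val) (-((e.1.val : ℝ) + e.2.val)) 1
        linarith
      · refine sign_lem ?_ ?_
        · exact_mod_cast he.1
        · have := hs e.1 e.2 he.1 he.2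
          simp only [Fin.lt_def] at this
          simpa only [Nat.cast_lt] using this
    · rw [et_neg m H _ e he, et_neg m H _ e he, et_neg m H _ e he, et_neg m H _ e he]
      simp
  have hsum := Finset.sum_le_sum fun (e : Fin m × Fin m) (_ : e ∈ Finset.univ) => key e
  rw [Finset.sum_add_distrib, Finset.sum_add_distrib] at hsum
  linarith

end OB

open OB in
theorem o3 : S_O3 := by
  rintro m H hO a c hac hn ⟨L, b, h1, h2, h3⟩
  obtain ⟨k, l, hord, hsep⟩ := nbrs m H hO a c hac hn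
  have hordR : ((a.val : ℝ) < k.val ∧ (k.val : ℝ) < c.val ∧ (c.val : ℝ) < l.val) ∨
      ((l.val : ℝ) < a.val ∧ (a.val : ℝ) < k.val ∧ (k.val : ℝ) < c.val) := by
    simp only [Fin.lt_def] at hord
    simpa only [Nat.cast_lt] using hord
  obtain ⟨ma, mc, mk, ml, pa, pc, pk, pl, hdd⟩ := divdiff' hordR
  have hgw := gw_ineq m H a c k l pa pc hdd hsep
  have hka : k ≠ a := by
    rintro rfl
    rcases hord with h | h
    · exact lt_irrefl _ h.1
    · exact lt_irrefl _ h.2.1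
  have hkc : k ≠ c := by
    rintro rfl
    rcases hord with h | h
    · exact lt_irrefl _ h.2.1
    · exact lt_irrefl _ h.2.2
  have hla : l ≠ a := by
    rintro rfl
    rcases hord with h | h
    · exact lt_irrefl _ (h.1.trans (h.2.1.trans h.2.2))
    · exact lt_irrefl _ h.1
  have hlc : l ≠ c := by
    rintro rfl
    rcases hord with h | h
    · exact lt_irrefl _ h.2.2
    · exact lt_irrefl _ (h.1.trans (h.2.1.trans h.2.2))
  -- `b > 0`
  have hb : 0 < b := by
    have := h3 (Sum.inr 0) (by simp) (by simp)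
    simpa [pO] using this
  -- the value at `inl j`
  have hval : ∀ j : Fin m, L (pO m H (Sum.inl j)) + b =
      (gw m H j)⁻¹ * (L !₂[0, 0, 1] + L !₂[1, 0, 0] * (j.val : ℝ)
        + L !₂[0, 1, 0] * (j.val : ℝ) ^ 2 + b * gw m H j) := by
    intro j
    have hg := gw_pos m H j
    show L ((gw m H j)⁻¹ • !₂[(j.val : ℝ), (j.val : ℝ) ^ 2, 1]) + b = _
    rw [map_smul, lin3 L (j.val : ℝ) ((j.val : ℝ) ^ 2) 1, smul_eq_mul]
    field_simp
    ring
  have hle : ∀ j : Fin m, L (pO m H (Sum.inl j)) + b ≤ 0 →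
      L !₂[0, 0, 1] + L !₂[1, 0, 0] * (j.val : ℝ) + L !₂[0, 1, 0] * (j.val : ℝ) ^ 2
        + b * gw m H j ≤ 0 := by
    intro j hj
    rw [hval j] at hj
    by_contra hcon
    push Not at hcon
    have := mul_pos (inv_pos.2 (gw_pos m H j)) hcon
    linarith
  have hgt : ∀ j : Fin m, 0 < L (pO m H (Sum.inl j)) + b →
      0 < L !₂[0, 0, 1] + L !₂[1, 0, 0] * (j.val : ℝ) + L !₂[0, 1, 0] * (j.val : ℝ) ^ 2
        + b * gw m H j := by
    intro j hj
    rw [hval j] at hj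
    by_contra hcon
    push Not at hcon
    have := mul_nonpos_of_nonneg_of_nonpos (inv_pos.2 (gw_pos m H j)).le hcon
    linarith
  have va := hle a h1
  have vc := hle c h2
  have vk := hgt k (h3 (Sum.inl k) (by simpa using hka) (by simpa using hkc))
  have vl := hgt l (h3 (Sum.inl l) (by simpa using hla) (by simpa using hlc))
  have hd := hdd (L !₂[0, 0, 1]) (L !₂[1, 0, 0]) (L !₂[0, 1, 0])
  have t1 := mul_nonpos_of_nonneg_of_nonpos pa.le va
  have t2 := mul_nonpos_of_nonneg_of_nonpos pc.le vc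
  have t3 := mul_pos pk vk
  have t4 := mul_pos pl vl
  have t5 := mul_le_mul_of_nonneg_left hgw hb.le
  nlinarith

end Pool.Agent.H126.DJ
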