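import Pool.Agent.H126.DJ.St

set_option autoImplicit false

namespace Pool.Agent.H126.DJ

open Set

namespace ORD

/-- The linear relation between four vectors of `ℝ^3`. -/
lemma rel4 (l : EuclideanSpace ℝ (Fin 3) →L[ℝ] ℝ) (a b c d : EuclideanSpace ℝ (Fin 3)) :
    det3 b c d * l a - det3 a c d * l b + det3 a b d * l c - det3 a b c * l d = 0 := by
  have h : det3 b c d • a - det3 a c d • b + det3 a b d • c - det3 a b c • d = 0 := by
    ext i
    fin_cases i <;> simp [det3] <;> ring
  have := congrArg l h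
  simpa using this

/-- If the determinant vanishes there is a nontrivial linear relation. -/
lemma exists_rel {u v w : EuclideanSpace ℝ (Fin 3)} (h : det3 u v w = 0) :
    ∃ a b c : ℝ, (a ≠ 0 ∨ b ≠ 0 ∨ c ≠ 0) ∧
      ∀ F : EuclideanSpace ℝ (Fin 3) →L[ℝ] ℝ, a * F u + b * F v + c * F w = 0 := by
  have hdet : (!![u 0, u 1, u 2; v 0, v 1, v 2; w 0, w 1, w 2] : Matrix (Fin 3) (Fin 3) ℝ).det = 0 := by
    rw [Matrix.det_fin_three]
    simp only [Matrix.of_apply, Matrix.cons_val', Matrix.cons_val_zero, Matrix.cons_val_one,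
      Matrix.cons_val, Matrix.cons_val_fin_one]
    rw [← h]
    simp only [det3]
    ring
  obtain ⟨x, hx0, hx⟩ := Matrix.exists_vecMul_eq_zero_iff.2 hdet
  refine ⟨x 0, x 1, x 2, ?_, ?_⟩
  · by_contra hc
    push Not at hc
    apply hx0
    ext i
    fin_cases i
    · exact hc.1
    · exact hc.2.1
    · exact hc.2.2
  · intro F
    have hv : x 0 • u + x 1 • v + x 2 • w = 0 := by
      ext i
      have := congrFun hx i
      fin_cases i <;> simpa [Matrix.vecMul, dotProduct, Fin.sum_univ_three] using this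
    have := congrArg F hv
    simpa using this

lemma det_ne {u v w : EuclideanSpace ℝ (Fin 3)} {F G H : EuclideanSpace ℝ (Fin 3) →L[ℝ] ℝ}
    (hu : F u = 0) (huv : 0 < F v) (huw : 0 < F w)
    (hv : G v = 0) (hvu : 0 < G u) (hvw : 0 < G w)
    (hw : H w = 0) (hwu : 0 < H u) (hwv : 0 < H v) : det3 u v w ≠ 0 := by
  intro h
  obtain ⟨a, b, c, hne, hr⟩ := exists_rel h
  have h1 := hr F
  have h2 := hr G
  have h3 := hr H
  rw [hu, mul_zero, zero_add] at h1
  rw [hv, mul_zero, add_zero] at h2
  rw [hw, mul_zero, add_zero] at h3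
  rcases lt_trichotomy b 0 with hb | hb | hb
  · have hc : 0 < c := by
      by_contra hc
      push Not at hc
      have := mul_neg_of_neg_of_pos hb huv
      have := mul_nonpos_of_nonpos_of_nonneg hc huw.le
      linarith
    have ha : 0 < a := by
      by_contra ha
      push Not at ha
      have := mul_neg_of_neg_of_pos hb hwv
      have := mul_nonpos_of_nonpos_of_nonneg ha hwu.le
      linarith
    have := mul_pos ha hvu
    have := mul_pos hc hvw
    linarith
  · subst hb
    have hc : c = 0 := by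
      rw [zero_mul, zero_add] at h1
      rcases mul_eq_zero.1 h1 with h | h
      · exact h
      · exact absurd h huw.ne'
    have ha : a = 0 := by
      rw [zero_mul, add_zero] at h3
      rcases mul_eq_zero.1 h3 with h | h
      · exact h
      · exact absurd h hwu.ne'
    rcases hne with h | h | h
    · exact h ha
    · exact h rfl
    · exact h hc
  · have hc : c < 0 := by
      by_contra hc
      push Not at hc
      have := mul_pos hb huv
      have := mul_nonneg hc huw.le
      linarith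
    have ha : a < 0 := by
      by_contra ha
      push Not at ha
      have := mul_pos hb hwv
      have := mul_nonneg ha hwu.le
      linarith
    have := mul_neg_of_neg_of_pos ha hvu
    have := mul_neg_of_neg_of_pos hc hvw
    linarith

end ORD

theorem order : S_ORDER := by
  intro U _ r hF
  choose F hF0 hF1 using hF
  by_cases hU : Nonempty U
  swap
  · refine ⟨(Fintype.equivFin U).symm, fun a => ?_⟩
    exact absurd ⟨(Fintype.equivFin U).symm a⟩ hU
  obtain ⟨x0⟩ := hU
  by_cases hy : ∃ y1, y1 ≠ x0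
  swap
  · push Not at hy
    refine ⟨(Fintype.equivFin U).symm, fun a b c hab _ => ?_⟩
    exfalso
    apply hab.ne
    apply (Fintype.equivFin U).symm.injective
    rw [hy ((Fintype.equivFin U).symm a), hy ((Fintype.equivFin U).symm b)]
  obtain ⟨y1, hy1⟩ := hy
  -- slopes
  obtain ⟨s, hs⟩ : ∃ s : U → ℝ, ∀ y, s y = det3 (r x0) (r y1) (r y) / F x0 (r y) := ⟨_, fun _ => rfl⟩
  have hkey : ∀ z w, z ≠ x0 → w ≠ x0 →
      det3 (r x0) (r z) (r w) * F x0 (r y1) = F x0 (r z) * F x0 (r w) * (s w - s z) := by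
    intro z w hz hw
    have h := ORD.rel4 (F x0) (r x0) (r y1) (r z) (r w)
    rw [hF0 x0, mul_zero] at h
    have h1 := (hF1 x0 z hz).ne'
    have h2 := (hF1 x0 w hw).ne'
    rw [hs z, hs w]
    field_simp
    linarith
  have hpos : ∀ z w, z ≠ x0 → w ≠ x0 → s z < s w → 0 < det3 (r x0) (r z) (r w) := by
    intro z w hz hw hlt
    have h1 := hF1 x0 y1 hy1
    have h2 : 0 < det3 (r x0) (r z) (r w) * F x0 (r y1) := by
      rw [hkey z w hz hw]
      exact mul_pos (mul_pos (hF1 x0 z hz) (hF1 x0 w hw)) (sub_pos.2 hlt)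
    exact (mul_pos_iff_of_pos_right h1).1 h2
  have hinj : ∀ z w, z ≠ x0 → w ≠ x0 → s z = s w → z = w := by
    intro z w hz hw he
    by_contra hne
    have h1 := hF1 x0 y1 hy1
    have h2 := hkey z w hz hw
    rw [he, sub_self, mul_zero] at h2
    rcases mul_eq_zero.1 h2 with h3 | h3
    · exact ORD.det_ne (hF0 x0) (hF1 x0 z hz) (hF1 x0 w hw) (hF0 z) (hF1 z x0 (Ne.symm hz))
        (hF1 z w (Ne.symm hne)) (hF0 w) (hF1 w x0 (Ne.symm hw)) (hF1 w z hne) h3
    · exact h1.ne' h3
  classical
  let t : U → WithBot ℝ := fun y => if y = x0 then ⊥ else ((s y : ℝ) : WithBot ℝ)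
  have ht0 : t x0 = ⊥ := if_pos rfl
  have ht1 : ∀ y, y ≠ x0 → t y = ((s y : ℝ) : WithBot ℝ) := fun y hy => if_neg hy
  have htinj : Function.Injective t := by
    intro z w h
    by_cases hz : z = x0
    · by_cases hw : w = x0
      · rw [hz, hw]
      · rw [hz, ht0, ht1 w hw] at h
        exact absurd h (WithBot.bot_ne_coe)
    · by_cases hw : w = x0
      · rw [hw, ht0, ht1 z hz] at h
        exact absurd h.symm (WithBot.bot_ne_coe)
      · rw [ht1 z hz, ht1 w hw] at h
        exact hinj z w hz hw (WithBot.coe_injective h)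
  let _ : LinearOrder U := LinearOrder.lift' t htinj
  have hlt : ∀ x y : U, x < y ↔ t x < t y := fun x y => Iff.rfl
  refine ⟨(Fintype.orderIsoFinOfCardEq U rfl).toEquiv, ?_⟩
  intro a b c hab hbc
  have h1 : t ((Fintype.orderIsoFinOfCardEq U rfl) a) < t ((Fintype.orderIsoFinOfCardEq U rfl) b) :=
    (hlt _ _).1 ((Fintype.orderIsoFinOfCardEq U rfl).lt_iff_lt.2 hab)
  have h2 : t ((Fintype.orderIsoFinOfCardEq U rfl) b) < t ((Fintype.orderIsoFinOfCardEq U rfl) c) :=
    (hlt _ _).1 ((Fintype.orderIsoFinOfCardEq U rfl).lt_iff_lt.2 hbc)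
  change 0 < det3 (r ((Fintype.orderIsoFinOfCardEq U rfl) a)) (r ((Fintype.orderIsoFinOfCardEq U rfl) b))
    (r ((Fintype.orderIsoFinOfCardEq U rfl) c))
  generalize (Fintype.orderIsoFinOfCardEq U rfl) a = x at *
  generalize (Fintype.orderIsoFinOfCardEq U rfl) b = y at *
  generalize (Fintype.orderIsoFinOfCardEq U rfl) c = z at *
  have hy0 : y ≠ x0 := by
    rintro rfl
    rw [ht0] at h1
    exact not_lt_bot h1
  have hz0 : z ≠ x0 := by
    rintro rfl
    rw [ht0] at h2
    exact not_lt_bot h2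
  have hsyz : s y < s z := by
    rw [ht1 y hy0, ht1 z hz0] at h2
    exact WithBot.coe_lt_coe.1 h2
  by_cases hx0 : x = x0
  · rw [hx0]
    exact hpos y z hy0 hz0 hsyz
  · have hsxy : s x < s y := by
      rw [ht1 x hx0, ht1 y hy0] at h1
      exact WithBot.coe_lt_coe.1 h1
    have hxy : x ≠ y := by rintro rfl; exact lt_irrefl _ hsxy
    have hzy : z ≠ y := by rintro rfl; exact lt_irrefl _ hsyz
    have h := ORD.rel4 (F y) (r x0) (r x) (r y) (r z)
    rw [hF0 y, mul_zero] at h
    have i1 := mul_pos (hpos y z hy0 hz0 hsyz) (hF1 y x hxy)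
    have i2 := mul_pos (hpos x y hx0 hy0 hsxy) (hF1 y z hzy)
    have i3 := hF1 y x0 (Ne.symm hy0)
    have i4 : 0 < det3 (r x) (r y) (r z) * F y (r x0) := by linarith
    exact (mul_pos_iff_of_pos_right i3).1 i4

end Pool.Agent.H126.DJ
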