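import Pool.Agent.H126.DJ.St

set_option autoImplicit false

namespace Pool.Agent.H126.DJ

namespace PA

/-- Parameters. -/
theorem exists_params (V : Type) [Fintype V] :
    ∃ t : V ⊕ Fin 6 → ℝ, Function.Injective t ∧ ∀ x, 1 < t x := by
  classical
  let e := Fintype.equivFin (V ⊕ Fin 6)
  refine ⟨fun x => ((e x).val : ℝ) + 2, ?_, ?_⟩
  · intro x y h
    have h1 : ((e x).val : ℝ) = ((e y).val : ℝ) := by simpa using h
    have h2 : (e x).val = (e y).val := by exact_mod_cast h1
    exact e.injective (Fin.ext h2)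
  · intro x
    have : (0 : ℝ) ≤ ((e x).val : ℝ) := Nat.cast_nonneg _
    show (1 : ℝ) < ((e x).val : ℝ) + 2
    linarith

theorem l_expand (l : EuclideanSpace ℝ (Fin 5) →L[ℝ] ℝ) (v : EuclideanSpace ℝ (Fin 5)) :
    l v = ∑ i, v i * l (EuclideanSpace.single i 1) := by
  have h : v = ∑ i, v i • (EuclideanSpace.single i (1 : ℝ)) := by
    ext j
    simp [Finset.sum_apply, Pi.single_apply]
  conv_lhs => rw [h]
  rw [map_sum]
  refine Finset.sum_congr rfl fun i _ => ?_
  rw [map_smul, smul_eq_mul]

theorem cross_para (x y z : ℝ) :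
    cross (x, x ^ 2) (y, y ^ 2) (z, z ^ 2) = (y - x) * (z - x) * (z - y) := by
  unfold cross; ring

theorem cross1 (t u : ℝ) :
    cross (0, -1) (t, t ^ 2) (u, u ^ 2) = (t - u) * (1 - t * u) := by
  unfold cross; ring

theorem cross2 (t u : ℝ) :
    cross (t, t ^ 2) (0, -1) (u, u ^ 2) = -((t - u) * (1 - t * u)) := by
  unfold cross; ring

theorem cross3 (t u : ℝ) :
    cross (t, t ^ 2) (u, u ^ 2) (0, -1) = (t - u) * (1 - t * u) := by
  unfold cross; ring

theorem poly0 (b c0 d c3 c4 : ℝ) (f : Fin 5 → ℝ) (hf : Function.Injective f)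
    (h : ∀ k, b + c0 * f k + d * f k ^ 2 + c3 * f k ^ 3 + c4 * f k ^ 4 = 0) :
    b = 0 ∧ c0 = 0 ∧ d = 0 ∧ c3 = 0 ∧ c4 = 0 := by
  let P : Polynomial ℝ := Polynomial.C b + Polynomial.C c0 * Polynomial.X +
    Polynomial.C d * Polynomial.X ^ 2 + Polynomial.C c3 * Polynomial.X ^ 3 +
    Polynomial.C c4 * Polynomial.X ^ 4
  have hdeg : P.natDegree ≤ 4 := by
    simp only [P]
    compute_degree
  have hz : P = 0 := by
    refine Polynomial.eq_zero_of_natDegree_lt_card_of_eval_eq_zero P (f := f) hf ?_ ?_
    · intro k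
      simp only [P, Polynomial.eval_add, Polynomial.eval_mul, Polynomial.eval_C,
        Polynomial.eval_X, Polynomial.eval_pow]
      exact h k
    · rw [Fintype.card_fin]; omega
  have k0 : P.coeff 0 = b := by simp [P, Polynomial.coeff_X, Polynomial.coeff_X_pow]
  have k1 : P.coeff 1 = c0 := by simp [P, Polynomial.coeff_X_pow, Polynomial.coeff_C]
  have k2 : P.coeff 2 = d := by simp [P, Polynomial.coeff_X, Polynomial.coeff_X_pow, Polynomial.coeff_C]
  have k3 : P.coeff 3 = c3 := by simp [P, Polynomial.coeff_X, Polynomial.coeff_X_pow, Polynomial.coeff_C]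
  have k4 : P.coeff 4 = c4 := by simp [P, Polynomial.coeff_X, Polynomial.coeff_X_pow, Polynomial.coeff_C]
  rw [hz, Polynomial.coeff_zero] at k0 k1 k2 k3 k4
  exact ⟨k0.symm, k1.symm, k2.symm, k3.symm, k4.symm⟩

end PA

open PA in
theorem para : S_PARA := by
  classical
  intro V _
  obtain ⟨t, ht, h1⟩ := exists_params V
  let a : V ⊕ Fin 6 → ℝ × ℝ := fun x => if x = Sum.inr 5 then (0, -1) else (t x, t x ^ 2)
  have as : a (Sum.inr 5) = (0, -1) := if_pos rfl
  have an : ∀ x, x ≠ Sum.inr 5 → a x = (t x, t x ^ 2) := fun x hx => if_neg hx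
  have hne : ∀ x y, x ≠ y → (t x - t y) * (1 - t x * t y) ≠ 0 := by
    intro x y hxy
    refine mul_ne_zero (sub_ne_zero.2 fun h => hxy (ht h)) ?_
    have := one_lt_mul_of_lt_of_le (h1 x) (h1 y).le
    intro h
    linarith
  refine ⟨a, ?_, ?_, ?_⟩
  · intro x y hxy
    by_cases hx : x = Sum.inr 5
    · by_cases hy : y = Sum.inr 5
      · rw [hx, hy]
      · rw [hx, as, an y hy] at hxy
        have h2 := congrArg Prod.fst hxy
        simp only at h2
        have := h1 y
        linarith
    · by_cases hy : y = Sum.inr 5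
      · rw [hy, as, an x hx] at hxy
        have h2 := congrArg Prod.fst hxy
        simp only at h2
        have := h1 x
        linarith
      · rw [an x hx, an y hy] at hxy
        exact ht (congrArg Prod.fst hxy)
  · intro x y z hxy hyz hxz
    by_cases hx : x = Sum.inr 5
    · have hy : y ≠ Sum.inr 5 := fun h => hxy (hx.trans h.symm)
      have hz : z ≠ Sum.inr 5 := fun h => hxz (hx.trans h.symm)
      rw [hx, as, an y hy, an z hz, cross1]
      exact hne y z hyz
    · by_cases hy : y = Sum.inr 5
      · have hz : z ≠ Sum.inr 5 := fun h => hyz (hy.trans h.symm)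
        rw [hy, as, an x hx, an z hz, cross2]
        exact neg_ne_zero.2 (hne x z hxz)
      · by_cases hz : z = Sum.inr 5
        · rw [hz, as, an x hx, an y hy, cross3]
          exact hne x y hxy
        · rw [an x hx, an y hy, an z hz, cross_para]
          have e1 : t y - t x ≠ 0 := sub_ne_zero.2 fun h => hxy (ht h).symm
          have e2 : t z - t x ≠ 0 := sub_ne_zero.2 fun h => hxz (ht h).symm
          have e3 : t z - t y ≠ 0 := sub_ne_zero.2 fun h => hyz (ht h).symm
          exact mul_ne_zero (mul_ne_zero e1 e2) e3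
  · intro l b h
    set c : Fin 5 → ℝ := fun i => l (EuclideanSpace.single i 1) with hc
    have hl : ∀ p : ℝ × ℝ, l (nu p) = c 0 * p.1 + c 1 * p.2 + c 2 * p.1 ^ 2 + c 3 * (p.1 * p.2) +
        c 4 * p.2 ^ 2 := by
      intro p
      rw [l_expand, Fin.sum_univ_five]
      simp only [nu, hc]
      simp
      ring
    obtain ⟨c0, k0, c2, k3, k4⟩ := poly0 b (c 0) (c 1 + c 2) (c 3) (c 4)
      (fun k : Fin 5 => t (Sum.inr k.castSucc)) (by
        intro k k' hk
        have := ht hk
        simpa using this) (by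
        intro k
        have hk : (Sum.inr k.castSucc : V ⊕ Fin 6) ≠ Sum.inr 5 := by
          intro h
          have h2 := Sum.inr.inj h
          have h3 := congrArg Fin.val h2
          have := k.isLt
          simp at h3
          omega
        have h2 := h (Sum.inr k.castSucc)
        rw [an _ hk, hl] at h2
        simp only at h2
        linarith)
    have h5 := h (Sum.inr 5)
    rw [as, hl] at h5
    simp only at h5
    have k1 : c 1 = 0 := by
      rw [k0, k3, k4, c0] at h5
      linarith
    have k2 : c 2 = 0 := by linarith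
    ext v
    rw [l_expand, Fin.sum_univ_five]
    have e0 : l (EuclideanSpace.single 0 1) = 0 := k0
    have e1 : l (EuclideanSpace.single 1 1) = 0 := k1
    have e2 : l (EuclideanSpace.single 2 1) = 0 := k2
    have e3 : l (EuclideanSpace.single 3 1) = 0 := k3
    have e4 : l (EuclideanSpace.single 4 1) = 0 := k4
    rw [e0, e1, e2, e3, e4]
    simp

end Pool.Agent.H126.DJ
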