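import Pool.Agent.H126.DJ.St

/-!
# PLACE: generic points on given lines (by helper603)
-/

set_option autoImplicit false

namespace Pool.Agent.H126.DJ

open Set

namespace PL

theorem cross_swap (x y z : ℝ × ℝ) : cross x z y = -cross x y z := by
  unfold cross
  ring

theorem cross_rot (x y z : ℝ × ℝ) : cross y z x = cross x y z := by
  unfold cross
  ring

theorem col1 {p q Y Z : ℝ × ℝ} (h1 : cross p Y Z = 0) (h2 : cross q Y Z = 0) (hne : Y ≠ Z) :
    cross Y p q = 0 := by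
  have e1 : (Z.1 - Y.1) * cross Y p q = 0 := by
    have : (Z.1 - Y.1) * cross Y p q = (Y.1 - q.1) * cross p Y Z - (Y.1 - p.1) * cross q Y Z := by
      unfold cross
      ring
    rw [this, h1, h2]
    ring
  have e2 : (Z.2 - Y.2) * cross Y p q = 0 := by
    have : (Z.2 - Y.2) * cross Y p q = (Y.2 - q.2) * cross p Y Z - (Y.2 - p.2) * cross q Y Z := by
      unfold cross
      ring
    rw [this, h1, h2]
    ring
  by_contra h
  have e3 : Z.1 - Y.1 = 0 := (mul_eq_zero.1 e1).resolve_right h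
  have e4 : Z.2 - Y.2 = 0 := (mul_eq_zero.1 e2).resolve_right h
  exact hne (Prod.ext (by linarith) (by linarith))

theorem col2 {p q Y Z : ℝ × ℝ} (h1 : cross p Y Z = 0) (h2 : cross q Y Z = 0) (hne : Y ≠ Z) :
    cross Z p q = 0 := by
  apply col1 (p := p) (q := q) (Y := Z) (Z := Y) _ _ hne.symm
  · rw [cross_swap, h1, neg_zero]
  · rw [cross_swap, h2, neg_zero]

/-- the value at a point of the line -/
theorem cross_line (p q Y Z : ℝ × ℝ) (t : ℝ) :
    cross (p + t • (q - p)) Y Z = cross p Y Z + t * (cross q Y Z - cross p Y Z) := by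
  unfold cross
  simp only [Prod.fst_add, Prod.snd_add, Prod.smul_fst, Prod.smul_snd, Prod.fst_sub, Prod.snd_sub, smul_eq_mul]
  ring

variable {A E : Type}

/-- the labels which are placed -/
def Lab (T : Finset (E × Bool)) : A ⊕ (E × Bool) → Prop
  | Sum.inl _ => True
  | Sum.inr w => w ∈ T

/-- the property of a partial placement -/
structure Ok (a : A → ℝ × ℝ) (i j : E → A) (T : Finset (E × Bool)) (s : E × Bool → ℝ) : Prop where
  s0 : ∀ e, 0 < s (e, false) ∧ s (e, false) < 1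
  s1 : ∀ e, 1 < s (e, true)
  inj : ∀ x y, Lab T x → Lab T y → QConf.pos ⟨a, i, j, s⟩ x = QConf.pos ⟨a, i, j, s⟩ y → x = y
  gp : ∀ x y z, Lab T x → Lab T y → Lab T z → x ≠ y → y ≠ z → x ≠ z →
    cross (QConf.pos ⟨a, i, j, s⟩ x) (QConf.pos ⟨a, i, j, s⟩ y) (QConf.pos ⟨a, i, j, s⟩ z) = 0 →
    ∃ e, QConf.On ⟨a, i, j, s⟩ x e ∧ QConf.On ⟨a, i, j, s⟩ y e ∧ QConf.On ⟨a, i, j, s⟩ z e

theorem base (a : A → ℝ × ℝ) (i j : E → A) (ha : Function.Injective a)
    (hgp : ∀ x y z, x ≠ y → y ≠ z → x ≠ z → cross (a x) (a y) (a z) ≠ 0) :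
    ∃ s, Ok a i j ∅ s := by
  refine ⟨fun w => if w.2 then 2 else 1 / 2, ?_, ?_, ?_, ?_⟩
  · intro e
    norm_num
  · intro e
    norm_num
  · rintro (x | x) (y | y) hx hy h
    · exact congrArg Sum.inl (ha h)
    · exact absurd hy (Finset.notMem_empty y)
    · exact absurd hx (Finset.notMem_empty x)
    · exact absurd hx (Finset.notMem_empty x)
  · rintro (x | x) (y | y) (z | z) hx hy hz hxy hyz hxz h
    · exact absurd h (hgp x y z (fun e => hxy (congrArg _ e)) (fun e => hyz (congrArg _ e))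
        (fun e => hxz (congrArg _ e)))
    all_goals
      first
      | exact absurd hx (Finset.notMem_empty _)
      | exact absurd hy (Finset.notMem_empty _)
      | exact absurd hz (Finset.notMem_empty _)

/-- a placed label which is collinear with the two ends of `e` is on the line of `e` -/
theorem on_of_col {a : A → ℝ × ℝ} {i j : E → A} (hij : ∀ e, i e ≠ j e)
    (hpair : ∀ e e', ((i e = i e' ∧ j e = j e') ∨ (i e = j e' ∧ j e = i e')) → e = e')
    {T : Finset (E × Bool)} {s : E × Bool → ℝ} (hs : Ok a i j T s) (e : E) (y : A ⊕ (E × Bool)) (hy : Lab T y)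
    (h : cross (QConf.pos ⟨a, i, j, s⟩ y) (a (i e)) (a (j e)) = 0) : QConf.On ⟨a, i, j, s⟩ y e := by
  by_cases h1 : y = Sum.inl (i e)
  · exact Or.inl h1
  by_cases h2 : y = Sum.inl (j e)
  · exact Or.inr (Or.inl h2)
  obtain ⟨e', h3, h4, h5⟩ := hs.gp y (Sum.inl (i e)) (Sum.inl (j e)) hy trivial trivial h1
    (fun h => hij e (Sum.inl_injective h)) h2 h
  have h6 : i e = i e' ∨ i e = j e' := by
    rcases h4 with h4 | h4 | ⟨b, h4⟩
    · exact Or.inl (Sum.inl_injective h4)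
    · exact Or.inr (Sum.inl_injective h4)
    · exact absurd h4 Sum.inl_ne_inr
  have h7 : j e = i e' ∨ j e = j e' := by
    rcases h5 with h5 | h5 | ⟨b, h5⟩
    · exact Or.inl (Sum.inl_injective h5)
    · exact Or.inr (Sum.inl_injective h5)
    · exact absurd h5 Sum.inl_ne_inr
  have h8 : e = e' := by
    apply hpair
    rcases h6 with h6 | h6 <;> rcases h7 with h7 | h7
    · exact absurd (h6.trans h7.symm) (hij e)
    · exact Or.inl ⟨h6, h7⟩
    · exact Or.inr ⟨h6, h7⟩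
    · exact absurd (h6.trans h7.symm) (hij e)
  rw [h8]
  exact h3

theorem step [Fintype A] [Fintype E] [DecidableEq E] {a : A → ℝ × ℝ} {i j : E → A} (ha : Function.Injective a)
    (hij : ∀ e, i e ≠ j e)
    (hpair : ∀ e e', ((i e = i e' ∧ j e = j e') ∨ (i e = j e' ∧ j e = i e')) → e = e')
    (T : Finset (E × Bool)) (w : E × Bool) (hw : w ∉ T) (s : E × Bool → ℝ) (hs : Ok a i j T s) :
    ∃ s', Ok a i j (insert w T) s' := by
  obtain ⟨e, b⟩ := w
  set P : ℝ → ℝ × ℝ := fun t => a (i e) + t • (a (j e) - a (i e)) with hP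
  have hne : a (j e) - a (i e) ≠ 0 := fun h => hij e (ha (sub_eq_zero.1 h)).symm
  -- the forbidden parameters
  have hF1 : (⋃ y : A ⊕ (E × Bool), {t : ℝ | P t = QConf.pos ⟨a, i, j, s⟩ y}).Finite := by
    apply Set.finite_iUnion
    intro y
    apply Set.Subsingleton.finite
    intro t ht t' ht'
    have h1 : P t = P t' := (ht : P t = _).trans (ht' : P t' = _).symm
    simp only [hP] at h1
    exact smul_left_injective ℝ hne (add_left_cancel h1)
  have hF2 : (⋃ v : (A ⊕ (E × Bool)) × (A ⊕ (E × Bool)), {t : ℝ | (Lab T v.1 ∧ Lab T v.2 ∧ v.1 ≠ v.2 ∧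
      ¬ (QConf.On ⟨a, i, j, s⟩ v.1 e ∧ QConf.On ⟨a, i, j, s⟩ v.2 e)) ∧
      cross (P t) (QConf.pos ⟨a, i, j, s⟩ v.1) (QConf.pos ⟨a, i, j, s⟩ v.2) = 0}).Finite := by
    apply Set.finite_iUnion
    rintro ⟨y, z⟩
    apply Set.Subsingleton.finite
    rintro t ⟨⟨hy, hz, hyz, hnot⟩, ht⟩ t' ⟨-, ht'⟩
    by_contra htt
    apply hnot
    simp only [hP, cross_line] at ht ht'
    have h1 : (t - t') * (cross (a (j e)) (QConf.pos ⟨a, i, j, s⟩ y) (QConf.pos ⟨a, i, j, s⟩ z) -
        cross (a (i e)) (QConf.pos ⟨a, i, j, s⟩ y) (QConf.pos ⟨a, i, j, s⟩ z)) = 0 := by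
      linear_combination ht - ht'
    have h2 := (mul_eq_zero.1 h1).resolve_left (sub_ne_zero.2 htt)
    have h3 : cross (a (i e)) (QConf.pos ⟨a, i, j, s⟩ y) (QConf.pos ⟨a, i, j, s⟩ z) = 0 := by
      rw [h2, mul_zero, add_zero] at ht
      exact ht
    have h4 : cross (a (j e)) (QConf.pos ⟨a, i, j, s⟩ y) (QConf.pos ⟨a, i, j, s⟩ z) = 0 := by
      linarith
    have hpne : QConf.pos ⟨a, i, j, s⟩ y ≠ QConf.pos ⟨a, i, j, s⟩ z := fun h => hyz (hs.inj y z hy hz h)
    exact ⟨on_of_col hij hpair hs e y hy (col1 h3 h4 hpne), on_of_col hij hpair hs e z hz (col2 h3 h4 hpne)⟩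
  -- the choice of the parameter
  obtain ⟨t, htI, htF⟩ : ∃ t : ℝ, t ∈ (if b then Ioo (1 : ℝ) 2 else Ioo (0 : ℝ) 1) ∧ t ∉
      ((⋃ y : A ⊕ (E × Bool), {t : ℝ | P t = QConf.pos ⟨a, i, j, s⟩ y}) ∪
      (⋃ v : (A ⊕ (E × Bool)) × (A ⊕ (E × Bool)), {t : ℝ | (Lab T v.1 ∧ Lab T v.2 ∧ v.1 ≠ v.2 ∧
      ¬ (QConf.On ⟨a, i, j, s⟩ v.1 e ∧ QConf.On ⟨a, i, j, s⟩ v.2 e)) ∧
      cross (P t) (QConf.pos ⟨a, i, j, s⟩ v.1) (QConf.pos ⟨a, i, j, s⟩ v.2) = 0})) := by
    apply Set.Infinite.exists_notMem_finite _ (hF1.union hF2)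
    cases b
    · exact Ioo_infinite (by norm_num)
    · exact Ioo_infinite (by norm_num)
  rw [mem_union, not_or, mem_iUnion, mem_iUnion, not_exists, not_exists] at htF
  obtain ⟨ht1, ht2⟩ := htF
  set s' : E × Bool → ℝ := Function.update s (e, b) t with hs'
  have hpos : ∀ y, Lab T y → QConf.pos ⟨a, i, j, s'⟩ y = QConf.pos ⟨a, i, j, s⟩ y := by
    rintro (y | y) hy
    · rfl
    · have h1 : y ≠ (e, b) := fun h => hw (h ▸ hy)
      simp only [QConf.pos, hs', Function.update_of_ne h1]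
  have hposw : QConf.pos ⟨a, i, j, s'⟩ (Sum.inr (e, b)) = P t := by
    simp only [QConf.pos, hs', Function.update_self, hP]
  have hlab : ∀ y : A ⊕ (E × Bool), Lab (insert (e, b) T) y → y ≠ Sum.inr (e, b) → Lab T y := by
    rintro (y | y) hy hne
    · trivial
    · rcases Finset.mem_insert.1 hy with h | h
      · exact absurd (congrArg Sum.inr h) hne
      · exact h
  have hOnw : QConf.On (⟨a, i, j, s'⟩ : QConf A E) (Sum.inr (e, b)) e := Or.inr (Or.inr ⟨b, rfl⟩)
  -- the new point and two old ones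
  have hnew : ∀ y z, Lab T y → Lab T z → y ≠ z →
      cross (P t) (QConf.pos ⟨a, i, j, s⟩ y) (QConf.pos ⟨a, i, j, s⟩ z) = 0 →
      QConf.On ⟨a, i, j, s'⟩ y e ∧ QConf.On ⟨a, i, j, s'⟩ z e := by
    intro y z hy hz hyz h
    by_contra hcon
    exact ht2 (y, z) ⟨⟨hy, hz, hyz, hcon⟩, h⟩
  refine ⟨s', ?_, ?_, ?_, ?_⟩
  · intro e'
    by_cases h : (e', false) = (e, b)
    · rw [hs', h, Function.update_self]
      obtain ⟨-, rfl⟩ := Prod.mk.inj h
      simpa using htI
    · rw [hs', Function.update_of_ne h]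
      exact hs.s0 e'
  · intro e'
    by_cases h : (e', true) = (e, b)
    · rw [hs', h, Function.update_self]
      obtain ⟨-, rfl⟩ := Prod.mk.inj h
      exact (show t ∈ Ioo (1 : ℝ) 2 by simpa using htI).1
    · rw [hs', Function.update_of_ne h]
      exact hs.s1 e'
  · intro x y hx hy h
    by_cases hx1 : x = Sum.inr (e, b)
    · by_cases hy1 : y = Sum.inr (e, b)
      · rw [hx1, hy1]
      · rw [hx1, hposw, hpos y (hlab y hy hy1)] at h
        exact absurd h (ht1 y)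
    · by_cases hy1 : y = Sum.inr (e, b)
      · rw [hy1, hposw, hpos x (hlab x hx hx1)] at h
        exact absurd h.symm (ht1 x)
      · rw [hpos x (hlab x hx hx1), hpos y (hlab y hy hy1)] at h
        exact hs.inj x y (hlab x hx hx1) (hlab y hy hy1) h
  · intro x y z hx hy hz hxy hyz hxz h
    by_cases hx1 : x = Sum.inr (e, b)
    · have hy1 : Lab T y := hlab y hy fun h => hxy (hx1.trans h.symm)
      have hz1 : Lab T z := hlab z hz fun h => hxz (hx1.trans h.symm)
      rw [hx1, hposw, hpos y hy1, hpos z hz1] at h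
      obtain ⟨h1, h2⟩ := hnew y z hy1 hz1 hyz h
      exact ⟨e, hx1 ▸ hOnw, h1, h2⟩
    by_cases hy1 : y = Sum.inr (e, b)
    · have hx2 : Lab T x := hlab x hx hx1
      have hz1 : Lab T z := hlab z hz fun h => hyz (hy1.trans h.symm)
      rw [hy1, hposw, hpos x hx2, hpos z hz1, ← cross_rot] at h
      obtain ⟨h1, h2⟩ := hnew z x hz1 hx2 hxz.symm h
      exact ⟨e, h2, hy1 ▸ hOnw, h1⟩
    by_cases hz1 : z = Sum.inr (e, b)
    · have hx2 : Lab T x := hlab x hx hx1
      have hy2 : Lab T y := hlab y hy hy1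
      rw [hz1, hposw, hpos x hx2, hpos y hy2, ← cross_rot, ← cross_rot] at h
      obtain ⟨h1, h2⟩ := hnew x y hx2 hy2 hxy h
      exact ⟨e, h1, h2, hz1 ▸ hOnw⟩
    have hx2 : Lab T x := hlab x hx hx1
    have hy2 : Lab T y := hlab y hy hy1
    have hz2 : Lab T z := hlab z hz hz1
    rw [hpos x hx2, hpos y hy2, hpos z hz2] at h
    exact hs.gp x y z hx2 hy2 hz2 hxy hyz hxz h

end PL

open PL in
theorem place : S_PLACE := by
  classical
  intro A E _ _ a i j ha hgp hij hpair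
  have h1 : ∀ T : Finset (E × Bool), ∃ s, Ok a i j T s := by
    intro T
    induction T using Finset.induction_on with
    | empty => exact base a i j ha hgp
    | insert w T hw ih =>
      obtain ⟨s, hs⟩ := ih
      exact step ha hij hpair T w hw s hs
  obtain ⟨s, hs⟩ := h1 Finset.univ
  have hl : ∀ x : A ⊕ (E × Bool), Lab Finset.univ x := by
    rintro (x | x)
    · trivial
    · exact Finset.mem_univ x
  exact ⟨s, hs.s0, hs.s1, fun x y h => hs.inj x y (hl x) (hl y) h,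
    fun x y z => hs.gp x y z (hl x) (hl y) (hl z)⟩

end Pool.Agent.H126.DJ
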