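import Pool.Agent.H126.DJ.St

/-! Project DJ (helper126), file QA: quadratic separating functionals in `ℝ^5` (helper230) -/

set_option autoImplicit false
set_option linter.unusedSectionVars false

namespace Pool.Agent.H126.DJ

open Set Filter Topology

namespace QA

/-- quadratic polynomials in two variables -/
def quad (c : Fin 6 → ℝ) (a : ℝ × ℝ) : ℝ :=
  c 0 + c 1 * a.1 + c 2 * a.2 + c 3 * a.1 ^ 2 + c 4 * (a.1 * a.2) + c 5 * a.2 ^ 2

/-- the linear functional of a quadratic polynomial -/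
noncomputable def lin (c : Fin 6 → ℝ) : EuclideanSpace ℝ (Fin 5) →L[ℝ] ℝ :=
  c 1 • EuclideanSpace.proj 0 + c 2 • EuclideanSpace.proj 1 + c 3 • EuclideanSpace.proj 2 +
    c 4 • EuclideanSpace.proj 3 + c 5 • EuclideanSpace.proj 4

theorem lin_nu (c : Fin 6 → ℝ) (a : ℝ × ℝ) : lin c (nu a) + c 0 = quad c a := by
  simp [lin, nu, quad]
  ring

variable {A E : Type} [Fintype A]

theorem val_inl (C : QConf A E) (c : Fin 6 → ℝ) (ε : ℝ) (x : A) :
    lin c (C.pt ε (Sum.inl x)) + c 0 = quad c (C.pos (Sum.inl x)) :=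
  lin_nu c _

theorem val_inr [Nonempty A] (C : QConf A E) (c : Fin 6 → ℝ) (ε : ℝ) (w : E × Bool) :
    lin c (C.pt ε (Sum.inr w)) + c 0 = (1 + ε) * quad c (C.pos (Sum.inr w)) -
      ε * ((Fintype.card A : ℝ)⁻¹ * ∑ x, quad c (C.a x)) := by
  have hA : (Fintype.card A : ℝ) ≠ 0 := by
    exact_mod_cast Fintype.card_ne_zero
  have h1 : ∑ x, quad c (C.a x) = (∑ x, lin c (nu (C.a x))) + Fintype.card A * c 0 := by
    simp_rw [← lin_nu]
    rw [Finset.sum_add_distrib, Finset.sum_const, Finset.card_univ, nsmul_eq_mul]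
  have h2 : lin c (C.pt ε (Sum.inr w)) = (1 + ε) * lin c (nu (C.pos (Sum.inr w))) -
      ε * ((Fintype.card A : ℝ)⁻¹ * ∑ x, lin c (nu (C.a x))) := by
    show lin c ((1 + ε) • nu (C.pos (Sum.inr w)) -
      ε • ((Fintype.card A : ℝ)⁻¹ • ∑ x, nu (C.a x))) = _
    rw [map_sub, map_smul, map_smul, map_smul, map_sum]
    rfl
  rw [h2, h1, ← lin_nu]
  field_simp
  ring

theorem val_zero [Nonempty A] (C : QConf A E) (c : Fin 6 → ℝ) (h0 : ∀ a, 0 ≤ quad c a)
    (z : A ⊕ (E × Bool)) (hz : quad c (C.pos z) = 0) {ε : ℝ} (hε : 0 < ε) :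
    lin c (C.pt ε z) + c 0 ≤ 0 := by
  cases z with
  | inl x => rw [val_inl, hz]
  | inr w =>
    rw [val_inr, hz]
    have h1 : 0 ≤ ∑ x, quad c (C.a x) := Finset.sum_nonneg fun x _ => h0 _
    have h2 : 0 ≤ ε * ((Fintype.card A : ℝ)⁻¹ * ∑ x, quad c (C.a x)) := by positivity
    linarith

theorem val_pos [Nonempty A] (C : QConf A E) (c : Fin 6 → ℝ)
    (z : A ⊕ (E × Bool)) (hz : 0 < quad c (C.pos z)) :
    ∀ᶠ ε in 𝓝[>] (0 : ℝ), 0 < lin c (C.pt ε z) + c 0 := by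
  cases z with
  | inl x =>
    refine Eventually.of_forall fun ε => ?_
    rw [val_inl]
    exact hz
  | inr w =>
    have h1 : Continuous fun ε : ℝ => (1 + ε) * quad c (C.pos (Sum.inr w)) -
      ε * ((Fintype.card A : ℝ)⁻¹ * ∑ x, quad c (C.a x)) := by fun_prop
    have h2 : ∀ᶠ ε in 𝓝 (0 : ℝ), 0 < (1 + ε) * quad c (C.pos (Sum.inr w)) -
        ε * ((Fintype.card A : ℝ)⁻¹ * ∑ x, quad c (C.a x)) := by
      have h3 := h1.tendsto (0 : ℝ)
      simp only [add_zero, one_mul, zero_mul, sub_zero] at h3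
      exact h3.eventually (lt_mem_nhds hz)
    filter_upwards [nhdsWithin_le_nhds h2] with ε hε
    rw [val_inr]
    exact hε

theorem nonempty_A (C : QConf A E) (hC : C.Good) : Nonempty A := by
  by_contra h
  rw [not_nonempty_iff] at h
  have h1 := hC.span (EuclideanSpace.proj 0) 0 (fun x => (h.false x).elim)
  have h2 := DFunLike.congr_fun h1 (EuclideanSpace.single 0 1)
  simp at h2

variable [Fintype E]

theorem vfun_of [Nonempty A] (C : QConf A E) (c : Fin 6 → ℝ) (h0 : ∀ a, 0 ≤ quad c a)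
    (x : A ⊕ (E × Bool)) (hx : quad c (C.pos x) = 0)
    (h : ∀ z, z ≠ x → quad c (C.pos z) ≠ 0) : ∀ᶠ ε in 𝓝[>] (0 : ℝ), VFun (C.pt ε) x := by
  have h1 : ∀ᶠ ε in 𝓝[>] (0 : ℝ), ∀ z, z ≠ x → 0 < lin c (C.pt ε z) + c 0 := by
    rw [eventually_all]
    intro z
    by_cases hz : z = x
    · exact Eventually.of_forall fun ε h => absurd hz h
    · filter_upwards [val_pos C c z (lt_of_le_of_ne (h0 _) (h z hz).symm)] with ε hε _
      exact hε
  filter_upwards [h1, self_mem_nhdsWithin] with ε h2 h3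
  exact ⟨lin c, c 0, val_zero C c h0 x hx h3, h2⟩

theorem efun_of [Nonempty A] (C : QConf A E) (c : Fin 6 → ℝ) (h0 : ∀ a, 0 ≤ quad c a)
    (x y : A ⊕ (E × Bool)) (hx : quad c (C.pos x) = 0) (hy : quad c (C.pos y) = 0)
    (h : ∀ z, z ≠ x → z ≠ y → quad c (C.pos z) ≠ 0) :
    ∀ᶠ ε in 𝓝[>] (0 : ℝ), EFun (C.pt ε) x y := by
  have h1 : ∀ᶠ ε in 𝓝[>] (0 : ℝ), ∀ z, z ≠ x → z ≠ y → 0 < lin c (C.pt ε z) + c 0 := by
    rw [eventually_all]
    intro z
    by_cases hz : z = x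
    · exact Eventually.of_forall fun ε h => absurd hz h
    by_cases hz2 : z = y
    · exact Eventually.of_forall fun ε _ h => absurd hz2 h
    · filter_upwards [val_pos C c z (lt_of_le_of_ne (h0 _) (h z hz hz2).symm)] with ε hε _ _
      exact hε
  filter_upwards [h1, self_mem_nhdsWithin] with ε h2 h3
  exact ⟨lin c, c 0, val_zero C c h0 x hx h3, val_zero C c h0 y hy h3, h2⟩

/-- the square of the distance to `u` -/
def cd (u : ℝ × ℝ) : Fin 6 → ℝ := ![u.1 ^ 2 + u.2 ^ 2, -(2 * u.1), -(2 * u.2), 1, 0, 1]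

theorem quad_cd (u a : ℝ × ℝ) : quad (cd u) a = (a.1 - u.1) ^ 2 + (a.2 - u.2) ^ 2 := by
  simp [quad, cd]
  ring

/-- the square of `cross x y` -/
def cc (x y : ℝ × ℝ) : Fin 6 → ℝ :=
  ![((y.2 - x.2) * x.1 - (y.1 - x.1) * x.2) ^ 2,
    -(2 * (y.2 - x.2) * ((y.2 - x.2) * x.1 - (y.1 - x.1) * x.2)),
    2 * (y.1 - x.1) * ((y.2 - x.2) * x.1 - (y.1 - x.1) * x.2),
    (y.2 - x.2) ^ 2, -(2 * (y.1 - x.1) * (y.2 - x.2)), (y.1 - x.1) ^ 2]

theorem quad_cc (x y a : ℝ × ℝ) : quad (cc x y) a = cross x y a ^ 2 := by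
  simp [quad, cc, cross]
  ring

/-- two labels that are not both on a line of some `e` -/
theorem efun_cross [Nonempty A] (C : QConf A E) (hC : C.Good) (x y : A ⊕ (E × Bool)) (hxy : x ≠ y)
    (h : ∀ e, C.On x e → ¬ C.On y e) : ∀ᶠ ε in 𝓝[>] (0 : ℝ), EFun (C.pt ε) x y := by
  refine efun_of C (cc (C.pos x) (C.pos y)) (fun a => ?_) x y ?_ ?_ ?_
  · rw [quad_cc]
    positivity
  · rw [quad_cc]
    have : cross (C.pos x) (C.pos y) (C.pos x) = 0 := by
      unfold cross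
      ring
    rw [this]
    norm_num
  · rw [quad_cc]
    have : cross (C.pos x) (C.pos y) (C.pos y) = 0 := by
      unfold cross
      ring
    rw [this]
    norm_num
  · intro z hzx hzy h0
    rw [quad_cc] at h0
    obtain ⟨e, h1, h2, -⟩ := hC.gp x y z hxy (Ne.symm hzy) (Ne.symm hzx) (pow_eq_zero_iff (by norm_num) |>.1 h0)
    exact h e h1 h2

theorem on_inl (C : QConf A E) (x : A) (e : E) :
    C.On (Sum.inl x) e ↔ x = C.i e ∨ x = C.j e := by
  unfold QConf.On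
  simp

theorem on_inr (C : QConf A E) (w : E × Bool) (e : E) : C.On (Sum.inr w) e → w.1 = e := by
  unfold QConf.On
  rintro (h | h | ⟨b, h⟩)
  · exact absurd h (by simp)
  · exact absurd h (by simp)
  · rw [Sum.inr.injEq] at h
    rw [h]

end QA

open QA

theorem qv : S_QV := by
  intro A E _ _ C hC u
  have := nonempty_A C hC
  refine vfun_of C (cd (C.pos u)) (fun a => ?_) u ?_ ?_
  · rw [quad_cd]
    positivity
  · rw [quad_cd]
    simp
  · intro z hz h0
    rw [quad_cd] at h0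
    have h1 : (C.pos z).1 - (C.pos u).1 = 0 := by
      have h2 : ((C.pos z).1 - (C.pos u).1) ^ 2 = 0 := by
        nlinarith [sq_nonneg ((C.pos z).1 - (C.pos u).1), sq_nonneg ((C.pos z).2 - (C.pos u).2)]
      exact (pow_eq_zero_iff (by norm_num)).1 h2
    have h3 : (C.pos z).2 - (C.pos u).2 = 0 := by
      have h2 : ((C.pos z).2 - (C.pos u).2) ^ 2 = 0 := by
        nlinarith [sq_nonneg ((C.pos z).1 - (C.pos u).1), sq_nonneg ((C.pos z).2 - (C.pos u).2)]
      exact (pow_eq_zero_iff (by norm_num)).1 h2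
    exact hz (hC.inj (Prod.ext (sub_eq_zero.1 h1) (sub_eq_zero.1 h3)))

theorem qvv : S_QVV := by
  intro A E _ _ C hC x y hxy hne
  have := nonempty_A C hC
  refine efun_cross C hC _ _ (fun h => hxy (Sum.inl.inj h)) ?_
  intro e h1 h2
  rw [on_inl] at h1 h2
  apply hne
  refine ⟨e, ?_⟩
  rcases h1 with h1 | h1 <;> rcases h2 with h2 | h2
  · exact absurd (h1.trans h2.symm) hxy
  · exact Or.inl ⟨h1.symm, h2.symm⟩
  · exact Or.inr ⟨h2.symm, h1.symm⟩
  · exact absurd (h1.trans h2.symm) hxy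

theorem qvw0 : S_QVW0 := by
  intro A E _ _ C hC x w h1 h2
  have := nonempty_A C hC
  refine efun_cross C hC _ _ (by simp) ?_
  intro e h3 h4
  rw [on_inl] at h3
  have h5 := on_inr C w e h4
  rw [h5] at h1 h2
  rcases h3 with h3 | h3
  · exact h1 h3
  · exact h2 h3

end Pool.Agent.H126.DJ
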