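import Pool.Agent.H126.DJ.St

set_option autoImplicit false

namespace Pool.Agent.H126.DJ

open Set Filter Topology

namespace QB

/-- `F` is (the restriction to the Veronese surface of) an affine function. -/
def IsQ (F : ℝ × ℝ → ℝ) : Prop :=
  ∃ (l : EuclideanSpace ℝ (Fin 5) →L[ℝ] ℝ) (b : ℝ), ∀ a, l (nu a) + b = F a

theorem isQ_poly (c0 c1 c2 c3 c4 c5 : ℝ) :
    IsQ (fun a => c0 + c1 * a.1 + c2 * a.2 + c3 * a.1 ^ 2 + c4 * (a.1 * a.2) + c5 * a.2 ^ 2) := by
  refine ⟨c1 • EuclideanSpace.proj (0 : Fin 5) + c2 • EuclideanSpace.proj (1 : Fin 5) +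
    c3 • EuclideanSpace.proj (2 : Fin 5) + c4 • EuclideanSpace.proj (3 : Fin 5) +
    c5 • EuclideanSpace.proj (4 : Fin 5), c0, fun a => ?_⟩
  simp [nu]
  ring

theorem isQ_mul (f0 f1 f2 g0 g1 g2 : ℝ) :
    IsQ (fun a => (f0 + f1 * a.1 + f2 * a.2) * (g0 + g1 * a.1 + g2 * a.2)) := by
  obtain ⟨l, b, h⟩ := isQ_poly (f0 * g0) (f0 * g1 + f1 * g0) (f0 * g2 + f2 * g0) (f1 * g1) (f1 * g2 + f2 * g1) (f2 * g2)
  exact ⟨l, b, fun a => (h a).trans (by ring)⟩

theorem isQ_congr {F G : ℝ × ℝ → ℝ} (hF : IsQ F) (h : ∀ a, F a = G a) : IsQ G := by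
  obtain ⟨l, b, hl⟩ := hF
  exact ⟨l, b, fun a => (hl a).trans (h a)⟩

variable {A E : Type} [Fintype A] [Fintype E]

/-- the average -/
noncomputable def av (C : QConf A E) (F : ℝ × ℝ → ℝ) : ℝ := (Fintype.card A : ℝ)⁻¹ * ∑ x, F (C.a x)

omit [Fintype E] in
theorem val_inr (C : QConf A E) (hA : Nonempty A) {l : EuclideanSpace ℝ (Fin 5) →L[ℝ] ℝ} {b : ℝ} {F : ℝ × ℝ → ℝ}
    (h : ∀ a, l (nu a) + b = F a) (ε : ℝ) (w : E × Bool) :
    l (C.pt ε (Sum.inr w)) + b = (1 + ε) * F (C.pos (Sum.inr w)) - ε * av C F := by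
  have hN : (Fintype.card A : ℝ) ≠ 0 := by
    have : 0 < Fintype.card A := Fintype.card_pos
    exact_mod_cast this.ne'
  have e1 : ∀ a, l (nu a) = F a - b := fun a => by linarith [h a]
  unfold QConf.pt av
  simp only [map_sub, map_smul, map_sum, e1, smul_eq_mul, Finset.sum_sub_distrib, Finset.sum_const,
    Finset.card_univ, nsmul_eq_mul]
  field_simp
  ring

theorem ev_pos {f : ℝ → ℝ} (hf : Continuous f) (h : 0 < f 0) : ∀ᶠ ε in 𝓝[>] (0 : ℝ), 0 < f ε :=
  ((hf.tendsto 0).mono_left nhdsWithin_le_nhds).eventually (lt_mem_nhds h)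

omit [Fintype E] [Fintype A] in
/-- a label not on the line of `e` -/
theorem not_on (C : QConf A E) (hC : C.Good) (e : E) (z : A ⊕ (E × Bool)) (hz : ¬ C.On z e) :
    cross (C.a (C.i e)) (C.a (C.j e)) (C.pos z) ≠ 0 := by
  intro h0
  have h1 : z ≠ Sum.inl (C.i e) := fun h => hz (Or.inl h)
  have h2 : z ≠ Sum.inl (C.j e) := fun h => hz (Or.inr (Or.inl h))
  have hne := hC.ne e
  have h3 : (Sum.inl (C.i e) : A ⊕ (E × Bool)) ≠ Sum.inl (C.j e) := fun h => hne (Sum.inl.inj h)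
  obtain ⟨e', ha, hb, hc⟩ := hC.gp (Sum.inl (C.i e)) (Sum.inl (C.j e)) z h3 h2.symm h1.symm h0
  have ha' : C.i e = C.i e' ∨ C.i e = C.j e' := by
    rcases ha with h | h | ⟨b, h⟩
    · exact Or.inl (Sum.inl.inj h)
    · exact Or.inr (Sum.inl.inj h)
    · exact absurd h Sum.inl_ne_inr
  have hb' : C.j e = C.i e' ∨ C.j e = C.j e' := by
    rcases hb with h | h | ⟨b, h⟩
    · exact Or.inl (Sum.inl.inj h)
    · exact Or.inr (Sum.inl.inj h)
    · exact absurd h Sum.inl_ne_inr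
  have hee : e = e' := by
    rcases ha' with h | h <;> rcases hb' with h' | h'
    · exact absurd (h.trans h'.symm) hne
    · exact hC.pair e e' (Or.inl ⟨h, h'⟩)
    · exact hC.pair e e' (Or.inr ⟨h, h'⟩)
    · exact absurd (h.trans h'.symm) hne
  rw [← hee] at hc
  exact hz hc

/-- the square of the equation of the line of `e` -/
def ll (C : QConf A E) (e : E) (a : ℝ × ℝ) : ℝ := cross (C.a (C.i e)) (C.a (C.j e)) a ^ 2

omit [Fintype E] [Fintype A] in
theorem isQ_ll (C : QConf A E) (e : E) : IsQ (ll C e) := by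
  set p := C.a (C.i e) with hp
  set q := C.a (C.j e) with hq
  refine isQ_congr (isQ_mul (-(q.1 - p.1) * p.2 + (q.2 - p.2) * p.1) (-(q.2 - p.2)) (q.1 - p.1)
    (-(q.1 - p.1) * p.2 + (q.2 - p.2) * p.1) (-(q.2 - p.2)) (q.1 - p.1)) fun a => ?_
  unfold ll cross
  rw [← hp, ← hq]
  ring

omit [Fintype E] [Fintype A] in
theorem ll_on (C : QConf A E) (e : E) (z : A ⊕ (E × Bool)) (hz : C.On z e) : ll C e (C.pos z) = 0 := by
  unfold ll cross
  rcases hz with h | h | ⟨b, h⟩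
  · rw [h]; simp [QConf.pos]
  · rw [h]; simp only [QConf.pos]; ring
  · rw [h]
    simp only [QConf.pos, Prod.fst_add, Prod.snd_add, Prod.smul_fst, Prod.smul_snd, Prod.fst_sub, Prod.snd_sub,
      smul_eq_mul]
    ring

omit [Fintype E] in
/-- the average of the square is positive -/
theorem av_pos (C : QConf A E) (hC : C.Good) (e : E) : 0 < av C (ll C e) := by
  have hA : Nonempty A := ⟨C.i e⟩
  have hN : (0 : ℝ) < (Fintype.card A : ℝ)⁻¹ := by
    have : 0 < Fintype.card A := Fintype.card_pos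
    have : (0 : ℝ) < Fintype.card A := by exact_mod_cast this
    positivity
  have h0 : ∀ a, 0 ≤ ll C e a := fun a => sq_nonneg _
  refine mul_pos hN ((Finset.sum_nonneg fun x _ => h0 _).lt_of_ne' fun hs => ?_)
  rw [Finset.sum_eq_zero_iff_of_nonneg fun x _ => h0 _] at hs
  obtain ⟨l, b, hl⟩ := isQ_ll C e
  have hl0 : l = 0 := hC.span l b fun x => by rw [hl]; exact hs x (Finset.mem_univ x)
  have hb : ∀ a, ll C e a = 0 := by
    intro a
    have h1 := hl (C.a (C.i e))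
    rw [hs _ (Finset.mem_univ _), hl0] at h1
    have h2 := hl a
    rw [hl0] at h2
    simp only [zero_apply, zero_add] at h1 h2
    rw [← h2, h1]
  have hne : C.a (C.i e) ≠ C.a (C.j e) := fun h => hC.ne e (Sum.inl.inj (hC.inj h))
  set p := C.a (C.i e) with hp
  set q := C.a (C.j e) with hq
  have h3 := hb (p.1 - (q.2 - p.2), p.2 + (q.1 - p.1))
  unfold ll cross at h3
  rw [← hp, ← hq] at h3
  have h4 : (q.1 - p.1) ^ 2 + (q.2 - p.2) ^ 2 = 0 := by
    have h5 := pow_eq_zero_iff (two_ne_zero) |>.mp h3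
    simp only at h5
    linarith [h5]
  have h6 : q.1 - p.1 = 0 := by nlinarith [sq_nonneg (q.1 - p.1), sq_nonneg (q.2 - p.2)]
  have h7 : q.2 - p.2 = 0 := by nlinarith [sq_nonneg (q.1 - p.1), sq_nonneg (q.2 - p.2)]
  exact hne (Prod.ext (by linarith) (by linarith))

/-- the main construction -/
theorem core (C : QConf A E) (hC : C.Good) (e : E) (x x' : A) (b : Bool)
    (hx : (x = C.i e ∧ x' = C.j e) ∨ (x = C.j e ∧ x' = C.i e)) (g : ℝ × ℝ → ℝ) (hg : IsQ g)
    (g0 : g (C.a x) = 0) (g1 : 0 < g (C.a x')) (g2 : 0 < g (C.pos (Sum.inr (e, b))))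
    (g3 : g (C.pos (Sum.inr (e, b))) < g (C.pos (Sum.inr (e, !b)))) :
    ∀ᶠ ε in 𝓝[>] (0 : ℝ), EFun (C.pt ε) (Sum.inl x) (Sum.inr (e, b)) := by
  have hA : Nonempty A := ⟨x⟩
  set E1 := av C (ll C e) with hE1
  set E2 := av C g with hE2
  have hE1p : 0 < E1 := av_pos C hC e
  set W := C.pos (Sum.inr (e, b)) with hW
  set W' := C.pos (Sum.inr (e, !b)) with hW'
  have g4 : 0 < g W' := g2.trans g3
  obtain ⟨η, hη1, hη2⟩ := exists_between (div_lt_div_of_pos_left hE1p g2 g3)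
  rw [div_lt_iff₀ g4] at hη1
  rw [lt_div_iff₀ g2] at hη2
  have hη0 : 0 < η := by
    by_contra h
    push Not at h
    nlinarith
  obtain ⟨l1, b1, h1⟩ := isQ_ll C e
  obtain ⟨l2, b2, h2⟩ := hg
  -- the values
  have hF : ∀ ε a, (l1 + (η * ε) • l2) (nu a) + (b1 + (η * ε) * b2) = ll C e a + η * ε * g a := by
    intro ε a
    rw [← h1, ← h2]
    simp only [add_apply, smul_apply, smul_eq_mul]
    ring
  have havg : ∀ ε, av C (fun a => ll C e a + η * ε * g a) = E1 + η * ε * E2 := by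
    intro ε
    rw [hE1, hE2]
    unfold av
    rw [Finset.sum_add_distrib, ← Finset.mul_sum]
    ring
  have hvr : ∀ ε v, (l1 + (η * ε) • l2) (C.pt ε (Sum.inr v)) + (b1 + (η * ε) * b2) =
      (1 + ε) * (ll C e (C.pos (Sum.inr v)) + η * ε * g (C.pos (Sum.inr v))) - ε * (E1 + η * ε * E2) := by
    intro ε v
    rw [val_inr C hA (hF ε) ε v, havg]
  have hvl : ∀ ε y, (l1 + (η * ε) • l2) (C.pt ε (Sum.inl y)) + (b1 + (η * ε) * b2) =
      ll C e (C.a y) + η * ε * g (C.a y) := fun ε y => hF ε (C.a y)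
  have hpos0 : ∀ᶠ ε in 𝓝[>] (0 : ℝ), 0 < ε := self_mem_nhdsWithin
  -- the value at the second point
  have hw : ∀ᶠ ε in 𝓝[>] (0 : ℝ), (l1 + (η * ε) • l2) (C.pt ε (Sum.inr (e, b))) + (b1 + (η * ε) * b2) ≤ 0 := by
    have h3 := ev_pos (f := fun ε => (E1 + η * ε * E2) - (1 + ε) * (η * g W)) (by fun_prop) (by linarith)
    filter_upwards [h3, hpos0] with ε h4 h5
    rw [hvr, ll_on C e _ (Or.inr (Or.inr ⟨b, rfl⟩)), ← hW]
    have : 0 ≤ ε * ((E1 + η * ε * E2) - (1 + ε) * (η * g W)) := mul_nonneg h5.le h4.le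
    linarith
  -- the values at the other points
  have hoth : ∀ z : A ⊕ (E × Bool), ∀ᶠ ε in 𝓝[>] (0 : ℝ), z ≠ Sum.inl x → z ≠ Sum.inr (e, b) →
      0 < (l1 + (η * ε) • l2) (C.pt ε z) + (b1 + (η * ε) * b2) := by
    intro z
    by_cases hzx : z = Sum.inl x
    · exact Eventually.of_forall fun ε h => absurd hzx h
    by_cases hzw : z = Sum.inr (e, b)
    · exact Eventually.of_forall fun ε _ h => absurd hzw h
    by_cases hon : C.On z e
    · -- the other two points on the line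
      have hz' : z = Sum.inl x' ∨ z = Sum.inr (e, !b) := by
        rcases hon with h | h | ⟨b', h⟩
        · left
          rcases hx with ⟨hx1, hx2⟩ | ⟨hx1, hx2⟩
          · exact absurd (by rw [h, hx1]) hzx
          · rw [h, hx2]
        · left
          rcases hx with ⟨hx1, hx2⟩ | ⟨hx1, hx2⟩
          · rw [h, hx2]
          · exact absurd (by rw [h, hx1]) hzx
        · right
          rw [h]
          have : b' ≠ b := fun hb => hzw (by rw [h, hb])
          have : b' = !b := by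
            cases b <;> cases b' <;> simp_all
          rw [this]
      rcases hz' with rfl | rfl
      · filter_upwards [hpos0] with ε h5 _ _
        rw [hvl]
        have h6 := ll_on C e _ hon
        have h7 : C.pos (Sum.inl x') = C.a x' := rfl
        rw [h7] at h6
        rw [h6]
        positivity
      · have h3 := ev_pos (f := fun ε => (1 + ε) * (η * g W') - (E1 + η * ε * E2)) (by fun_prop) (by linarith)
        filter_upwards [h3, hpos0] with ε h4 h5 _ _
        rw [hvr, ll_on C e _ hon, ← hW']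
        have : 0 < ε * ((1 + ε) * (η * g W') - (E1 + η * ε * E2)) := mul_pos h5 h4
        linarith
    · have hL : 0 < ll C e (C.pos z) := by
        unfold ll
        exact pow_pos_of_ne (not_on C hC e z hon)
      rcases z with y | v
      · have h3 := ev_pos (f := fun ε => ll C e (C.a y) + η * ε * g (C.a y)) (by fun_prop) (by
          simp only [mul_zero, zero_mul, add_zero]
          exact hL)
        filter_upwards [h3] with ε h4 _ _
        rw [hvl]
        exact h4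
      · have h3 := ev_pos (f := fun ε => (1 + ε) * (ll C e (C.pos (Sum.inr v)) + η * ε * g (C.pos (Sum.inr v))) -
            ε * (E1 + η * ε * E2)) (by fun_prop) (by
          simp only [mul_zero, zero_mul, add_zero, one_mul, sub_zero]
          exact hL)
        filter_upwards [h3] with ε h4 _ _
        rw [hvr]
        exact h4
  filter_upwards [hw, eventually_all.mpr hoth] with ε hw' ho
  refine ⟨l1 + (η * ε) • l2, b1 + (η * ε) * b2, ?_, hw', fun z hz1 hz2 => ho z hz1 hz2⟩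
  rw [hvl, g0]
  have h6 : ll C e (C.pos (Sum.inl x)) = 0 := by
    rcases hx with ⟨hx1, -⟩ | ⟨hx1, -⟩
    · exact ll_on C e _ (Or.inl (by rw [hx1]))
    · exact ll_on C e _ (Or.inr (Or.inl (by rw [hx1])))
  have h7 : C.pos (Sum.inl x) = C.a x := rfl
  rw [h7] at h6
  rw [h6]
  simp
where
  pow_pos_of_ne {t : ℝ} (ht : t ≠ 0) : 0 < t ^ 2 := by positivity

/-- the affine coordinate on the line -/
noncomputable def sg (p q a : ℝ × ℝ) : ℝ :=
  ((a.1 - p.1) * (q.1 - p.1) + (a.2 - p.2) * (q.2 - p.2)) / ((q.1 - p.1) ^ 2 + (q.2 - p.2) ^ 2)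

theorem isQ_sg (p q : ℝ × ℝ) (r u v : ℝ) : IsQ (fun a => (sg p q a - r) * (u * sg p q a + v)) := by
  set D := (q.1 - p.1) ^ 2 + (q.2 - p.2) ^ 2 with hD
  refine isQ_congr (isQ_mul (-(p.1 * (q.1 - p.1) + p.2 * (q.2 - p.2)) / D - r) ((q.1 - p.1) / D) ((q.2 - p.2) / D)
    (-u * (p.1 * (q.1 - p.1) + p.2 * (q.2 - p.2)) / D + v) (u * (q.1 - p.1) / D) (u * (q.2 - p.2) / D)) fun a => ?_
  unfold sg
  rw [← hD]
  ring

theorem sg_left (p q : ℝ × ℝ) : sg p q p = 0 := by simp [sg]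

theorem sq_pos {p q : ℝ × ℝ} (h : p ≠ q) : (q.1 - p.1) ^ 2 + (q.2 - p.2) ^ 2 ≠ 0 := by
  intro h4
  have h6 : q.1 - p.1 = 0 := by nlinarith [sq_nonneg (q.1 - p.1), sq_nonneg (q.2 - p.2)]
  have h7 : q.2 - p.2 = 0 := by nlinarith [sq_nonneg (q.1 - p.1), sq_nonneg (q.2 - p.2)]
  exact h (Prod.ext (by linarith) (by linarith))

theorem sg_right {p q : ℝ × ℝ} (h : p ≠ q) : sg p q q = 1 := by
  unfold sg
  rw [div_eq_one_iff_eq (sq_pos h)]
  ring

theorem sg_mid {p q : ℝ × ℝ} (h : p ≠ q) (t : ℝ) : sg p q (p + t • (q - p)) = t := by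
  unfold sg
  rw [div_eq_iff (sq_pos h)]
  simp only [Prod.fst_add, Prod.snd_add, Prod.smul_fst, Prod.smul_snd, Prod.fst_sub, Prod.snd_sub, smul_eq_mul]
  ring

end QB

open QB in
theorem qvw1 : S_QVW1 := by
  intro A E _ _ C hC x w hxw
  obtain ⟨e, b⟩ := w
  have hne : C.a (C.i e) ≠ C.a (C.j e) := fun h => hC.ne e (Sum.inl.inj (hC.inj h))
  obtain ⟨ht0, ht1⟩ := hC.s0 e
  have ht2 := hC.s1 e
  set τ := C.s (e, false) with hτ
  set τ' := C.s (e, true) with hτ'
  set p := C.a (C.i e) with hp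
  set q := C.a (C.j e) with hq
  have k0 : sg p q p = 0 := sg_left p q
  have k1 : sg p q q = 1 := sg_right hne
  have k2 : sg p q (C.pos (Sum.inr (e, false))) = τ := sg_mid hne τ
  have k3 : sg p q (C.pos (Sum.inr (e, true))) = τ' := sg_mid hne τ'
  rcases hxw with hx | hx
  · cases b
    · refine core C hC e x (C.j e) false (Or.inl ⟨hx, rfl⟩) _ (isQ_sg p q 0 1 0) ?_ ?_ ?_ ?_
      · rw [hx, ← hp, k0]; ring
      · rw [← hq, k1]; norm_num
      · rw [k2]; nlinarith
      · rw [k2, show (!false) = true from rfl, k3]; nlinarith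
    · refine core C hC e x (C.j e) true (Or.inl ⟨hx, rfl⟩) _ (isQ_sg p q 0 (-1) (τ' + τ / 2)) ?_ ?_ ?_ ?_
      · rw [hx, ← hp, k0]; ring
      · rw [← hq, k1]; nlinarith
      · rw [k3]; nlinarith
      · rw [k3, show (!true) = false from rfl, k2]; nlinarith
  · cases b
    · refine core C hC e x (C.i e) false (Or.inr ⟨hx, rfl⟩) _ (isQ_sg p q 1 1 (-τ - (τ' - 1) / 2)) ?_ ?_ ?_ ?_
      · rw [hx, ← hq, k1]; ring
      · rw [← hp, k0]; nlinarith
      · rw [k2]; nlinarith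
      · rw [k2, show (!false) = true from rfl, k3]; nlinarith
    · refine core C hC e x (C.i e) true (Or.inr ⟨hx, rfl⟩) _ (isQ_sg p q 1 1 (-τ' + (1 - τ) / 2)) ?_ ?_ ?_ ?_
      · rw [hx, ← hq, k1]; ring
      · rw [← hp, k0]; nlinarith
      · rw [k3]; nlinarith
      · rw [k3, show (!true) = false from rfl, k2]; nlinarith

end Pool.Agent.H126.DJ
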