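import Pool.Agent.H126.DJ.St

set_option autoImplicit false

namespace Pool.Agent.H126.DJ

open Set Filter Topology

namespace QC

variable {A E : Type}

/-- The functional with given coefficients. -/
noncomputable def ql (c : Fin 5 → ℝ) : EuclideanSpace ℝ (Fin 5) →L[ℝ] ℝ :=
  ∑ i, c i • (EuclideanSpace.proj i : EuclideanSpace ℝ (Fin 5) →L[ℝ] ℝ)

theorem ql_apply (c : Fin 5 → ℝ) (v : EuclideanSpace ℝ (Fin 5)) : ql c v = ∑ i, c i * v i := by
  simp [ql]

theorem ql_nu (c : Fin 5 → ℝ) (a : ℝ × ℝ) :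
    ql c (nu a) = c 0 * a.1 + c 1 * a.2 + c 2 * a.1 ^ 2 + c 3 * (a.1 * a.2) + c 4 * a.2 ^ 2 := by
  rw [ql_apply, Fin.sum_univ_five]
  simp [nu]

theorem ql_zero (c : Fin 5 → ℝ) (h : ql c = 0) (i : Fin 5) : c i = 0 := by
  have h1 : ql c (EuclideanSpace.single i 1) = 0 := by rw [h]; rfl
  rw [ql_apply] at h1
  simpa [Pi.single_apply] using h1

theorem l_expand (l : EuclideanSpace ℝ (Fin 5) →L[ℝ] ℝ) (v : EuclideanSpace ℝ (Fin 5)) :
    l v = ∑ i, v i * l (EuclideanSpace.single i 1) := by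
  have h : v = ∑ i, v i • (EuclideanSpace.single i (1 : ℝ)) := by
    ext j
    simp [Finset.sum_apply, Pi.single_apply]
  conv_lhs => rw [h]
  rw [map_sum]
  refine Finset.sum_congr rfl fun i _ => ?_
  rw [map_smul, smul_eq_mul]

theorem l_nu (l : EuclideanSpace ℝ (Fin 5) →L[ℝ] ℝ) : ∃ c : Fin 5 → ℝ, ∀ a : ℝ × ℝ,
    l (nu a) = c 0 * a.1 + c 1 * a.2 + c 2 * a.1 ^ 2 + c 3 * (a.1 * a.2) + c 4 * a.2 ^ 2 := by
  refine ⟨fun i => l (EuclideanSpace.single i 1), fun a => ?_⟩
  rw [l_expand, Fin.sum_univ_five]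
  simp [nu]
  ring

theorem nonempty [Fintype A] (C : QConf A E) (hC : C.Good) : Nonempty A := by
  by_contra hA
  rw [not_nonempty_iff] at hA
  have h := hC.span (ql fun _ => 1) 0 (fun x => (hA.false x).elim)
  have := ql_zero _ h 0
  norm_num at this

theorem val_inr [Fintype A] [Nonempty A] (C : QConf A E) (ε : ℝ)
    (l : EuclideanSpace ℝ (Fin 5) →L[ℝ] ℝ) (b : ℝ) (w : E × Bool) :
    l (C.pt ε (Sum.inr w)) + b = (1 + ε) * (l (nu (C.pos (Sum.inr w))) + b) -
      ε * ((Fintype.card A : ℝ)⁻¹ * ∑ x, (l (nu (C.a x)) + b)) := by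
  have hm : (Fintype.card A : ℝ) ≠ 0 := by exact_mod_cast Fintype.card_ne_zero
  simp only [QConf.pt, map_sub, map_smul, map_sum, smul_eq_mul, Finset.sum_add_distrib,
    Finset.sum_const, Finset.card_univ, nsmul_eq_mul]
  field_simp
  ring

theorem cross_affine (x y z : ℝ × ℝ) : cross x y z = (-(y.2 - x.2)) * z.1 + (y.1 - x.1) * z.2 +
    (-(y.1 - x.1) * x.2 + (y.2 - x.2) * x.1) := by
  unfold cross; ring

/-- The average of the square of a nonconstant affine function. -/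
theorem avg_pos [Fintype A] (C : QConf A E) (hC : C.Good) (x y : ℝ × ℝ) (hxy : x ≠ y) :
    0 < (Fintype.card A : ℝ)⁻¹ * ∑ z, (cross x y (C.a z)) ^ 2 := by
  have := nonempty C hC
  have hm : (0 : ℝ) < Fintype.card A := by exact_mod_cast Fintype.card_pos
  refine mul_pos (inv_pos.2 hm) ?_
  have h0 : 0 ≤ ∑ z, (cross x y (C.a z)) ^ 2 := Finset.sum_nonneg fun z _ => sq_nonneg _
  rcases h0.lt_or_eq with h | h
  · exact h
  · exfalso
    have h1 : ∀ z, cross x y (C.a z) = 0 := by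
      intro z
      have := (Finset.sum_eq_zero_iff_of_nonneg (fun z _ => sq_nonneg (cross x y (C.a z)))).1 h.symm z
        (Finset.mem_univ z)
      exact pow_eq_zero_iff (two_ne_zero) |>.1 this
    set p := -(y.2 - x.2) with hp
    set q := y.1 - x.1 with hq
    set r := -(y.1 - x.1) * x.2 + (y.2 - x.2) * x.1 with hr
    have h2 := hC.span (ql ![p, q, 0, 0, 0]) r (by
      intro z
      rw [ql_nu]
      have := h1 z
      rw [cross_affine] at this
      simp
      linarith)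
    have e0 := ql_zero _ h2 0
    have e1 := ql_zero _ h2 1
    simp at e0 e1
    apply hxy
    have a1 : x.1 = y.1 := by linarith
    have a2 : x.2 = y.2 := by linarith
    exact Prod.ext a1 a2

theorem cross_self1 (x y : ℝ × ℝ) : cross x y x = 0 := by unfold cross; ring
theorem cross_self2 (x y : ℝ × ℝ) : cross x y y = 0 := by unfold cross; ring

/-- The square of the affine function as a functional. -/
theorem exists_sq (x y : ℝ × ℝ) : ∃ (l : EuclideanSpace ℝ (Fin 5) →L[ℝ] ℝ) (b : ℝ),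
    ∀ z, l (nu z) + b = (cross x y z) ^ 2 := by
  set p := -(y.2 - x.2) with hp
  set q := y.1 - x.1 with hq
  set r := -(y.1 - x.1) * x.2 + (y.2 - x.2) * x.1 with hr
  refine ⟨ql ![2 * p * r, 2 * q * r, p ^ 2, 2 * p * q, q ^ 2], r ^ 2, fun z => ?_⟩
  rw [ql_nu, cross_affine]
  simp
  ring

theorem pt_inr_sq [Fintype A] [Nonempty A] (C : QConf A E) (x y : ℝ × ℝ) (c ε : ℝ)
    (l : EuclideanSpace ℝ (Fin 5) →L[ℝ] ℝ) (b : ℝ) (hl : ∀ z, l (nu z) + b = (cross x y z) ^ 2)
    (w : E × Bool) :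
    l (C.pt ε (Sum.inr w)) + (b + c * ε) = (1 + ε) * (cross x y (C.pos (Sum.inr w))) ^ 2 +
      ε * (c - (Fintype.card A : ℝ)⁻¹ * ∑ z, (cross x y (C.a z)) ^ 2) := by
  have hm : (Fintype.card A : ℝ) ≠ 0 := by exact_mod_cast Fintype.card_ne_zero
  rw [val_inr]
  have e1 : ∀ z, l (nu z) + (b + c * ε) = (cross x y z) ^ 2 + c * ε := by
    intro z; rw [← hl]; ring
  simp only [e1, Finset.sum_add_distrib, Finset.sum_const, Finset.card_univ, nsmul_eq_mul]
  field_simp
  ring

end QC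

open QC in
theorem qww : S_QWW := by
  classical
  intro A E _ _ C hC w w' hww
  have := nonempty C hC
  have hne : C.pos (Sum.inr w) ≠ C.pos (Sum.inr w') := fun h => hww (Sum.inr.inj (hC.inj h))
  obtain ⟨l, b, hl⟩ := exists_sq (C.pos (Sum.inr w)) (C.pos (Sum.inr w'))
  set EE := (Fintype.card A : ℝ)⁻¹ * ∑ z, (cross (C.pos (Sum.inr w)) (C.pos (Sum.inr w')) (C.a z)) ^ 2
    with hEE
  have hE : 0 < EE := avg_pos C hC _ _ hne
  set c := EE / 2 with hc
  have hc0 : 0 < c := half_pos hE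
  have hcE : c - EE < 0 := by rw [hc]; linarith
  have key : ∀ w'' : E × Bool, w'' ≠ w → w'' ≠ w' → 
      0 < (cross (C.pos (Sum.inr w)) (C.pos (Sum.inr w')) (C.pos (Sum.inr w''))) ^ 2 := by
    intro w'' h1 h2
    have h3 : cross (C.pos (Sum.inr w)) (C.pos (Sum.inr w')) (C.pos (Sum.inr w'')) ≠ 0 := by
      intro h0
      obtain ⟨e, g1, g2, g3⟩ := hC.gp (Sum.inr w) (Sum.inr w') (Sum.inr w'')
        (fun h => hww (Sum.inr.inj h)) (fun h => h2 (Sum.inr.inj h).symm)
        (fun h => h1 (Sum.inr.inj h).symm) h0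
      have on : ∀ u : E × Bool, C.On (Sum.inr u) e → ∃ b, u = (e, b) := by
        intro u hu
        rcases hu with h | h | ⟨b, h⟩
        · exact absurd h (by simp)
        · exact absurd h (by simp)
        · exact ⟨b, Sum.inr.inj h⟩
      obtain ⟨b1, k1⟩ := on w g1
      obtain ⟨b2, k2⟩ := on w' g2
      obtain ⟨b3, k3⟩ := on w'' g3
      have n1 : b1 ≠ b2 := fun h => hww (by rw [k1, k2, h])
      have n2 : b3 ≠ b1 := fun h => h1 (by rw [k1, k3, h])
      have n3 : b3 ≠ b2 := fun h => h2 (by rw [k2, k3, h])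
      revert n1 n2 n3
      cases b1 <;> cases b2 <;> cases b3 <;> simp
    positivity
  have hev : ∀ᶠ ε in 𝓝[>] (0 : ℝ), ∀ w'' : E × Bool, w'' ≠ w → w'' ≠ w' →
      0 < l (C.pt ε (Sum.inr w'')) + (b + c * ε) := by
    rw [eventually_all]
    intro w''
    by_cases h1 : w'' = w
    · exact Eventually.of_forall fun ε h => absurd h1 h
    by_cases h2 : w'' = w'
    · exact Eventually.of_forall fun ε _ h => absurd h2 h
    have hk := key w'' h1 h2
    set k := (cross (C.pos (Sum.inr w)) (C.pos (Sum.inr w')) (C.pos (Sum.inr w''))) ^ 2 with hkk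
    have hcont : Tendsto (fun ε : ℝ => (1 + ε) * k + ε * (c - EE)) (𝓝[>] (0 : ℝ)) (𝓝 k) := by
      have : Tendsto (fun ε : ℝ => (1 + ε) * k + ε * (c - EE)) (𝓝 (0 : ℝ)) (𝓝 ((1 + 0) * k + 0 * (c - EE))) := by
        apply Continuous.tendsto
        fun_prop
      simp only [add_zero, one_mul, zero_mul] at this
      exact this.mono_left nhdsWithin_le_nhds
    have := hcont.eventually (lt_mem_nhds hk)
    filter_upwards [this] with ε hε _ _
    rw [pt_inr_sq C _ _ c ε l b hl w'']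
    exact hε
  filter_upwards [hev, self_mem_nhdsWithin] with ε hε hε0
  have hε0' : (0 : ℝ) < ε := hε0
  refine ⟨l, b + c * ε, ?_, ?_, ?_⟩
  · rw [pt_inr_sq C _ _ c ε l b hl w, cross_self1]
    have : ε * (c - EE) ≤ 0 := (mul_neg_of_pos_of_neg hε0' hcE).le
    simpa using this
  · rw [pt_inr_sq C _ _ c ε l b hl w', cross_self2]
    have : ε * (c - EE) ≤ 0 := (mul_neg_of_pos_of_neg hε0' hcE).le
    simpa using this
  · intro z hz hz'
    rcases z with x | w''
    · show 0 < l (nu (C.a x)) + (b + c * ε)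
      have : l (nu (C.a x)) + (b + c * ε) =
        (cross (C.pos (Sum.inr w)) (C.pos (Sum.inr w')) (C.a x)) ^ 2 + c * ε := by
        rw [← hl]; ring
      rw [this]
      positivity
    · exact hε w'' (fun h => hz (by rw [h])) (fun h => hz' (by rw [h]))

open QC in
theorem qn : S_QN := by
  classical
  intro A E _ _ C hC e
  have := nonempty C hC
  have hm : (0 : ℝ) < Fintype.card A := by exact_mod_cast Fintype.card_pos
  have hm1 : (1 : ℝ) ≤ Fintype.card A := by
    exact_mod_cast Nat.one_le_iff_ne_zero.2 Fintype.card_ne_zero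
  set τ := C.s (e, false) with hτ
  set τ' := C.s (e, true) with hτ'
  obtain ⟨t0, t1⟩ := hC.s0 e
  have t2 := hC.s1 e
  rw [← hτ] at t0 t1
  rw [← hτ'] at t2
  have d1 : 0 < 1 - τ := by linarith
  have d2 : 0 < τ' - 1 := by linarith
  have d3 : 0 < τ' - τ := by linarith
  have d4 : 0 < τ' := by linarith
  -- multiply by `τ τ' (1-τ) (τ'-1) (τ'-τ)`
  set α := (1 - τ) * (τ' - 1) * (τ' - τ) with hα
  set β := τ * τ' * (τ' - τ) with hβ
  set γ := τ' * (τ' - 1) with hγ
  set δ := τ * (1 - τ) with hδ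
  have ha : 0 < α := by positivity
  have hb : 0 < β := by positivity
  have hg : 0 < γ := by positivity
  have hd : 0 < δ := by positivity
  have hev : ∀ᶠ ε in 𝓝[>] (0 : ℝ), ε * (α + β) < α ∧ ε * (α + β) < β := by
    have h1 : Tendsto (fun ε : ℝ => ε * (α + β)) (𝓝[>] (0 : ℝ)) (𝓝 0) := by
      have : Tendsto (fun ε : ℝ => ε * (α + β)) (𝓝 (0 : ℝ)) (𝓝 (0 * (α + β))) := by
        apply Continuous.tendsto
        fun_prop
      rw [zero_mul] at this
      exact this.mono_left nhdsWithin_le_nhds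
    exact (h1.eventually (gt_mem_nhds ha)).and (h1.eventually (gt_mem_nhds hb))
  filter_upwards [hev, self_mem_nhdsWithin] with ε hε hε0
  have hε0' : (0 : ℝ) < ε := hε0
  rintro ⟨l, b, h1, h2, h3⟩
  obtain ⟨c, hc⟩ := l_nu l
  set F : ℝ × ℝ → ℝ := fun a => l (nu a) + b with hF
  have hFi : F (C.a (C.i e)) ≤ 0 := h1
  have hFj : F (C.a (C.j e)) ≤ 0 := h2
  set avg := (Fintype.card A : ℝ)⁻¹ * ∑ x, F (C.a x) with havg
  have hne : C.i e ≠ C.j e := hC.ne e
  have h4 : (F (C.a (C.i e)) + F (C.a (C.j e))) / Fintype.card A ≤ avg := by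
    rw [havg, div_eq_inv_mul]
    refine mul_le_mul_of_nonneg_left ?_ (inv_pos.2 hm).le
    rw [← Finset.sum_pair (f := fun x => F (C.a x)) hne]
    refine Finset.sum_le_sum_of_subset_of_nonneg (Finset.subset_univ _) ?_
    intro x _ hx
    simp only [Finset.mem_insert, Finset.mem_singleton, not_or] at hx
    exact (h3 (Sum.inl x) (fun h => hx.1 (Sum.inl.inj h)) (fun h => hx.2 (Sum.inl.inj h))).le
  have hw : ∀ bb, 0 < (1 + ε) * F (C.pos (Sum.inr (e, bb))) - ε * avg := by
    intro bb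
    have := h3 (Sum.inr (e, bb)) (by simp) (by simp)
    rw [val_inr] at this
    exact this
  have hw0 := hw false
  have hw1 := hw true
  have hdiv : γ * F (C.pos (Sum.inr (e, false))) + δ * F (C.pos (Sum.inr (e, true))) =
      α * F (C.a (C.i e)) + β * F (C.a (C.j e)) := by
    simp only [hF, hc, QConf.pos, ← hτ, ← hτ', hα, hβ, hγ, hδ]
    simp only [Prod.fst_add, Prod.snd_add, Prod.smul_fst, Prod.smul_snd, Prod.fst_sub, Prod.snd_sub,
      smul_eq_mul]
    ring
  have hsum : γ + δ = α + β := by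
    rw [hα, hβ, hγ, hδ]; ring
  set Fi := F (C.a (C.i e)) with hFi'
  set Fj := F (C.a (C.j e)) with hFj'
  have h5 : Fi + Fj ≤ avg := by
    refine le_trans ?_ h4
    rw [le_div_iff₀ hm]
    have h11 : (Fi + Fj) * (Fintype.card A - 1 : ℝ) ≤ 0 :=
      mul_nonpos_of_nonpos_of_nonneg (by linarith) (by linarith)
    linarith
  have h6 : 0 < γ * ((1 + ε) * F (C.pos (Sum.inr (e, false))) - ε * avg) +
      δ * ((1 + ε) * F (C.pos (Sum.inr (e, true))) - ε * avg) :=
    add_pos (mul_pos hg hw0) (mul_pos hd hw1)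
  have h7 : γ * ((1 + ε) * F (C.pos (Sum.inr (e, false))) - ε * avg) +
      δ * ((1 + ε) * F (C.pos (Sum.inr (e, true))) - ε * avg) =
      (1 + ε) * (α * Fi + β * Fj) - ε * (α + β) * avg := by
    rw [← hdiv, ← hsum]; ring
  rw [h7] at h6
  have h8 : ε * (α + β) * (Fi + Fj) ≤ ε * (α + β) * avg :=
    mul_le_mul_of_nonneg_left h5 (by positivity)
  have h9 : Fi * (α + ε * α - ε * (α + β)) ≤ 0 := by
    refine mul_nonpos_of_nonpos_of_nonneg hFi ?_
    have := mul_pos hε0' ha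
    linarith [hε.1]
  have h10 : Fj * (β + ε * β - ε * (α + β)) ≤ 0 := by
    refine mul_nonpos_of_nonpos_of_nonneg hFj ?_
    have := mul_pos hε0' hb
    linarith [hε.2]
  linarith

end Pool.Agent.H126.DJ
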