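import Pool.Agent.H126.DJ.Defs

set_option autoImplicit false

namespace Pool.Agent.H126.DJ

open Set Filter Topology

/-! ## General bridge between polytopes and functionals -/

/-- CHARA. Take `P = convexHull ℝ (range p)`. A finished model of this proof (for dimension 6 and
polynomial functionals) is `polytopal_of_functionals` in
`Pool/Graph/R_seed8/Results/MP_2da123_co/DimSix.lean`; the lemmas `exposed_segment`,
`extremePoints_eq` there are general and can be copied. Steps: (1) injectivity and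
`range p = extremePoints` from `VFun` (replace `b` by `-(l (p x))` so that the value at `x` is
exactly 0). (2) the interior is nonempty because the affine span is everything, by `Spans`
(`interior_convexHull_nonempty_iff_affineSpan_eq_top`, as in the library). (3) `EFun` implies that
the segment is exposed: `f0` with `f0 x ≤ 0, f0 y ≤ 0`; add nonnegative multiples of the vertex
functionals `Fy` (zero at `y`, positive elsewhere) and `Fx` to get value exactly 0 at `x` and `y`
and positive values elsewhere, then `exposed_segment`. (4) conversely if the segment is exposed,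
`IsExposed` gives `l` maximal on `P` exactly on the segment; a vertex `p z` on the segment
`[p x, p y]` is `p x` or `p y` because it is an extreme point; so `-l + const` shows `EFun`. -/
def S_CHARA : Prop := ∀ (d : ℕ) (U : Type) [Fintype U] [Nonempty U] (H : SimpleGraph U)
  (p : U → EuclideanSpace ℝ (Fin d)), Spans p → (∀ x, VFun p x) →
  (∀ x y, x ≠ y → (H.Adj x y ↔ EFun p x y)) → IsPolytopal d H

/-- CHARB. Converse. `P = convexHull ℝ S` is the convex hull of its extreme points
(`P.extremePoints ℝ ⊆ S` is finite; `closure_convexHull_extremePoints` (Krein-Milman) for the compact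
convex set `P`, and the convex hull of a finite set is closed). So `P = convexHull ℝ (range p)`.
`Spans`: if `l (p x) + b = 0` for all `x` then `l + b = 0` on `P`, which has an interior point, so
`l = 0`. `VFun p x`: `p x` is an extreme point, hence not in the convex hull of the other points
`p z` (`z ≠ x`) (otherwise: the other points and `x`; an extreme point lying in
`convexHull ℝ (range p \ {p x})` is one of these points, `extremePoints_convexHull_subset` applied
to the convex hull of the others which is contained in `P`); separate the point from this compact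
convex set strictly (`geometric_hahn_banach_point_compact` or `..._compact_point` type lemmas; if
there are no other points take `l = 0, b = 0`). `Adj → EFun`: the segment is exposed by `l`; every
other vertex has a strictly smaller value because it is not on the segment (an extreme point of `P`
on the segment is one of its ends); with finitely many vertices nothing else is needed. `EFun → Adj`:
from `EFun` and `VFun` get exact zeros as in CHARA (3), then `exposed_segment`. -/
def S_CHARB : Prop := ∀ (d : ℕ) (U : Type) [Fintype U] [Nonempty U] (H : SimpleGraph U),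
  IsPolytopal d H → ∃ p : U → EuclideanSpace ℝ (Fin d), Spans p ∧ (∀ x, VFun p x) ∧
    ∀ x y, x ≠ y → (H.Adj x y ↔ EFun p x y)

/-- ISO. Compose `p` with the inverse isomorphism. -/
def S_ISO : Prop := ∀ (d : ℕ) (U U' : Type) (H : SimpleGraph U) (H' : SimpleGraph U'),
  Nonempty (H ≃g H') → IsPolytopal d H → IsPolytopal d H'

/-- ASSOC. Elementary. -/
def S_ASSOC : Prop :=
  (∀ (V W W' : Type) (G : SimpleGraph V), Nonempty (W ≃ W') →
    Nonempty (joinW G W ≃g joinW G W')) ∧
  (∀ (V W W' : Type) (G : SimpleGraph V),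
    Nonempty (joinW (joinW G W) W' ≃g joinW G (W ⊕ W')))

/-! ## Dimension at most three: from polytope to cyclic order -/

/-- ORDER. Points of `ℝ^3` (directions of edges at a vertex) each supported by a functional vanishing
only there can be ordered with all determinants positive.
Proof. (1) For three distinct indices `x,y,z` the vectors are linearly independent: in a relation
`α r_x + β r_y + γ r_z = 0` apply `F_x`: `β F_x(r_y) + γ F_x(r_z) = 0` with positive coefficients, so
`β, γ` are both zero or have opposite signs; the same for the other two pairs; three real numbers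
cannot have pairwise opposite signs, so if one is nonzero ... all are zero. Hence
`det3 (r x) (r y) (r z) ≠ 0`. (For fewer than three points any bijection works.)
(2) Fix `x0`, `F0 = F_{x0}`. There is a linear functional `K` with `K (r x0) = 0` and
`det3 (r x0) u v = F0 u * K v - F0 v * K u` for all `u v` (the alternating form
`det3 (r x0) · ·` on `ℝ^3 / r x0` is a nonzero multiple of `F0 ∧ K'`; concretely
`det3 r0 u v = ⟪r0, u × v⟫`; write `F0 = ⟪n, ·⟫` with `n ⟂ r0`, `n ≠ 0`, and take
`K v = ⟪n × r0, v⟫ / |n|^2` up to sign; check by Lagrange's identity). Slope `s y = K (r y) / F0 (r y)`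
for `y ≠ x0`; then `det3 (r x0) (r y) (r z) = F0(r y) F0(r z) (s z - s y)`, so slopes are distinct
by (1), sort the other points by increasing slope, `e 0 = x0`. This gives the claim when `a = 0`.
(3) `0 < a < b < c`: write `D(x,y,z)` for the determinant. Cramer:
`D(0,a,c) r_b = D(b,a,c) r_0 + D(0,b,c) r_a + D(0,a,b) r_c`. If `D(a,b,c) < 0` then
`D(b,a,c) > 0` and all four coefficients are positive; apply `F_b`: `0 =` positive. Contradiction;
and `D(a,b,c) ≠ 0` by (1). -/
def S_ORDER : Prop := ∀ (U : Type) [Fintype U] (r : U → EuclideanSpace ℝ (Fin 3)),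
  (∀ x, ∃ F : EuclideanSpace ℝ (Fin 3) →L[ℝ] ℝ, F (r x) = 0 ∧ ∀ y, y ≠ x → 0 < F (r y)) →
  ∃ e : Fin (Fintype.card U) ≃ U, ∀ a b c : Fin (Fintype.card U), a < b → b < c →
    0 < det3 (r (e a)) (r (e b)) (r (e c))

/-- CONSEC. Write `r k = p (inl k) - p (inr 0)`. For consecutive `a, b = a+1` the functional
`G z = det3 (r a) (r b) z` vanishes at `r a, r b` and is positive at all other `r c` (cyclic
permutations of positive determinants; `m ≥ 3`); for the pair `(0, m-1)` use
`G z = det3 (r (m-1)) (r 0) z`. `r a, r b` are linearly independent, so there is a linear `A` with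
`A (r a) = A (r b) = 1` (e.g. `A z = (det3 z (r b) c + det3 (r a) z c)/det3 (r a) (r b) c` with `c`
a third vector). The affine function `f z = 1 - A (z - p (inr 0)) + M * G (z - p (inr 0))` is `1` at
`inr 0`, `0` at `a, b`, and positive at the others for large `M`. -/
def S_CONSEC : Prop := ∀ (m : ℕ) (p : Fin m ⊕ Fin 1 → EuclideanSpace ℝ (Fin 3)), 3 ≤ m →
  (∀ a b c : Fin m, a < b → b < c → 0 < det3 (p (Sum.inl a) - p (Sum.inr 0))
    (p (Sum.inl b) - p (Sum.inr 0)) (p (Sum.inl c) - p (Sum.inr 0))) →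
  (∀ a b : Fin m, a.val + 1 = b.val → EFun p (Sum.inl a) (Sum.inl b)) ∧
  (∀ a b : Fin m, a.val = 0 → b.val + 1 = m → EFun p (Sum.inl a) (Sum.inl b))

/-- NOCROSS. Relation between four vectors of `ℝ^3`:
`D(b,c,d) r_a - D(a,c,d) r_b + D(a,b,d) r_c - D(a,b,c) r_d = 0` with all `D > 0`.
If `EFun p a c` by `f = l + β'`: put `β = f(p (inr 0)) > 0`; then `l(r_a) ≤ -β`, `l(r_c) ≤ -β`,
`l(r_b) > -β`, `l(r_d) > -β`, so applying `l` to the relation:
`-β (D_bcd + D_abd) ≥ D_bcd l(r_a) + D_abd l(r_c) = D_acd l(r_b) + D_abc l(r_d) > -β (D_acd + D_abc)`,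
i.e. `D_bcd + D_abd < D_acd + D_abc`. `EFun p b d` gives the opposite strict inequality. -/
def S_NOCROSS : Prop := ∀ (m : ℕ) (p : Fin m ⊕ Fin 1 → EuclideanSpace ℝ (Fin 3)),
  (∀ a b c : Fin m, a < b → b < c → 0 < det3 (p (Sum.inl a) - p (Sum.inr 0))
    (p (Sum.inl b) - p (Sum.inr 0)) (p (Sum.inl c) - p (Sum.inr 0))) →
  ∀ a b c d : Fin m, a < b → b < c → c < d →
    ¬ (EFun p (Sum.inl a) (Sum.inl c) ∧ EFun p (Sum.inl b) (Sum.inl d))

/-- UNIV. From CHARB, ORDER, CONSEC, NOCROSS: let `p` be given by CHARB for `joinW H (Fin 1)`;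
`EFun p (inl x) (inr 0)` (adjacent) with exact zeros (add multiples of the functionals of
`VFun`, as in CHARA) gives `F_x` for `r x = p (inl x) - p (inr 0)`; ORDER gives `e`; apply CONSEC and
NOCROSS to `p ∘ Sum.map e id` and translate `EFun` to adjacency. -/
def S_UNIV : Prop := ∀ (U : Type) [Fintype U] (H : SimpleGraph U), 3 ≤ Fintype.card U →
  IsPolytopal 3 (joinW H (Fin 1)) → OuterHam H

/-- LOWD. By CHARB; if there are three distinct `x,y,z : U` then the three vectors
`r = p (inl ·) - p (inr 0)` are linearly independent by step (1) of ORDER, impossible in `ℝ^d` with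
`d ≤ 2`. -/
def S_LOWD : Prop := ∀ (d : ℕ) (U : Type) [Fintype U] (H : SimpleGraph U), d ≤ 2 →
  IsPolytopal d (joinW H (Fin 1)) → Fintype.card U ≤ 2

/-! ## Dimension three: from cyclic order to polytope -/

/-- The combinatorial hypothesis for a graph on `Fin m`. -/
def OHF (m : ℕ) (H : SimpleGraph (Fin m)) : Prop :=
  3 ≤ m ∧ (∀ a b : Fin m, a.val + 1 = b.val → H.Adj a b) ∧
    (∀ a b : Fin m, a.val = 0 → b.val + 1 = m → H.Adj a b) ∧
    ∀ a b c d : Fin m, a < b → b < c → c < d → ¬ (H.Adj a c ∧ H.Adj b d)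

open Classical in
/-- The convex weight: `1 + Σ |(k-a)(k-c)|` over the edges `a < c` of `H`. -/
noncomputable def gw (m : ℕ) (H : SimpleGraph (Fin m)) (k : Fin m) : ℝ :=
  1 + ∑ c : Fin m × Fin m, if c.1 < c.2 ∧ H.Adj c.1 c.2 then
    |((k.val : ℝ) - c.1.val) * ((k.val : ℝ) - c.2.val)| else 0

/-- The points: apex at the origin, the others on the rays through `(k, k^2, 1)`. -/
noncomputable def pO (m : ℕ) (H : SimpleGraph (Fin m)) :
    Fin m ⊕ Fin 1 → EuclideanSpace ℝ (Fin 3)
  | Sum.inl k => (gw m H k)⁻¹ • !₂[(k.val : ℝ), (k.val : ℝ) ^ 2, 1]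
  | Sum.inr _ => 0

/-- O1. `gw ≥ 1 > 0`. `Spans`: value at `inr 0` gives `b = 0`, the three points `k = 0,1,2` are
independent (Vandermonde), so `l = 0`. `VFun (inr 0)`: the third coordinate. `VFun (inl k)`:
`f v = M (v_1 - 2 k v_0 + k^2 v_2) + 1 - gw k * v_2`: at `inl k` it is `0`, at `inr 0` it is `1`, at
`inl j` it is `(M (j-k)^2 + gw j - gw k)/gw j > 0` for large `M`.
`EFun (inl k) (inr 0)`: `f v = v_1 - 2 k v_0 + k^2 v_2`, value `(j-k)^2/gw j` at `inl j`. -/
def S_O1 : Prop := ∀ (m : ℕ) (H : SimpleGraph (Fin m)), OHF m H → Spans (pO m H) ∧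
  (∀ x, VFun (pO m H) x) ∧ ∀ k, EFun (pO m H) (Sum.inl k) (Sum.inr 0)

/-- O2. Let `a < c` be adjacent. For every other edge `(a',c')`, `a' < c'`, no crossing means that
`a` and `c` lie both in `[a',c']` or both outside the open interval `(a',c')`; let `s = -1` in the
first case (when not both outside) and `s = 1` otherwise. The quadratic polynomial
`A(k) = 1 + Σ_{(a',c') ≠ (a,c)} s (k-a')(k-c')` satisfies `A(k) ≤ gw k` (since `s q ≤ |q|`) with
equality at `k = a, c`, and `gw k - A k ≥ |(k-a)(k-c)| > 0` for `k ≠ a,c`. Writing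
`A(k) = α + β k + γ k^2`, the function `f v = 1 - (β v_0 + γ v_1 + α v_2)` has the value
`(gw k - A k)/gw k` at `inl k` and `1` at `inr 0`. -/
def S_O2 : Prop := ∀ (m : ℕ) (H : SimpleGraph (Fin m)), OHF m H → ∀ a c : Fin m, H.Adj a c →
  EFun (pO m H) (Sum.inl a) (Sum.inl c)

/-- O3. Let `a < c` be non-adjacent. Let `k` be the largest neighbour of `a` in `(a,c)` (it exists,
`a+1` is one because `a+1 ≠ c`). Let `l` be the cyclically nearest neighbour of `a` after `c`: the
smallest neighbour of `a` which is `> c` if there is one, otherwise the smallest neighbour of `a`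
which is `< a` (one of them exists: if `a > 0` then `a-1`; if `a = 0` then `m-1`, which is `≠ c`).
CLAIM: no edge `(a',c')` separates `k` and `l`, i.e. the numbers `(k-a')(k-c')` and `(l-a')(l-c')` are both `≥ 0`
or both `≤ 0`: an edge with one end strictly between `k` and `l` on the side of `c` and the other end
strictly on the side of `a`: if the other end is `a` this contradicts the choice of `k, l` or the
non-adjacency of `a, c`; otherwise the edge crosses the edge `a k` or `a l`.
Now suppose `f = l' + b` shows `EFun (inl a) (inl c)`; `β = f(0) = b > 0`. With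
`A(x) = -l'(x, x^2, 1)/β` (quadratic in `x`): `A(a) ≥ gw a`, `A(c) ≥ gw c`, `A(k) < gw k`,
`A(l) < gw l`. Third divided difference on the four points `a,c,k,l` (the pairs `{a,c}` and `{k,l}`
alternate): there are `λ_a, λ_c, λ_k, λ_l > 0` with `λ_a q(a) + λ_c q(c) = λ_k q(k) + λ_l q(l)` for every
polynomial `q` of degree `≤ 2`. Then `λ_a gw a + λ_c gw c ≤ λ_a A a + λ_c A c = λ_k A k + λ_l A l <
λ_k gw k + λ_l gw l`. On the other hand for each edge polynomial `q`, by the CLAIM,
`λ_k |q k| + λ_l |q l| = |λ_k q k + λ_l q l| = |λ_a q a + λ_c q c| ≤ λ_a |q a| + λ_c |q c|`; summing,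
`λ_k gw k + λ_l gw l ≤ λ_a gw a + λ_c gw c`. Contradiction. -/
def S_O3 : Prop := ∀ (m : ℕ) (H : SimpleGraph (Fin m)), OHF m H → ∀ a c : Fin m, a < c →
  ¬ H.Adj a c → ¬ EFun (pO m H) (Sum.inl a) (Sum.inl c)

/-- COMB. Combinatorics of `OuterHam` for joins. (0) `joinComplete G 0` is isomorphic to `G`.
(1) rotate the cyclic order (OuterHam is invariant under rotation) so that the universal vertex is
`e 0`; the others `e 1, ..., e (m-1)` are `V`; `e a, e b` with `1 ≤ a`, `a + 2 ≤ b` are not adjacent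
since `e 0, e (a+1)` are adjacent and the pairs cross; so `G` is a path.
(2) `k ≥ 2`: rotate `inr 0` to position `0`; as in (1) the others form a path (in order) of `m-1`
vertices, in which `inr 1` is adjacent to all others, so `m - 1 ≤ 3`, i.e.
`card V + k ≤ 4`, `card V ≤ 2`. (3) order: the universal vertex first, then the path.
(4) `card V = 0`: `k = 3`; `card V = 1`: `k = 2`; `card V = 2`, adjacent: `k = 1` (all triangles);
`card V = 2`, not adjacent, `V = {a,b}`: `k = 2`, order `a, inr 0, b, inr 1`. -/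
def S_COMB : Prop :=
  (∀ (V : Type) (G : SimpleGraph V), OuterHam (joinComplete G 0) ↔ OuterHam G) ∧
  (∀ (V : Type) (G : SimpleGraph V), OuterHam (joinComplete G 1) → PathLike G) ∧
  (∀ (V : Type) [Fintype V] (G : SimpleGraph V) (k : ℕ), 2 ≤ k → OuterHam (joinComplete G k) →
    Fintype.card V ≤ 2) ∧
  (∀ (V : Type) [Fintype V] (G : SimpleGraph V), 2 ≤ Fintype.card V → PathLike G →
    OuterHam (joinComplete G 1)) ∧
  (∀ (V : Type) [Fintype V] (G : SimpleGraph V), Fintype.card V ≤ 2 →
    ∃ k, OuterHam (joinComplete G k))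

/-! ## Dimension five -/

/-- The affine Veronese map; affine functions on `ℝ^5` composed with `nu` are exactly the quadratic
polynomials in two variables. -/
noncomputable def nu (a : ℝ × ℝ) : EuclideanSpace ℝ (Fin 5) :=
  !₂[a.1, a.2, a.1 ^ 2, a.1 * a.2, a.2 ^ 2]

/-- `0` exactly when the three points are collinear. -/
def cross (x y z : ℝ × ℝ) : ℝ :=
  (y.1 - x.1) * (z.2 - x.2) - (y.2 - x.2) * (z.1 - x.1)

/-- Points `a x`, `x : A`, in the plane, and for every `e : E` two further points on the line through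
`a (i e)` and `a (j e)`, with parameters `s (e, false)` and `s (e, true)`. -/
structure QConf (A E : Type) where
  a : A → ℝ × ℝ
  i : E → A
  j : E → A
  s : E × Bool → ℝ

section Q

variable {A E : Type}

def QConf.pos (C : QConf A E) : A ⊕ (E × Bool) → ℝ × ℝ
  | Sum.inl x => C.a x
  | Sum.inr w => C.a (C.i w.1) + C.s w • (C.a (C.j w.1) - C.a (C.i w.1))

/-- `x` is one of the four labels on the line of `e`. -/
def QConf.On (C : QConf A E) (x : A ⊕ (E × Bool)) (e : E) : Prop :=
  x = Sum.inl (C.i e) ∨ x = Sum.inl (C.j e) ∨ ∃ b, x = Sum.inr (e, b)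

structure QConf.Good (C : QConf A E) : Prop where
  ne : ∀ e, C.i e ≠ C.j e
  pair : ∀ e e', ((C.i e = C.i e' ∧ C.j e = C.j e') ∨ (C.i e = C.j e' ∧ C.j e = C.i e')) → e = e'
  s0 : ∀ e, 0 < C.s (e, false) ∧ C.s (e, false) < 1
  s1 : ∀ e, 1 < C.s (e, true)
  inj : Function.Injective C.pos
  gp : ∀ x y z, x ≠ y → y ≠ z → x ≠ z → cross (C.pos x) (C.pos y) (C.pos z) = 0 →
    ∃ e, C.On x e ∧ C.On y e ∧ C.On z e
  span : ∀ (l : EuclideanSpace ℝ (Fin 5) →L[ℝ] ℝ) (b : ℝ),
    (∀ x, l (nu (C.a x)) + b = 0) → l = 0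

/-- The points of `ℝ^5`: the `A`-points on the Veronese surface, the others pushed outwards, away from
the centre of gravity of the `A`-points. -/
noncomputable def QConf.pt [Fintype A] (C : QConf A E) (ε : ℝ) :
    A ⊕ (E × Bool) → EuclideanSpace ℝ (Fin 5)
  | Sum.inl x => nu (C.a x)
  | Sum.inr w => (1 + ε) • nu (C.pos (Sum.inr w)) -
      ε • ((Fintype.card A : ℝ)⁻¹ • ∑ x, nu (C.a x))

end Q

/-- QV. NOTATION for all Q-tasks: for a quadratic polynomial `F` in two variables there are `l, b`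
with `l (nu a) + b = F a` for all `a`; then the value of the affine function `l + b` at
`C.pt ε (inl x)` is `F (C.a x)` and at `C.pt ε (inr w)` it is
`(1 + ε) F (C.pos (inr w)) - ε E(F)`, where `E(F)` is the average of `F` over the `A`-points.
`A` is nonempty, and `E(F) > 0` for `F = ` square of a nonconstant affine function (otherwise
`F` vanishes at all `A`-points, so `l = 0` by `span`, so `F` is constant, contradiction). Everything
is for all sufficiently small `ε > 0`; finitely many conditions, each of the form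
`continuous function of ε, positive at 0` or an exact sign.
Proof of QV: `F = |· - pos u|^2`. If `u = inl x`: zero at `u`, positive at the other `A`-points, and at
`inr w` the value tends to `F(pos w) > 0` (`inj`). If `u = inr w`: value `-ε E(F) ≤ 0` at `u`. -/
def S_QV : Prop := ∀ (A E : Type) [Fintype A] [Fintype E] (C : QConf A E), C.Good →
  ∀ u, ∀ᶠ ε in 𝓝[>] (0 : ℝ), VFun (C.pt ε) u

/-- QVV. `x, y : A` not the two ends of some `e`. `F = ℓ^2`, `ℓ(z) = cross (a x) (a y) z`. By `gp` no
third label lies on the line (a third label `z` gives `e` with `x, y, z` on `e`, so `{x,y} = {i e, j e}`).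
Values: `0` at `x, y`; positive at other `A`-points; at `inr w` tends to `ℓ^2 > 0`. -/
def S_QVV : Prop := ∀ (A E : Type) [Fintype A] [Fintype E] (C : QConf A E), C.Good →
  ∀ x y : A, x ≠ y →
  (¬ ∃ e, (C.i e = x ∧ C.j e = y) ∨ (C.i e = y ∧ C.j e = x)) →
  ∀ᶠ ε in 𝓝[>] (0 : ℝ), EFun (C.pt ε) (Sum.inl x) (Sum.inl y)

/-- QVW0. `x` is not an end of `w.1`. Again `F = ℓ^2` with `ℓ` the line through `a x` and `pos w`; no
third label on it by `gp`. Value `0` at `x`, `-ε E(F) ≤ 0` at `w`. -/
def S_QVW0 : Prop := ∀ (A E : Type) [Fintype A] [Fintype E] (C : QConf A E), C.Good →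
  ∀ (x : A) (w : E × Bool), x ≠ C.i w.1 → x ≠ C.j w.1 →
  ∀ᶠ ε in 𝓝[>] (0 : ℝ), EFun (C.pt ε) (Sum.inl x) (Sum.inr w)

/-- QVW1. `x` is an end of `e = w.1`. Let `ℓ` be the line through `a (i e), a (j e)`; by `gp` the labels
on it are exactly `inl (i e), inl (j e), inr (e,false), inr (e,true)`. Let `σ` be the affine
coordinate on the plane with `σ(a (i e)) = 0`, `σ(a (j e)) = 1` (normalised inner product with
`a (j e) - a (i e)`), so `σ = τ := s (e,false) ∈ (0,1)` and `σ = τ' := s (e,true) > 1` at the two other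
points. Let `g = G(σ)` be the following quadratic:
`(x,w) = (i,false)`: `G = σ^2`; `(i,true)`: `G = σ (τ' + τ/2 - σ)`;
`(j,false)`: `G = (σ-1)(σ - τ - (τ'-1)/2)`; `(j,true)`: `G = (σ-1)(σ - τ' + (1-τ)/2)`.
In each case (x' the other end, w' the other point on the line): `g(x) = 0`, `g(x') > 0`,
`0 < g(w) < g(w')`. Choose `η` with `E(ℓ^2)/g(w') < η < E(ℓ^2)/g(w)` and
`F = ℓ^2 + η ε g`. Values: `0` at `x`; `η ε g(x') > 0` at `x'`; at `w`:
`ε (η g(w) - E(ℓ^2) + O(ε)) < 0`; at `w'`: `ε (η g(w') - E(ℓ^2) + O(ε)) > 0`; all other labels: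
tends to `ℓ^2 > 0`. -/
def S_QVW1 : Prop := ∀ (A E : Type) [Fintype A] [Fintype E] (C : QConf A E), C.Good →
  ∀ (x : A) (w : E × Bool), (x = C.i w.1 ∨ x = C.j w.1) →
  ∀ᶠ ε in 𝓝[>] (0 : ℝ), EFun (C.pt ε) (Sum.inl x) (Sum.inr w)

/-- QWW. `F = ℓ^2 + c ε` with `ℓ` the line through the two points and `0 < c < E(ℓ^2)`. At `w, w'`:
`(1+ε) c ε - ε (E(ℓ^2) + c ε) = ε (c - E(ℓ^2)) < 0`; `A`-points: `≥ c ε > 0`; other `inr w''` are not on
the line (three labels of the form `inr` cannot all be on one `e`): tends to `ℓ^2 > 0`. -/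
def S_QWW : Prop := ∀ (A E : Type) [Fintype A] [Fintype E] (C : QConf A E), C.Good →
  ∀ w w' : E × Bool, w ≠ w' →
  ∀ᶠ ε in 𝓝[>] (0 : ℝ), EFun (C.pt ε) (Sum.inr w) (Sum.inr w')

/-- QN. With `τ, τ'` as in QVW1 (parameters `0, τ, 1, τ'` on the line): third divided difference:
positive `α, β, γ, δ` with `α F(0) + β F(1) = γ F(τ) + δ F(τ')` for quadratics `F`
(`α = 1/(τ τ')`, `β = 1/((1-τ)(τ'-1))`, `γ = 1/(τ(1-τ)(τ'-τ))`, `δ = 1/(τ'(τ'-1)(τ'-τ))`).
If `f = l + b` showed `EFun`, then with `F a = l (nu a) + b`: `F ≤ 0` at both ends, `F > 0` at all other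
`A`-points, `v_w := (1+ε) F(w) - ε E(F) > 0` at both other points. So `γ v_w + δ v_w' =
(1+ε)(α F(0) + β F(1)) - ε (γ+δ) E(F) > 0`, and since `γ + δ = α + β` and
`E(F) = (F(0) + F(1) + positive terms)/card A`, hence ... both `F(0), F(1) ≤ 0` give
`(1+ε)(α F(0)+β F(1)) ≤ 0`, so `E(F) < 0`, and `-ε(γ+δ)E(F) ≤ -ε (α+β)(F(0)+F(1))/card A`; with
`card A ≥ 2`. To conclude one needs `(1+ε)(αF(0)+βF(1)) - ε(α+β)(F(0)+F(1))/card A ≤ 0`, which holds
for small `ε` (coefficients `(1+ε)α - ε(α+β)/card A ≥ 0` etc.): this is why the statement is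
`∀ᶠ ε`. -/
def S_QN : Prop := ∀ (A E : Type) [Fintype A] [Fintype E] (C : QConf A E), C.Good →
  ∀ e, ∀ᶠ ε in 𝓝[>] (0 : ℝ), ¬ EFun (C.pt ε) (Sum.inl (C.i e)) (Sum.inl (C.j e))

/-- PLACE. Induction over the finite set of labels `(e,b)` already placed. When placing `(e,b)` on the
line of `e` (parameter in `(0,1)` or `(1,2)`), the forbidden parameters are: for each pair of
distinct already placed labels `y ≠ z` whose points are not both on the line of `e`, the at most one
parameter for which the new point is collinear with them; and the parameters of already placed points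
(finitely many). Pairs `y,z` with both points on the line of `e` satisfy `On y e`, `On z e`: if
`y` is different from the two ends then `y, i e, j e` are collinear, so by the induction
hypothesis all three are on some `e'`, and `{i e, j e} = {i e', j e'}` gives `e' = e`. An interval
minus a finite set is nonempty. -/
def S_PLACE : Prop := ∀ (A E : Type) [Fintype A] [Fintype E] (a : A → ℝ × ℝ) (i j : E → A),
  Function.Injective a → (∀ x y z, x ≠ y → y ≠ z → x ≠ z → cross (a x) (a y) (a z) ≠ 0) →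
  (∀ e, i e ≠ j e) →
  (∀ e e', ((i e = i e' ∧ j e = j e') ∨ (i e = j e' ∧ j e = i e')) → e = e') →
  ∃ s : E × Bool → ℝ, (∀ e, 0 < s (e, false) ∧ s (e, false) < 1) ∧ (∀ e, 1 < s (e, true)) ∧
    Function.Injective (QConf.pos ⟨a, i, j, s⟩) ∧
    ∀ x y z, x ≠ y → y ≠ z → x ≠ z →
      cross (QConf.pos ⟨a, i, j, s⟩ x) (QConf.pos ⟨a, i, j, s⟩ y) (QConf.pos ⟨a, i, j, s⟩ z) = 0 →
      ∃ e, QConf.On ⟨a, i, j, s⟩ x e ∧ QConf.On ⟨a, i, j, s⟩ y e ∧ QConf.On ⟨a, i, j, s⟩ z e

/-- PARA. Points `(t, t^2)` with distinct `t > 1` for `V` and the first five elements of `Fin 6`, and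
`(0,-1)` for the last one. Three points of the parabola are not collinear (Vandermonde); `(0,-1)`,
`(t,t^2)`, `(u,u^2)` are collinear only if `(t - u)(t u - 1) = 0`. Spanning: if
`F = b + l ∘ nu` vanishes at the points then the polynomial `F(t,t^2)` of degree `≤ 4` has five
zeros, so `F = c (y - x^2)`, and the value at `(0,-1)` gives `c = 0`. -/
def S_PARA : Prop := ∀ (V : Type) [Fintype V], ∃ a : V ⊕ Fin 6 → ℝ × ℝ, Function.Injective a ∧
  (∀ x y z, x ≠ y → y ≠ z → x ≠ z → cross (a x) (a y) (a z) ≠ 0) ∧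
  ∀ (l : EuclideanSpace ℝ (Fin 5) →L[ℝ] ℝ) (b : ℝ), (∀ x, l (nu (a x)) + b = 0) → l = 0

/-! ## Dimension four, complement a pseudoforest -/

/-- The moment curve. Affine functions on `ℝ^4` composed with `nu4` are the polynomials of degree at
most four. -/
noncomputable def nu4 (t : ℝ) : EuclideanSpace ℝ (Fin 4) := !₂[t, t ^ 2, t ^ 3, t ^ 4]

section F

variable {V : Type}

/-- Parameters of the universal vertices. -/
noncomputable def om (t : Option V → ℝ) (w : Option V × Bool) : ℝ :=
  t w.1 + (if w.2 then 1 / 4 else -(1 / 4))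

/-- The points of `ℝ^4`: universal vertices on the moment curve at `t g ± 1/4`, and for `i : V` the
midpoint of the two points at `t i ± 1/4`, pushed away from the point of the curve at `t (σ i)`. -/
noncomputable def ptF (σ : V → Option V) (t : Option V → ℝ) (δ : ℝ) :
    V ⊕ (Option V × Bool) → EuclideanSpace ℝ (Fin 4)
  | Sum.inl i => ((1 + δ) / 2) • (nu4 (t (some i) - 1 / 4) + nu4 (t (some i) + 1 / 4)) -
      δ • nu4 (t (σ i))
  | Sum.inr w => nu4 (om t w)

end F

/-- FV. NOTATION for all F-tasks: for a polynomial `f` of degree `≤ 4` there are `l, b` with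
`l (nu4 t) + b = f t`; the value of `l + b` at `inr w` is `f (om w)`, and at `inl i` it is
`L_i(f) = (1+δ)/2 (f(t_i - 1/4) + f(t_i + 1/4)) - δ f(t_{σ i})`, where `t_i = t (some i)`. Put
`M_g(x) = (x - t_g)^2 - 1/16` for `g : Option V`; it vanishes at `t_g ± 1/4` and is positive at all
other `om w` and at all `t_h`, `h ≠ g` (distances of different `t`'s are `≥ 1`). `L_i(M_i q) =
-δ M_i(t_{σ i}) q(t_{σ i})`. If `f(t_k - 1/4) + f(t_k + 1/4) > 0` then `L_k(f) > 0` for small `δ`.
Proof: `u = inr w`: `f = (x - om w)^2`. `u = inl i`: `f = M_i + c δ` with `c = M_i(t_{σ i})/2 > 0`: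
`L_i(f) = δ(c - M_i(t_{σ i})) < 0`, at `inr w` `≥ c δ > 0`, at `inl k`, `k ≠ i`, positive for small
`δ`. -/
def S_FV : Prop := ∀ (V : Type) [Fintype V] (σ : V → Option V) (t : Option V → ℝ),
  (∀ i, σ i ≠ some i) → (∀ g h, g ≠ h → 1 ≤ |t g - t h|) →
  ∀ u, ∀ᶠ δ in 𝓝[>] (0 : ℝ), VFun (ptF σ t δ) u

/-- FVV. `f = M_i M_j + c δ` with `0 < c < A_i, A_j`, `A_i = M_i(t_{σ i}) M_j(t_{σ i}) > 0`:
`L_i(f) = δ (c - A_i) < 0`, the same for `j`; `≥ c δ > 0` at all `inr w`; positive at other
`inl k` for small `δ`. -/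
def S_FVV : Prop := ∀ (V : Type) [Fintype V] (σ : V → Option V) (t : Option V → ℝ),
  (∀ i, σ i ≠ some i) → (∀ g h, g ≠ h → 1 ≤ |t g - t h|) →
  ∀ i j : V, i ≠ j → σ i ≠ some j → σ j ≠ some i →
  ∀ᶠ δ in 𝓝[>] (0 : ℝ), EFun (ptF σ t δ) (Sum.inl i) (Sum.inl j)

/-- FVW. `s = om w`. If `w.1 ≠ some i`: `f = M_i (x-s)^2 + c δ (x-s)^2`: zero at `w`, positive at the
other `inr`; `L_i(f) = -δ M_i(t_{σ i})(t_{σ i}-s)^2 + c δ (B + O(δ))`, `B > 0` the average of
`(x-s)^2` at `t_i ± 1/4`; negative for small `c` and `δ` (`t_{σ i} ≠ s`); other `inl k`: positive for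
small `δ`. If `w.1 = some i`: `f = M_i + c δ (x-s)^2`, the same. -/
def S_FVW : Prop := ∀ (V : Type) [Fintype V] (σ : V → Option V) (t : Option V → ℝ),
  (∀ i, σ i ≠ some i) → (∀ g h, g ≠ h → 1 ≤ |t g - t h|) →
  ∀ (i : V) (w : Option V × Bool),
  ∀ᶠ δ in 𝓝[>] (0 : ℝ), EFun (ptF σ t δ) (Sum.inl i) (Sum.inr w)

/-- FWW. `s = om w, s' = om w'`. If `w.1 = w'.1 = some k` (so `{s,s'} = {t_k ± 1/4}`):
`f = M_k ((x - t_{σ k})^2 - 1/32)`: zero at `s,s'`, positive at all other `om`, and
`L_k(f) = δ M_k(t_{σ k})/32 > 0`; other `inl`: positive for small `δ`. Otherwise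
`f = (x-s)^2 (x-s')^2`; for every `k` at least one of `t_k ± 1/4` is different from `s, s'`, so
`L_k(f) > 0` for small `δ`. -/
def S_FWW : Prop := ∀ (V : Type) [Fintype V] (σ : V → Option V) (t : Option V → ℝ),
  (∀ i, σ i ≠ some i) → (∀ g h, g ≠ h → 1 ≤ |t g - t h|) →
  ∀ w w' : Option V × Bool, w ≠ w' →
  ∀ᶠ δ in 𝓝[>] (0 : ℝ), EFun (ptF σ t δ) (Sum.inr w) (Sum.inr w')

/-- FN. `σ i = some j`, `i ≠ j`. `L_i(M_i M_j) = -δ M_i(t_j) M_j(t_j) = δ M_i(t_j)/16`, and
`L_j(M_i M_j) = -δ M_j(t_{σ j}) M_i(t_{σ j})`. Choose `β > 0` with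
`β |M_j(t_{σ j}) M_i(t_{σ j})| < M_i(t_j)/16`; then `Λ = L_i + β L_j` is positive on `M_i M_j`. Take the
five nodes `t_i ± 1/4, t_j ± 1/4, z = t_{none} + 1/4`. Lagrange interpolation:
`Λ(f) = Σ Λ(B_n) f(n)` for `deg f ≤ 4`. `B_z` is a positive multiple of `M_i M_j`, so
`Λ(B_z) > 0`; as `δ → 0`, `Λ(B_n) → 1/2` for `n = t_i ± 1/4` and `→ β/2` for `n = t_j ± 1/4`. So for
small `δ` all five coefficients are positive. An `f` showing `EFun` has `Λ(f) ≤ 0` and `f > 0` at
the nodes (they are universal vertices): contradiction. -/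
def S_FN : Prop := ∀ (V : Type) [Fintype V] (σ : V → Option V) (t : Option V → ℝ),
  (∀ i, σ i ≠ some i) → (∀ g h, g ≠ h → 1 ≤ |t g - t h|) →
  ∀ i j : V, i ≠ j → σ i = some j →
  ∀ᶠ δ in 𝓝[>] (0 : ℝ), ¬ EFun (ptF σ t δ) (Sum.inl i) (Sum.inl j)

/-- FS. At least six universal vertices; a polynomial of degree `≤ 4` with six zeros is zero. -/
def S_FS : Prop := ∀ (V : Type) [Fintype V] (σ : V → Option V) (t : Option V → ℝ),
  2 ≤ Fintype.card V → (∀ g h, g ≠ h → 1 ≤ |t g - t h|) → ∀ δ : ℝ, Spans (ptF σ t δ)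

end Pool.Agent.H126.DJ
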