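import Pool.Agent.H126.DJ.St

set_option autoImplicit false

namespace Pool.Agent.H126.DJ

open Set

namespace UNI

/-- Exact zeros: an edge functional vanishing exactly at the two end points. -/
lemma exact_zero {d : ℕ} {U : Type} {p : U → EuclideanSpace ℝ (Fin d)} {x y : U} (hxy : x ≠ y)
    (hx : VFun p x) (hy : VFun p y) (h : EFun p x y) :
    ∃ F : EuclideanSpace ℝ (Fin d) →L[ℝ] ℝ, F (p x) = F (p y) ∧
      ∀ z, z ≠ x → z ≠ y → F (p x) < F (p z) := by
  obtain ⟨l, b, h1, h2, h3⟩ := h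
  obtain ⟨g, c, g1, g2⟩ := hx
  obtain ⟨k, e, k1, k2⟩ := hy
  have gpos : ∀ z, z ≠ x → 0 < g (p z) - g (p x) := fun z hz => by
    have := g2 z hz
    linarith
  have kpos : ∀ z, z ≠ y → 0 < k (p z) - k (p y) := fun z hz => by
    have := k2 z hz
    linarith
  obtain ⟨α, hα⟩ : ∃ α, α = -(l (p y) + b) / (g (p y) - g (p x)) := ⟨_, rfl⟩
  obtain ⟨β, hβ⟩ : ∃ β, β = -(l (p x) + b) / (k (p x) - k (p y)) := ⟨_, rfl⟩
  have hα0 : 0 ≤ α := by
    rw [hα]
    exact div_nonneg (by linarith) (gpos y hxy.symm).le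
  have hβ0 : 0 ≤ β := by
    rw [hβ]
    exact div_nonneg (by linarith) (kpos x hxy).le
  have hα1 : α * (g (p y) - g (p x)) = -(l (p y) + b) := by
    rw [hα]
    exact div_mul_cancel₀ _ (gpos y hxy.symm).ne'
  have hβ1 : β * (k (p x) - k (p y)) = -(l (p x) + b) := by
    rw [hβ]
    exact div_mul_cancel₀ _ (kpos x hxy).ne'
  refine ⟨l + α • g + β • k, ?_, ?_⟩
  · simp only [add_apply, smul_apply, smul_eq_mul]
    linarith
  · intro z hzx hzy
    simp only [add_apply, smul_apply, smul_eq_mul]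
    have i1 := h3 z hzx hzy
    have i2 := mul_nonneg hα0 (gpos z hzx).le
    have i3 := mul_nonneg hβ0 (kpos z hzy).le
    have i4 : l (p x) + b + β * (k (p x) - k (p y)) = 0 := by rw [hβ1]; ring
    nlinarith

lemma join_inr {U : Type} (H : SimpleGraph U) (x : U) (o : Fin 1) :
    (joinW H (Fin 1)).Adj (Sum.inl x) (Sum.inr o) :=
  ⟨by simp, fun u v _ h => by simp at h⟩

lemma join_inl {U : Type} (H : SimpleGraph U) (x y : U) :
    (joinW H (Fin 1)).Adj (Sum.inl x) (Sum.inl y) ↔ H.Adj x y := by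
  constructor
  · intro h
    exact h.2 x y rfl rfl
  · intro h
    refine ⟨fun e => h.ne (Sum.inl_injective e), fun u v hu hv => ?_⟩
    rw [← Sum.inl_injective hu, ← Sum.inl_injective hv]
    exact h

lemma link {d : ℕ} {U : Type} {H : SimpleGraph U} {p : U ⊕ Fin 1 → EuclideanSpace ℝ (Fin d)}
    (hV : ∀ x, VFun p x) (hE : ∀ x y, x ≠ y → ((joinW H (Fin 1)).Adj x y ↔ EFun p x y)) (x : U) :
    ∃ F : EuclideanSpace ℝ (Fin d) →L[ℝ] ℝ, F (p (Sum.inl x) - p (Sum.inr 0)) = 0 ∧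
      ∀ y, y ≠ x → 0 < F (p (Sum.inl y) - p (Sum.inr 0)) := by
  have hne : (Sum.inl x : U ⊕ Fin 1) ≠ Sum.inr 0 := by simp
  obtain ⟨F, hF1, hF2⟩ := exact_zero hne (hV _) (hV _) ((hE _ _ hne).1 (join_inr H x 0))
  refine ⟨F, ?_, ?_⟩
  · rw [map_sub, hF1, sub_self]
  · intro y hy
    rw [map_sub, ← hF1]
    have := hF2 (Sum.inl y) (fun e => hy (Sum.inl_injective e)) (by simp)
    linarith

lemma signs {a b c vy vz uz ux wx wy : ℝ} (hne : a ≠ 0 ∨ b ≠ 0 ∨ c ≠ 0)
    (h1 : b * vy + c * vz = 0) (h2 : a * ux + c * uz = 0) (h3 : a * wx + b * wy = 0)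
    (pvy : 0 < vy) (pvz : 0 < vz) (pux : 0 < ux) (puz : 0 < uz) (pwx : 0 < wx) (pwy : 0 < wy) :
    False := by
  rcases lt_trichotomy b 0 with hb | hb | hb
  · have hc : 0 < c := by
      by_contra hc
      push Not at hc
      have := mul_neg_of_neg_of_pos hb pvy
      have := mul_nonpos_of_nonpos_of_nonneg hc pvz.le
      linarith
    have ha : 0 < a := by
      by_contra ha
      push Not at ha
      have := mul_neg_of_neg_of_pos hb pwy
      have := mul_nonpos_of_nonpos_of_nonneg ha pwx.le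
      linarith
    have := mul_pos ha pux
    have := mul_pos hc puz
    linarith
  · subst hb
    have hc : c = 0 := by
      rw [zero_mul, zero_add] at h1
      rcases mul_eq_zero.1 h1 with h | h
      · exact h
      · exact absurd h pvz.ne'
    have ha : a = 0 := by
      rw [zero_mul, add_zero] at h3
      rcases mul_eq_zero.1 h3 with h | h
      · exact h
      · exact absurd h pwx.ne'
    rcases hne with h | h | h
    · exact h ha
    · exact h rfl
    · exact h hc
  · have hc : c < 0 := by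
      by_contra hc
      push Not at hc
      have := mul_pos hb pvy
      have := mul_nonneg hc pvz.le
      linarith
    have ha : a < 0 := by
      by_contra ha
      push Not at ha
      have := mul_pos hb pwy
      have := mul_nonneg ha pwx.le
      linarith
    have := mul_neg_of_neg_of_pos ha pux
    have := mul_neg_of_neg_of_pos hc puz
    linarith

lemma efun_equiv {d : ℕ} {U U' : Type} (σ : U' ≃ U) (p : U → EuclideanSpace ℝ (Fin d)) (x y : U') :
    EFun (fun z => p (σ z)) x y ↔ EFun p (σ x) (σ y) := by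
  constructor
  · rintro ⟨l, b, h1, h2, h3⟩
    refine ⟨l, b, h1, h2, fun z hz1 hz2 => ?_⟩
    have := h3 (σ.symm z) (fun e => hz1 (by rw [← e, Equiv.apply_symm_apply]))
      (fun e => hz2 (by rw [← e, Equiv.apply_symm_apply]))
    simpa using this
  · rintro ⟨l, b, h1, h2, h3⟩
    exact ⟨l, b, h1, h2, fun z hz1 hz2 => h3 (σ z) (fun e => hz1 (σ.injective e))
      (fun e => hz2 (σ.injective e))⟩

end UNI

theorem univ : S_CHARB → S_ORDER → S_CONSEC → S_NOCROSS → S_UNIV := by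
  intro hCB hO hC hN U _ H hcard hP
  obtain ⟨p, -, hV, hE⟩ := hCB 3 (U ⊕ Fin 1) (joinW H (Fin 1)) hP
  obtain ⟨e, he⟩ := hO U (fun x => p (Sum.inl x) - p (Sum.inr 0)) (UNI.link hV hE)
  let σ : Fin (Fintype.card U) ⊕ Fin 1 ≃ U ⊕ Fin 1 := Equiv.sumCongr e (Equiv.refl _)
  have hdet : ∀ a b c : Fin (Fintype.card U), a < b → b < c →
      0 < det3 ((fun z => p (σ z)) (Sum.inl a) - (fun z => p (σ z)) (Sum.inr 0))
        ((fun z => p (σ z)) (Sum.inl b) - (fun z => p (σ z)) (Sum.inr 0))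
        ((fun z => p (σ z)) (Sum.inl c) - (fun z => p (σ z)) (Sum.inr 0)) := he
  obtain ⟨hC1, hC2⟩ := hC _ (fun z => p (σ z)) hcard hdet
  have hadj : ∀ a b : Fin (Fintype.card U), a ≠ b →
      (EFun (fun z => p (σ z)) (Sum.inl a) (Sum.inl b) ↔ H.Adj (e a) (e b)) := by
    intro a b hab
    rw [UNI.efun_equiv σ p]
    change EFun p (Sum.inl (e a)) (Sum.inl (e b)) ↔ _
    rw [← hE _ _ (fun h => hab (e.injective (Sum.inl_injective h))), UNI.join_inl]
  refine ⟨Fintype.card U, e, hcard, ?_, ?_, ?_⟩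
  · intro a b hab
    exact (hadj a b (fun h => by rw [h] at hab; omega)).1 (hC1 a b hab)
  · intro a b ha hb
    exact (hadj a b (fun h => by rw [h] at ha; omega)).1 (hC2 a b ha hb)
  · intro a b c d hab hbc hcd hh
    exact hN _ (fun z => p (σ z)) hdet a b c d hab hbc hcd
      ⟨(hadj a c (hab.trans hbc).ne).2 hh.1, (hadj b d (hbc.trans hcd).ne).2 hh.2⟩

theorem lowd : S_CHARB → S_LOWD := by
  intro hCB d U _ H hd hP
  by_contra hcard
  push Not at hcard
  obtain ⟨p, -, hV, hE⟩ := hCB d (U ⊕ Fin 1) (joinW H (Fin 1)) hP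
  obtain ⟨x, y, z, hxy, hxz, hyz⟩ := Fintype.two_lt_card_iff.1 hcard
  obtain ⟨F, hF0, hF1⟩ := UNI.link hV hE x
  obtain ⟨G, hG0, hG1⟩ := UNI.link hV hE y
  obtain ⟨K, hK0, hK1⟩ := UNI.link hV hE z
  have hli : ¬ LinearIndependent ℝ ![p (Sum.inl x) - p (Sum.inr 0), p (Sum.inl y) - p (Sum.inr 0),
      p (Sum.inl z) - p (Sum.inr 0)] := by
    intro h
    have := h.fintype_card_le_finrank
    simp at this
    omega
  obtain ⟨g, hg, i, hi⟩ := Fintype.not_linearIndependent_iff.1 hli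
  rw [Fin.sum_univ_three] at hg
  simp only [Matrix.cons_val_zero, Matrix.cons_val_one, Matrix.cons_val] at hg
  have hr : ∀ F : EuclideanSpace ℝ (Fin d) →L[ℝ] ℝ, g 0 * F (p (Sum.inl x) - p (Sum.inr 0)) +
      g 1 * F (p (Sum.inl y) - p (Sum.inr 0)) + g 2 * F (p (Sum.inl z) - p (Sum.inr 0)) = 0 := by
    intro F
    have := congrArg F hg
    rw [map_add, map_add, map_smul, map_smul, map_smul, map_zero] at this
    exact this
  have h1 := hr F
  have h2 := hr G
  have h3 := hr K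
  rw [hF0, mul_zero, zero_add] at h1
  rw [hG0, mul_zero, add_zero] at h2
  rw [hK0, mul_zero, add_zero] at h3
  refine UNI.signs (a := g 0) (b := g 1) (c := g 2) ?_ h1 h2 h3 (hF1 y hxy.symm) (hF1 z hxz.symm)
    (hG1 x hxy) (hG1 z hyz.symm) (hK1 x hxz) (hK1 y hyz)
  fin_cases i
  · exact Or.inl hi
  · exact Or.inr (Or.inl hi)
  · exact Or.inr (Or.inr hi)

end Pool.Agent.H126.DJ
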